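import Mathlib
import Pool.Agent.Helper5.ZasDefs

/-!
Permutation groups: the derived length of a finite soluble permutation group from a bound for
automorphism groups of abelian groups (lemma Z2 of the logarithmic Zassenhaus theorem).
-/

open MulAction Pool.Agent.Helper5.Zas
open scoped commutatorElement Pointwise

namespace Pool.Agent.Helper52.Zas

/-- The derived series of a term of the derived series. -/
lemma map_derivedSeries_derivedSeries {G : Type*} [Group G] (a b : ℕ) :
    (derivedSeries ↥(derivedSeries G a) b).map (derivedSeries G a).subtype =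
      derivedSeries G (a + b) := by
  induction b with
  | zero =>
    rw [derivedSeries_zero, ← MonoidHom.range_eq_map, Subgroup.range_subtype, add_zero]
  | succ b ih =>
    rw [derivedSeries_succ, Subgroup.map_commutator, ih, ← add_assoc, derivedSeries_succ]

/-- A subgroup stabilising a block of an abelian normal subgroup acts on it, deep in its derived
series, through the abelian normal subgroup. -/
lemma block_lemma {G : Type} [Group G] [Finite G] [Group.IsSolvable G] {Ω : Type}
    [MulAction G Ω] (A : Subgroup G) [hN : A.Normal]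
    (hA : ∀ a ∈ A, ∀ b ∈ A, ∀ ω : Ω, a • b • ω = b • a • ω) (k m : ℕ) (δ : Ω)
    (hC : ∀ c ∈ derivedSeries G k, ∃ a ∈ A, c • δ = a • δ)
    (hm : AutBound (Nat.card (orbit A δ)) m) :
    ∀ c ∈ derivedSeries G (k + m), ∃ a ∈ A, ∀ b ∈ A, c • b • δ = a • b • δ := by
  classical
  set K : Subgroup A := stabilizer A δ with hK
  have memK : ∀ a : A, a ∈ K ↔ (a : G) • δ = δ := fun a => by
    rw [hK, mem_stabilizer_iff]; rfl
  have hKn : K.Normal := by
    refine ⟨fun n hn g => ?_⟩
    rw [memK] at hn ⊢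
    have h1 : ((g * n * g⁻¹ : A) : G) = (g : G) * ((n : G) * ((g : G)⁻¹)) := by
      push_cast; group
    rw [h1, mul_smul, mul_smul, hA n n.2 _ (A.inv_mem g.2), hn, smul_inv_smul]
  have hab : ∀ x y : A ⧸ K, x * y = y * x := by
    intro x y
    induction x using QuotientGroup.induction_on with
    | H x =>
    induction y using QuotientGroup.induction_on with
    | H y =>
    rw [← QuotientGroup.mk_mul, ← QuotientGroup.mk_mul, QuotientGroup.eq, memK]
    have h1 : (((x * y)⁻¹ * (y * x) : A) : G) = (y : G)⁻¹ * ((x : G)⁻¹ * ((y : G) * (x : G))) := by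
      push_cast; group
    rw [h1, mul_smul, mul_smul, mul_smul, hA y y.2 x x.2, inv_smul_smul, inv_smul_smul]
  letI : CommGroup (A ⧸ K) := { (inferInstance : Group (A ⧸ K)) with mul_comm := hab }
  -- conjugation preserves K
  have hpres : ∀ c ∈ derivedSeries G k, ∀ n : A, n ∈ K → MulAut.conjNormal c n ∈ K := by
    intro c hc n hn
    rw [memK] at hn ⊢
    obtain ⟨a, ha, hca⟩ := hC c⁻¹ ((derivedSeries G k).inv_mem hc)
    rw [MulAut.conjNormal_apply, mul_smul, mul_smul, hca, hA n n.2 a ha, hn, ← hca,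
      smul_inv_smul]
  have hmap : ∀ c ∈ derivedSeries G k,
      K.map ((MulAut.conjNormal c : MulAut A) : A →* A) = K := by
    intro c hc
    apply le_antisymm
    · rw [Subgroup.map_le_iff_le_comap]
      intro n hn
      exact hpres c hc n hn
    · intro n hn
      refine ⟨MulAut.conjNormal c⁻¹ n, hpres _ ((derivedSeries G k).inv_mem hc) n hn, ?_⟩
      change MulAut.conjNormal c (MulAut.conjNormal c⁻¹ n) = n
      rw [← MulAut.mul_apply, ← map_mul, mul_inv_cancel, map_one, MulAut.one_apply]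
  let φ : ↥(derivedSeries G k) →* MulAut (A ⧸ K) :=
    { toFun := fun c => QuotientGroup.congr K K (MulAut.conjNormal (c : G)) (hmap c c.2)
      map_one' := by
        ext x
        induction x using QuotientGroup.induction_on with
        | H x =>
        rw [QuotientGroup.congr_mk]
        simp
      map_mul' := by
        intro c d
        ext x
        induction x using QuotientGroup.induction_on with
        | H x =>
        rw [QuotientGroup.congr_mk, MulAut.mul_apply, QuotientGroup.congr_mk,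
          QuotientGroup.congr_mk]
        simp }
  have hcard : Nat.card (A ⧸ K) ≤ Nat.card (orbit A δ) :=
    (Nat.card_congr (orbitEquivQuotientStabilizer A δ)).ge
  have key := hm (A ⧸ K) ↥(derivedSeries G k) φ hcard
  intro c hc
  rw [← map_derivedSeries_derivedSeries] at hc
  obtain ⟨c', hc', rfl⟩ := hc
  obtain ⟨a, ha, hca⟩ := hC c' c'.2
  refine ⟨a, ha, fun b hb => ?_⟩
  have h1 : φ c' ((⟨b, hb⟩ : A) : A ⧸ K) = ((⟨b, hb⟩ : A) : A ⧸ K) := by
    rw [key c' hc', MulAut.one_apply]
  have h2 : φ c' ((⟨b, hb⟩ : A) : A ⧸ K) =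
      ((MulAut.conjNormal (c' : G) (⟨b, hb⟩ : A) : A) : A ⧸ K) :=
    QuotientGroup.congr_mk K K _ (hmap c' c'.2) _
  rw [h2, eq_comm, QuotientGroup.eq, memK] at h1
  have h3 : ((c' : G) * b * (c' : G)⁻¹) • δ = b • δ := by
    have h4 : (((⟨b, hb⟩ : A)⁻¹ * MulAut.conjNormal (c' : G) (⟨b, hb⟩ : A) : A) : G) =
        b⁻¹ * ((c' : G) * b * (c' : G)⁻¹) := by
      push_cast [MulAut.conjNormal_apply]; rfl
    rw [h4, mul_smul, inv_smul_eq_iff] at h1
    exact h1
  have h5 : (c' : G) • b • δ = ((c' : G) * b * (c' : G)⁻¹) • ((c' : G) • δ) := by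
    simp [mul_smul]
  change (c' : G) • b • δ = a • b • δ
  rw [h5, hca, hA _ (hN.conj_mem b hb c') a ha, h3]

/-- `G` acts on the orbits of a normal subgroup. -/
@[reducible] def quotAction {G : Type} [Group G] {Ω : Type} [MulAction G Ω] (A : Subgroup G)
    [hN : A.Normal] : MulAction G (orbitRel.Quotient A Ω) where
  smul g := Quotient.map' (g • ·) (by
    intro x y h
    obtain ⟨a, ha⟩ := h
    refine ⟨⟨g * a * g⁻¹, hN.conj_mem a a.2 g⟩, ?_⟩
    change (g * (a : G) * g⁻¹) • (g • y) = g • x
    rw [mul_smul, inv_smul_smul, mul_smul]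
    exact congrArg (g • ·) ha)
  one_smul x := by
    induction x using Quotient.inductionOn' with
    | h x =>
    change Quotient.mk'' ((1 : G) • x) = _
    rw [one_smul]
  mul_smul g h x := by
    induction x using Quotient.inductionOn' with
    | h x =>
    change Quotient.mk'' ((g * h) • x) = Quotient.mk'' (g • h • x)
    rw [mul_smul]

lemma trans_case (f g : ℕ → ℕ) 
    (hfg : ∀ u t : ℕ, 2 ≤ u → 1 ≤ t → g t + 1 + f u ≤ g (t * u)) (n : ℕ)
    (hf : ∀ u, 1 ≤ u → u ≤ n → AutBound u (f u)) (t : ℕ) (htn : t ≤ n)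
    (IH : ∀ s < t, PermBound s (g s)) (G : Type) [Group G] [Finite G] [Group.IsSolvable G]
    (Ω : Type) [Finite Ω] [MulAction G Ω] [IsPretransitive G Ω] [Nonempty Ω]
    (hcard : Nat.card Ω = t) :
    ∀ x ∈ derivedSeries G (g t), ∀ ω : Ω, x • ω = ω := by
  classical
  have hex : ∃ k, ∀ x ∈ derivedSeries G k, ∀ ω : Ω, x • ω = ω := by
    obtain ⟨k, hk⟩ := Group.IsSolvable.solvable (G := G)
    refine ⟨k, fun x hx ω => ?_⟩
    rw [hk, Subgroup.mem_bot] at hx
    rw [hx, one_smul]
  rcases Nat.eq_zero_or_pos (Nat.find hex) with h0 | hpos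
  · intro x _ ω
    have := Nat.find_spec hex
    rw [h0] at this
    exact this x (by simp) ω
  obtain ⟨k0, hk0⟩ : ∃ k0, Nat.find hex = k0 + 1 := ⟨Nat.find hex - 1, by omega⟩
  have hP1 : ∀ x ∈ derivedSeries G (k0 + 1), ∀ ω : Ω, x • ω = ω := hk0 ▸ Nat.find_spec hex
  have hP0 : ¬ ∀ x ∈ derivedSeries G k0, ∀ ω : Ω, x • ω = ω :=
    Nat.find_min hex (by omega)
  set A : Subgroup G := derivedSeries G k0 with hAdef
  have hAn : A.Normal := derivedSeries_normal G k0
  have hA : ∀ a ∈ A, ∀ b ∈ A, ∀ ω : Ω, a • b • ω = b • a • ω := by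
    intro a ha b hb ω
    have h1 : ⁅a, b⁆ ∈ derivedSeries G (k0 + 1) := by
      rw [derivedSeries_succ]
      exact Subgroup.commutator_mem_commutator ha hb
    have h2 := hP1 _ h1 (b • a • ω)
    rw [commutatorElement_def] at h2
    simp only [mul_smul, inv_smul_smul] at h2
    exact h2
  push Not at hP0
  obtain ⟨a0, ha0, ω0, hω0⟩ := hP0
  set u := Nat.card (orbit A ω0) with hu
  have hu2 : 2 ≤ u := by
    have : Nontrivial (orbit A ω0) :=
      ⟨⟨⟨ω0, mem_orbit_self ω0⟩, ⟨a0 • ω0, ⟨⟨a0, ha0⟩, rfl⟩⟩, fun h => hω0 (by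
        have := congrArg Subtype.val h
        exact this.symm)⟩⟩
    exact Finite.one_lt_card
  have hconst : ∀ ω : Ω, Nat.card (orbit A ω) = u := by
    intro ω
    obtain ⟨x, rfl⟩ := exists_smul_eq G ω0 ω
    rw [← smul_orbit_eq_orbit_smul A ω0 x, hu]
    exact (Nat.card_congr (Equiv.Set.image _ (orbit A ω0) (MulAction.injective x))).symm
  letI := quotAction (Ω := Ω) A
  set t' := Nat.card (orbitRel.Quotient A Ω) with ht'
  have hcount : t = t' * u := by
    rw [← hcard, Nat.card_congr (selfEquivSigmaOrbits' A Ω), ht']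
    haveI : Fintype (orbitRel.Quotient A Ω) := Fintype.ofFinite _
    rw [Nat.card_sigma]
    have : ∀ x : orbitRel.Quotient A Ω, Nat.card x.orbit = u := by
      intro x
      induction x using Quotient.inductionOn' with
      | h x => exact hconst x
    rw [Finset.sum_congr rfl (fun x _ => this x), Finset.sum_const, smul_eq_mul,
      Finset.card_univ, Nat.card_eq_fintype_card]
  have ht'1 : 1 ≤ t' := by
    have : Nonempty (orbitRel.Quotient A Ω) := ⟨Quotient.mk'' ω0⟩
    exact Nat.one_le_iff_ne_zero.2 (Nat.card_pos).ne'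
  have ht't : t' < t := by nlinarith
  have hun : u ≤ n := by nlinarith
  have hblocks : ∀ c ∈ derivedSeries G (g t'), ∀ δ : Ω, ∃ a ∈ A, c • δ = a • δ := by
    intro c hc δ
    have h1 := IH t' ht't G (orbitRel.Quotient A Ω) le_rfl c hc (Quotient.mk'' δ)
    have h2 : (Quotient.mk'' (c • δ) : orbitRel.Quotient A Ω) = Quotient.mk'' δ := h1
    rw [Quotient.eq''] at h2
    obtain ⟨a, ha⟩ := h2
    exact ⟨a, a.2, ha.symm⟩
  have hact : ∀ δ : Ω, ∀ c ∈ derivedSeries G (g t' + f u), ∃ a ∈ A, ∀ b ∈ A,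
      c • b • δ = a • b • δ := by
    intro δ
    refine block_lemma A hA (g t') (f u) δ (fun c hc => hblocks c hc δ) ?_
    rw [hconst δ]
    exact hf u (by omega) hun
  have hcomm : derivedSeries G (g t' + f u + 1) ≤ (toPermHom G Ω).ker := by
    rw [derivedSeries_succ, Subgroup.commutator_le]
    intro c hc d hd
    rw [MonoidHom.mem_ker]
    ext ω
    change ⁅c, d⁆ • ω = ω
    have hcd : ∀ δ : Ω, c • d • δ = d • c • δ := by
      intro δ
      obtain ⟨a, ha, hca⟩ := hact δ c hc
      obtain ⟨b, hb, hdb⟩ := hact δ d hd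
      have e1 : d • δ = b • δ := by simpa using hdb 1 A.one_mem
      have e2 : c • δ = a • δ := by simpa using hca 1 A.one_mem
      rw [e1, e2, hca b hb, hdb a ha, hA a ha b hb]
    rw [commutatorElement_def, mul_smul, mul_smul, mul_smul, hcd, smul_inv_smul, smul_inv_smul]
  intro x hx ω
  have hle : g t' + f u + 1 ≤ g t := by
    have := hfg u t' hu2 ht'1
    rw [← hcount] at this
    omega
  have h1 := hcomm (derivedSeries_antitone G hle hx)
  rw [MonoidHom.mem_ker] at h1
  have h2 := congrArg (fun p : Equiv.Perm Ω => p ω) h1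
  exact h2

theorem permBound_of_autBound (f g : ℕ → ℕ) (hg : Monotone g)
    (hfg : ∀ u t : ℕ, 2 ≤ u → 1 ≤ t → g t + 1 + f u ≤ g (t * u)) (n : ℕ)
    (hf : ∀ u, 1 ≤ u → u ≤ n → AutBound u (f u)) : ∀ t ≤ n, PermBound t (g t) := by
  intro t
  induction t using Nat.strong_induction_on with
  | _ t IH =>
  intro htn G _ _ _ Ω _ _ hcard x hx ω
  have hs : Nat.card (orbit G ω) ≤ t :=
    (Nat.card_le_card_of_injective _ Subtype.val_injective).trans hcard
  haveI : Nonempty (orbit G ω) := ⟨⟨ω, mem_orbit_self ω⟩⟩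
  have key : ∀ y : orbit G ω, x • y = y :=
    trans_case f g hfg n hf (Nat.card (orbit G ω)) (hs.trans htn)
      (fun s hs' => IH s (hs'.trans_le hs) (hs'.le.trans (hs.trans htn))) G (orbit G ω) rfl x
      (derivedSeries_antitone G (hg hs) hx)
  have := congrArg Subtype.val (key ⟨ω, mem_orbit_self ω⟩)
  exact this

end Pool.Agent.Helper52.Zas
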