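import Mathlib

/-!
Products of real powers of the polynomials `1 - x^k`: reduction of real exponents to integer
exponents.
-/

namespace Pool.Agent.Helper52

open Polynomial

/-- logarithmic residue -/
theorem log_residue {P : ℂ[X]} (ζ : ℂ) :
    (X - C ζ) ^ (P.rootMultiplicity ζ + 1) ∣
      (X - C ζ) * derivative P - C (P.rootMultiplicity ζ : ℂ) * P := by
  obtain ⟨P₁, hP₁⟩ := P.pow_rootMultiplicity_dvd ζ
  set α := P.rootMultiplicity ζ with hα
  rcases Nat.eq_zero_or_pos α with h0 | hpos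
  · rw [h0]
    simp
  · refine ⟨derivative P₁, ?_⟩
    have h1 : derivative P = C (α : ℂ) * (X - C ζ) ^ (α - 1) * P₁
        + (X - C ζ) ^ α * derivative P₁ := by
      conv_lhs => rw [hP₁]
      rw [derivative_mul, derivative_X_sub_C_pow]
    have h2 : (X - C ζ) * (X - C ζ) ^ (α - 1) = (X - C ζ) ^ α := by
      rw [← pow_succ', Nat.sub_add_cancel hpos]
    rw [h1]
    have h3 : C (α : ℂ) * P = C (α : ℂ) * ((X - C ζ) ^ α * P₁) := by rw [← hP₁]
    rw [h3, mul_add]
    rw [show (X - C ζ) * (C (α : ℂ) * (X - C ζ) ^ (α - 1) * P₁)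
      = C (α : ℂ) * ((X - C ζ) * (X - C ζ) ^ (α - 1)) * P₁ by ring, h2]
    ring

/-- the derivation-like combination -/
noncomputable def Dc (s : Finset ℕ) (W : ℕ → ℂ[X]) (d : ℕ → ℂ) : ℂ[X] :=
  ∑ k ∈ s, C (d k) * derivative (W k) * ∏ j ∈ s.erase k, W j

theorem rootMultiplicity_prod (s : Finset ℕ) (W : ℕ → ℂ[X]) (hW : ∀ k ∈ s, W k ≠ 0) (ζ : ℂ) :
    (∏ k ∈ s, W k).rootMultiplicity ζ = ∑ k ∈ s, (W k).rootMultiplicity ζ := by
  classical
  induction s using Finset.induction_on with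
  | empty => simp [rootMultiplicity_eq_zero]
  | insert a s ha ih =>
    rw [Finset.prod_insert ha, Finset.sum_insert ha, rootMultiplicity_mul, ih fun k hk => hW k (by simp [hk])]
    apply mul_ne_zero (hW a (by simp))
    exact Finset.prod_ne_zero_iff.mpr fun k hk => hW k (by simp [hk])

theorem Dc_residue (s : Finset ℕ) (W : ℕ → ℂ[X]) (hW : ∀ k ∈ s, W k ≠ 0) (d : ℕ → ℂ) (ζ : ℂ) :
    (X - C ζ) ^ ((∏ k ∈ s, W k).rootMultiplicity ζ + 1) ∣
      (X - C ζ) * Dc s W d - C (∑ k ∈ s, d k * (W k).rootMultiplicity ζ) * ∏ k ∈ s, W k := by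
  classical
  rw [Dc, Finset.mul_sum, map_sum, Finset.sum_mul, ← Finset.sum_sub_distrib]
  apply Finset.dvd_sum
  intro k hk
  have h1 : ∏ j ∈ s, W j = W k * ∏ j ∈ s.erase k, W j := (Finset.mul_prod_erase s W hk).symm
  have hW' : ∏ j ∈ s.erase k, W j ≠ 0 :=
    Finset.prod_ne_zero_iff.mpr fun j hj => hW j (Finset.mem_of_mem_erase hj)
  obtain ⟨g, hg⟩ := log_residue (P := W k) ζ
  obtain ⟨g', hg'⟩ := (∏ j ∈ s.erase k, W j).pow_rootMultiplicity_dvd ζ
  rw [h1, rootMultiplicity_mul (mul_ne_zero (hW k hk) hW')]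
  refine ⟨C (d k) * g * g', ?_⟩
  calc (X - C ζ) * (C (d k) * derivative (W k) * ∏ j ∈ s.erase k, W j)
        - C (d k * (W k).rootMultiplicity ζ) * (W k * ∏ j ∈ s.erase k, W j)
      = C (d k) * ((X - C ζ) * derivative (W k) - C ((W k).rootMultiplicity ζ : ℂ) * W k)
        * ∏ j ∈ s.erase k, W j := by
        rw [C_mul]; ring
    _ = C (d k) * ((X - C ζ) ^ ((W k).rootMultiplicity ζ + 1) * g)
        * ((X - C ζ) ^ ((∏ j ∈ s.erase k, W j).rootMultiplicity ζ) * g') := by
        rw [hg, ← hg']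
    _ = _ := by ring

/-- the local exponents are integers -/
theorem residue_int (s : Finset ℕ) (W : ℕ → ℂ[X]) (hW : ∀ k ∈ s, W k ≠ 0) (d : ℕ → ℂ)
    {A B : ℂ[X]} (hA : A ≠ 0) (hB : B ≠ 0)
    (h : (∏ k ∈ s, W k) * (derivative A * B - A * derivative B) = Dc s W d * A * B) (ζ : ℂ) :
    ∑ k ∈ s, d k * (W k).rootMultiplicity ζ
      = (A.rootMultiplicity ζ : ℂ) - (B.rootMultiplicity ζ : ℂ) := by
  set V := ∏ k ∈ s, W k with hV
  have hV0 : V ≠ 0 := Finset.prod_ne_zero_iff.mpr hW
  set v := V.rootMultiplicity ζ with hv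
  set α := A.rootMultiplicity ζ with hα
  set β := B.rootMultiplicity ζ with hβ
  set m := ∑ k ∈ s, d k * (W k).rootMultiplicity ζ with hm
  obtain ⟨g1, hg1⟩ := log_residue (P := A) ζ
  obtain ⟨g2, hg2⟩ := log_residue (P := B) ζ
  obtain ⟨g3, hg3⟩ := Dc_residue s W hW d ζ
  obtain ⟨a, ha⟩ := A.pow_rootMultiplicity_dvd ζ
  obtain ⟨b, hb⟩ := B.pow_rootMultiplicity_dvd ζ
  obtain ⟨w, hw⟩ := V.pow_rootMultiplicity_dvd ζ
  rw [← hα] at hg1 ha
  rw [← hβ] at hg2 hb
  rw [← hV, ← hv, ← hm] at hg3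
  rw [← hv] at hw
  have key : C ((α : ℂ) - β - m) * (V * A * B) = (X - C ζ) ^ (v + α + β + 1)
      * (g3 * a * b - w * g1 * b + w * a * g2) := by
    have e1 : C ((α : ℂ) - β - m) * (V * A * B)
        = ((X - C ζ) * Dc s W d - C m * V) * A * B
          - V * ((X - C ζ) * derivative A - C (α : ℂ) * A) * B
          + V * A * ((X - C ζ) * derivative B - C (β : ℂ) * B) := by
      rw [C_sub, C_sub]
      linear_combination (X - C ζ) * h
    rw [e1, hg3, hg1, hg2]
    have e2 : ((X - C ζ) ^ (v + 1) * g3) * A * B - V * ((X - C ζ) ^ (α + 1) * g1) * B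
          + V * A * ((X - C ζ) ^ (β + 1) * g2)
        = ((X - C ζ) ^ (v + 1) * g3) * ((X - C ζ) ^ α * a) * ((X - C ζ) ^ β * b)
          - ((X - C ζ) ^ v * w) * ((X - C ζ) ^ (α + 1) * g1) * ((X - C ζ) ^ β * b)
          + ((X - C ζ) ^ v * w) * ((X - C ζ) ^ α * a) * ((X - C ζ) ^ (β + 1) * g2) := by
      rw [← ha, ← hb, ← hw]
    rw [e2]
    ring
  by_contra hne
  have hc : (α : ℂ) - β - m ≠ 0 := by
    intro h0
    apply hne
    linear_combination -h0
  have hne2 : C ((α : ℂ) - β - m) * (V * A * B) ≠ 0 :=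
    mul_ne_zero (C_ne_zero.mpr hc) (mul_ne_zero (mul_ne_zero hV0 hA) hB)
  have h1 : v + α + β + 1 ≤ (C ((α : ℂ) - β - m) * (V * A * B)).rootMultiplicity ζ :=
    (le_rootMultiplicity_iff hne2).mpr ⟨_, key⟩
  rw [rootMultiplicity_mul hne2, rootMultiplicity_mul (mul_ne_zero (mul_ne_zero hV0 hA) hB),
    rootMultiplicity_mul (mul_ne_zero hV0 hA), rootMultiplicity_C] at h1
  omega

/-- the polynomial `1 - X^(k+1)` -/
noncomputable def Wk (K : Type*) [CommRing K] (k : ℕ) : K[X] := 1 - X ^ (k + 1)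

theorem Wk_ne_zero (k : ℕ) : Wk ℂ k ≠ 0 := by
  intro h
  have := congrArg (fun P => P.coeff 0) h
  simp [Wk] at this

theorem Wk_rootMultiplicity (k : ℕ) (ζ : ℂ) :
    (Wk ℂ k).rootMultiplicity ζ = if ζ ^ (k + 1) = 1 then 1 else 0 := by
  split_ifs with h
  · have hroot : (Wk ℂ k).IsRoot ζ := by
      rw [IsRoot, Wk, eval_sub, eval_one, eval_pow, eval_X, h, sub_self]
    have h1 : 0 < (Wk ℂ k).rootMultiplicity ζ := (rootMultiplicity_pos (Wk_ne_zero k)).mpr hroot
    have h2 : (Wk ℂ k).rootMultiplicity ζ ≤ 1 := by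
      by_contra hcon
      push Not at hcon
      have h3 := (Polynomial.one_lt_rootMultiplicity_iff_isRoot (Wk_ne_zero k)).mp hcon
      have h4 := h3.1
      have h5 := h3.2
      rw [IsRoot, Wk] at h5 h4
      simp only [derivative_sub, derivative_one, derivative_X_pow, zero_sub, eval_neg, eval_mul,
        eval_pow, eval_X, neg_eq_zero, mul_eq_zero, eval_C] at h5
      have hζ : ζ ≠ 0 := by
        rintro rfl
        simp at h
      rcases h5 with h6 | h6
      · exact (by exact_mod_cast Nat.succ_ne_zero k : ((k + 1 : ℕ) : ℂ) ≠ 0) h6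
      · exact pow_ne_zero _ hζ h6
    omega
  · rw [rootMultiplicity_eq_zero_iff]
    intro hroot
    exfalso
    apply h
    rw [IsRoot, Wk, eval_sub, eval_one, eval_pow, eval_X, sub_eq_zero] at hroot
    exact hroot.symm

/-- the exponents are integers -/
theorem exponents_int (s : Finset ℕ) (d : ℕ → ℝ) {A B : ℂ[X]} (hA : A ≠ 0) (hB : B ≠ 0)
    (h : (∏ k ∈ s, Wk ℂ k) * (derivative A * B - A * derivative B)
      = Dc s (Wk ℂ) (fun k => (d k : ℂ)) * A * B) : ∀ k ∈ s, ∃ m : ℤ, d k = m := by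
  classical
  by_contra hcon
  push Not at hcon
  set t := s.filter (fun k => ∀ m : ℤ, d k ≠ m) with ht
  have htne : t.Nonempty := by
    obtain ⟨k, hk, hk'⟩ := hcon
    exact ⟨k, Finset.mem_filter.mpr ⟨hk, hk'⟩⟩
  set K := t.max' htne with hK
  have hKt : K ∈ t := t.max'_mem htne
  have hKs : K ∈ s := (Finset.mem_filter.mp hKt).1
  have hKd : ∀ m : ℤ, d K ≠ m := (Finset.mem_filter.mp hKt).2
  have hζ := Complex.isPrimitiveRoot_exp (K + 1) (Nat.succ_ne_zero K)
  set ζ := Complex.exp (2 * Real.pi * Complex.I / ((K + 1 : ℕ) : ℂ)) with hζdef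
  have hres := residue_int s (Wk ℂ) (fun k _ => Wk_ne_zero k) (fun k => (d k : ℂ)) hA hB h ζ
  simp only [Wk_rootMultiplicity, hζ.pow_eq_one_iff_dvd] at hres
  -- integrality of the other terms
  have hint : ∀ k ∈ s.erase K, ∃ m : ℤ, (d k : ℂ) * ((if (K + 1) ∣ (k + 1) then 1 else 0 : ℕ) : ℂ)
      = m := by
    intro k hk
    have hkK : k ≠ K := Finset.ne_of_mem_erase hk
    have hks : k ∈ s := Finset.mem_of_mem_erase hk
    by_cases hdvd : (K + 1) ∣ (k + 1)
    · have hle := Nat.le_of_dvd (Nat.succ_pos k) hdvd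
      have hlt : K < k := by omega
      have hkt : k ∉ t := by
        intro hkt
        have := t.le_max' k hkt
        omega
      rw [ht, Finset.mem_filter] at hkt
      push Not at hkt
      obtain ⟨m, hm⟩ := hkt hks
      exact ⟨m, by rw [if_pos hdvd, hm]; push_cast; ring⟩
    · exact ⟨0, by rw [if_neg hdvd]; simp⟩
  choose! f hf using hint
  rw [← Finset.add_sum_erase s _ hKs, Finset.sum_congr rfl hf, if_pos (dvd_refl (K + 1))] at hres
  apply hKd ((A.rootMultiplicity ζ : ℤ) - (B.rootMultiplicity ζ : ℤ) - ∑ k ∈ s.erase K, f k)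
  have h2 : ((d K : ℝ) : ℂ) = (((A.rootMultiplicity ζ : ℤ) - (B.rootMultiplicity ζ : ℤ)
      - ∑ k ∈ s.erase K, f k : ℤ) : ℂ) := by
    push_cast at hres ⊢
    linear_combination hres
  exact_mod_cast h2

/-- the product `∏ (1 - x^(k+1))^(e k)`, written with exponentials -/
noncomputable def Ef (s : Finset ℕ) (e : ℕ → ℝ) (x : ℝ) : ℝ :=
  Real.exp (∑ k ∈ s, e k * Real.log ((Wk ℝ k).eval x))

/-- the product of the polynomials -/
noncomputable def Vr (s : Finset ℕ) : ℝ[X] := ∏ k ∈ s, Wk ℝ k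

/-- the numerator of the logarithmic derivative -/
noncomputable def Dr (s : Finset ℕ) (e : ℕ → ℝ) : ℝ[X] :=
  ∑ k ∈ s, C (e k) * derivative (Wk ℝ k) * ∏ j ∈ s.erase k, Wk ℝ j

theorem Wk_eval_pos (k : ℕ) {x : ℝ} (hx : x ∈ Set.Ioo (0 : ℝ) 1) : 0 < (Wk ℝ k).eval x := by
  rw [Wk, eval_sub, eval_one, eval_pow, eval_X, sub_pos]
  exact pow_lt_one₀ hx.1.le hx.2 (Nat.succ_ne_zero k)

theorem Vr_eval_pos (s : Finset ℕ) {x : ℝ} (hx : x ∈ Set.Ioo (0 : ℝ) 1) : 0 < (Vr s).eval x := by
  rw [Vr, eval_prod]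
  exact Finset.prod_pos fun k _ => Wk_eval_pos k hx

theorem Vr_ne_zero (s : Finset ℕ) : Vr s ≠ 0 := by
  intro h
  have := Vr_eval_pos s (x := 1 / 2) ⟨by norm_num, by norm_num⟩
  rw [h, eval_zero] at this
  exact lt_irrefl _ this

theorem Ef_pos (s : Finset ℕ) (e : ℕ → ℝ) (x : ℝ) : 0 < Ef s e x := Real.exp_pos _

theorem Dr_div (s : Finset ℕ) (e : ℕ → ℝ) {x : ℝ} (hx : x ∈ Set.Ioo (0 : ℝ) 1) :
    (Dr s e).eval x / (Vr s).eval x
      = ∑ k ∈ s, e k * ((derivative (Wk ℝ k)).eval x / (Wk ℝ k).eval x) := by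
  classical
  rw [Dr, eval_finsetSum, Finset.sum_div]
  refine Finset.sum_congr rfl fun k hk => ?_
  rw [Vr, ← Finset.mul_prod_erase s _ hk, eval_mul, eval_mul, eval_mul, eval_C]
  have h1 := (Wk_eval_pos k hx).ne'
  have h2 : (∏ j ∈ s.erase k, Wk ℝ j).eval x ≠ 0 := by
    rw [eval_prod]
    exact (Finset.prod_pos fun j _ => Wk_eval_pos j hx).ne'
  field_simp

theorem Ef_hasDerivAt (s : Finset ℕ) (e : ℕ → ℝ) {x : ℝ} (hx : x ∈ Set.Ioo (0 : ℝ) 1) :
    HasDerivAt (Ef s e) (Ef s e x * ((Dr s e).eval x / (Vr s).eval x)) x := by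
  rw [Dr_div s e hx]
  have h1 : HasDerivAt (fun x => ∑ k ∈ s, e k * Real.log ((Wk ℝ k).eval x))
      (∑ k ∈ s, e k * ((derivative (Wk ℝ k)).eval x / (Wk ℝ k).eval x)) x := by
    apply HasDerivAt.fun_sum
    intro k _
    exact (((Wk ℝ k).hasDerivAt x).log (Wk_eval_pos k hx).ne').const_mul (e k)
  exact h1.exp

/-- differentiating a relation -/
theorem relation_deriv {n : ℕ} (s : Finset ℕ) (e : Fin n → ℕ → ℝ) (A : Fin n → ℝ[X])
    (h : ∀ x ∈ Set.Ioo (0 : ℝ) 1, ∑ j, (A j).eval x * Ef s (e j) x = 0) :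
    ∀ x ∈ Set.Ioo (0 : ℝ) 1,
      ∑ j, (Vr s * derivative (A j) + A j * Dr s (e j)).eval x * Ef s (e j) x = 0 := by
  intro x hx
  have hV := (Vr_eval_pos s hx).ne'
  have h1 : HasDerivAt (fun x => ∑ j, (A j).eval x * Ef s (e j) x)
      (∑ j, ((derivative (A j)).eval x * Ef s (e j) x
        + (A j).eval x * (Ef s (e j) x * ((Dr s (e j)).eval x / (Vr s).eval x)))) x := by
    apply HasDerivAt.fun_sum
    intro j _
    exact ((A j).hasDerivAt x).mul (Ef_hasDerivAt s (e j) hx)
  have h2 : (fun x => ∑ j, (A j).eval x * Ef s (e j) x) =ᶠ[nhds x] fun _ => 0 := by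
    filter_upwards [isOpen_Ioo.mem_nhds hx] with y hy
    exact h y hy
  have h3 := (h1.congr_of_eventuallyEq h2.symm).unique (hasDerivAt_const x (0 : ℝ))
  have h4 : (∑ j, (Vr s * derivative (A j) + A j * Dr s (e j)).eval x * Ef s (e j) x)
      = (Vr s).eval x * ∑ j, ((derivative (A j)).eval x * Ef s (e j) x
        + (A j).eval x * (Ef s (e j) x * ((Dr s (e j)).eval x / (Vr s).eval x))) := by
    rw [Finset.mul_sum]
    refine Finset.sum_congr rfl fun j _ => ?_
    rw [eval_add, eval_mul, eval_mul]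
    field_simp
  rw [h4, h3, mul_zero]

theorem poly_zero_of_Ioo {P : ℝ[X]} (h : ∀ x ∈ Set.Ioo (0 : ℝ) 1, P.eval x = 0) : P = 0 := by
  apply Polynomial.eq_zero_of_infinite_isRoot
  exact (Set.Ioo_infinite (show (0 : ℝ) < 1 by norm_num)).mono h

theorem Dr_sub (s : Finset ℕ) (e e' : ℕ → ℝ) :
    Dr s e - Dr s e' = Dr s (fun k => e k - e' k) := by
  rw [Dr, Dr, Dr, ← Finset.sum_sub_distrib]
  refine Finset.sum_congr rfl fun k _ => ?_
  rw [C_sub]; ring

theorem Wk_map (k : ℕ) : (Wk ℝ k).map (algebraMap ℝ ℂ) = Wk ℂ k := by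
  simp [Wk]

theorem Vr_map (s : Finset ℕ) : (Vr s).map (algebraMap ℝ ℂ) = ∏ k ∈ s, Wk ℂ k := by
  rw [Vr, Polynomial.map_prod]
  exact Finset.prod_congr rfl fun k _ => Wk_map k

theorem Dr_map (s : Finset ℕ) (e : ℕ → ℝ) :
    (Dr s e).map (algebraMap ℝ ℂ) = Dc s (Wk ℂ) (fun k => (e k : ℂ)) := by
  rw [Dr, Dc, Polynomial.map_sum]
  refine Finset.sum_congr rfl fun k _ => ?_
  rw [Polynomial.map_mul, Polynomial.map_mul, map_C, ← derivative_map, Wk_map, Polynomial.map_prod]
  congr 1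
  exact Finset.prod_congr rfl fun k _ => Wk_map k

/-- linear independence over polynomials of products with inequivalent exponents -/
theorem independence (s : Finset ℕ) : ∀ (n : ℕ) (e : Fin n → ℕ → ℝ) (A : Fin n → ℝ[X]),
    (∀ i j, i ≠ j → ∃ k ∈ s, ∀ m : ℤ, e i k - e j k ≠ m) →
    (∀ x ∈ Set.Ioo (0 : ℝ) 1, ∑ j, (A j).eval x * Ef s (e j) x = 0) → ∀ j, A j = 0 := by
  intro n
  induction n with
  | zero => intro e A _ _ j; exact j.elim0
  | succ n ih =>
    intro e A hne h
    have hrest : A 0 = 0 → ∀ j, A j = 0 := by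
      intro h0
      have h1 := ih (fun j => e j.succ) (fun j => A j.succ)
        (fun i j hij => hne i.succ j.succ (fun hh => hij (Fin.succ_injective n hh)))
        (fun x hx => by
          have := h x hx
          rw [Fin.sum_univ_succ, h0, eval_zero, zero_mul, zero_add] at this
          exact this)
      intro j
      refine Fin.cases h0 h1 j
    by_cases h0 : A 0 = 0
    · exact hrest h0
    · exfalso
      have h1 := relation_deriv s e A h
      set B : Fin n → ℝ[X] := fun j => A 0 * (Vr s * derivative (A j.succ) + A j.succ * Dr s (e j.succ))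
        - A j.succ * (Vr s * derivative (A 0) + A 0 * Dr s (e 0)) with hB
      have h2 := ih (fun j => e j.succ) B
        (fun i j hij => hne i.succ j.succ (fun hh => hij (Fin.succ_injective n hh)))
        (fun x hx => by
          have e1 := h x hx
          have e2 := h1 x hx
          rw [Fin.sum_univ_succ] at e1 e2
          have e3 : ∑ j : Fin n, (B j).eval x * Ef s (e j.succ) x
              = (A 0).eval x * ∑ j : Fin n, (Vr s * derivative (A j.succ)
                  + A j.succ * Dr s (e j.succ)).eval x * Ef s (e j.succ) x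
                - (Vr s * derivative (A 0) + A 0 * Dr s (e 0)).eval x
                  * ∑ j : Fin n, (A j.succ).eval x * Ef s (e j.succ) x := by
            rw [Finset.mul_sum, Finset.mul_sum, ← Finset.sum_sub_distrib]
            refine Finset.sum_congr rfl fun j _ => ?_
            rw [hB]
            simp only [eval_sub, eval_mul]
            ring
          rw [e3]
          linear_combination (A 0).eval x * e2
            - (Vr s * derivative (A 0) + A 0 * Dr s (e 0)).eval x * e1)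
      have h3 : ∀ j : Fin n, A j.succ = 0 := by
        intro j
        by_contra hj
        have h4 := h2 j
        rw [hB] at h4
        simp only at h4
        have h5 : Vr s * (derivative (A j.succ) * A 0 - A j.succ * derivative (A 0))
            = Dr s (fun k => e 0 k - e j.succ k) * A j.succ * A 0 := by
          rw [← Dr_sub]
          linear_combination h4
        have h6 := congrArg (Polynomial.map (algebraMap ℝ ℂ)) h5
        rw [Polynomial.map_mul, Vr_map, Polynomial.map_sub, Polynomial.map_mul, Polynomial.map_mul,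
          Polynomial.map_mul, Polynomial.map_mul, Dr_map, ← derivative_map, ← derivative_map] at h6
        have hinj : Function.Injective (algebraMap ℝ ℂ) := (algebraMap ℝ ℂ).injective
        have h7 := exponents_int s (fun k => e 0 k - e j.succ k)
          ((Polynomial.map_ne_zero_iff hinj).mpr hj) ((Polynomial.map_ne_zero_iff hinj).mpr h0) h6
        obtain ⟨k, hk, hk'⟩ := hne 0 j.succ (Fin.succ_ne_zero j).symm
        obtain ⟨m, hm⟩ := h7 k hk
        exact hk' m hm
      apply h0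
      apply poly_zero_of_Ioo
      intro x hx
      have := h x hx
      rw [Fin.sum_univ_succ, Finset.sum_eq_zero, add_zero] at this
      · exact (mul_eq_zero.mp this).resolve_right (Ef_pos s _ x).ne'
      · intro j _
        rw [h3 j, eval_zero, zero_mul]

/-- all exponents in `s` are integers -/
def IntOn (s : Finset ℕ) (e : ℕ → ℝ) : Prop := ∀ k ∈ s, ∃ m : ℤ, e k = m

theorem Ef_pow (s : Finset ℕ) (L : ℕ → ℕ) {x : ℝ} (hx : x ∈ Set.Ioo (0 : ℝ) 1) :
    (∏ k ∈ s, Wk ℝ k ^ L k).eval x = Real.exp (∑ k ∈ s, (L k : ℝ) * Real.log ((Wk ℝ k).eval x)) := by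
  rw [Real.exp_sum, eval_prod]
  refine Finset.prod_congr rfl fun k _ => ?_
  rw [eval_pow, ← Real.log_pow, Real.exp_log (pow_pos (Wk_eval_pos k hx) _)]

open Classical in
theorem merge_sum {ι : Type*} (u : Finset ι) (F F₁ : ι → ℝ) (v : ℝ) {i j : ι} (hij : i ≠ j)
    (hu : i ∈ u ↔ j ∈ u) (h1 : ∀ l, l ≠ i → l ≠ j → F₁ l = v * F l)
    (h2 : F₁ j = v * F i + v * F j) : v * ∑ l ∈ u, F l = ∑ l ∈ u.erase i, F₁ l := by
  by_cases hi : i ∈ u
  · have hj : j ∈ u.erase i := Finset.mem_erase.mpr ⟨hij.symm, hu.mp hi⟩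
    rw [← Finset.add_sum_erase u F hi, ← Finset.add_sum_erase (u.erase i) F hj,
      ← Finset.add_sum_erase (u.erase i) F₁ hj, h2, Finset.sum_congr rfl (g := fun l => v * F l)
      (s₂ := (u.erase i).erase j) (f := F₁), ← Finset.mul_sum]
    · ring
    · intro l hl
      simp only [Finset.mem_erase] at hl
      exact h1 l hl.2.1 hl.1
  · have hj : j ∉ u := fun h => hi (hu.mpr h)
    rw [Finset.erase_eq_of_notMem hi, Finset.mul_sum]
    refine Finset.sum_congr rfl fun l hl => ?_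
    rw [h1 l (fun h => hi (h ▸ hl)) (fun h => hj (h ▸ hl))]

open Classical in
/-- the terms with integer exponents split off from any relation -/
theorem filter_integral {ι : Type*} (s : Finset ℕ) : ∀ (n : ℕ) (t : Finset ι), t.card = n →
    ∀ (e : ι → ℕ → ℝ) (A : ι → ℝ[X]),
    (∀ x ∈ Set.Ioo (0 : ℝ) 1, ∑ i ∈ t, (A i).eval x * Ef s (e i) x = 0) →
    ∀ x ∈ Set.Ioo (0 : ℝ) 1,
      ∑ i ∈ t.filter (fun i => IntOn s (e i)), (A i).eval x * Ef s (e i) x = 0 := by
  intro n
  induction n with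
  | zero =>
    intro t ht e A _ x _
    rw [Finset.card_eq_zero] at ht
    subst ht
    simp
  | succ n ih =>
    intro t ht e A h
    by_cases hd : ∀ i ∈ t, ∀ j ∈ t, i ≠ j → ∃ k ∈ s, ∀ m : ℤ, e i k - e j k ≠ m
    · -- pairwise inequivalent
      have hA : ∀ i ∈ t, A i = 0 := by
        have φ := t.equivFin
        have h1 := independence s t.card (fun j => e (φ.symm j)) (fun j => A (φ.symm j))
          (fun i j hij => hd _ (φ.symm i).2 _ (φ.symm j).2
            (fun hh => hij (φ.symm.injective (Subtype.ext hh))))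
          (fun x hx => by
            rw [← h x hx, ← Finset.sum_coe_sort t]
            exact Equiv.sum_comp φ.symm (fun i : t => (A i).eval x * Ef s (e i) x))
        intro i hi
        have h2 := h1 (φ ⟨i, hi⟩)
        simpa using h2
      intro x _
      refine Finset.sum_eq_zero fun i hi => ?_
      rw [hA i (Finset.mem_of_mem_filter i hi), eval_zero, zero_mul]
    · push Not at hd
      obtain ⟨i, hi, j, hj, hij, hm⟩ := hd
      choose! m hm using hm
      set L : ℕ := ∑ k ∈ s, (m k).natAbs with hL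
      have hLk : ∀ k ∈ s, 0 ≤ m k + L := by
        intro k hk
        have h1 : (m k).natAbs ≤ L :=
          Finset.single_le_sum (f := fun k => (m k).natAbs) (fun _ _ => Nat.zero_le _) hk
        omega
      set P : ℝ[X] := ∏ k ∈ s, Wk ℝ k ^ (m k + L).toNat with hP
      have hrel : ∀ x ∈ Set.Ioo (0 : ℝ) 1,
          (Vr s ^ L).eval x * Ef s (e i) x = P.eval x * Ef s (e j) x := by
        intro x hx
        have h1 : Vr s ^ L = ∏ k ∈ s, Wk ℝ k ^ L := by rw [Vr, Finset.prod_pow]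
        rw [h1, Ef_pow s (fun _ => L) hx, hP, Ef_pow s (fun k => (m k + L).toNat) hx, Ef, Ef,
          ← Real.exp_add, ← Real.exp_add, ← Finset.sum_add_distrib, ← Finset.sum_add_distrib]
        congr 1
        refine Finset.sum_congr rfl fun k hk => ?_
        have h2 : (((m k + L).toNat : ℕ) : ℝ) = m k + L := by
          have h3 := Int.toNat_of_nonneg (hLk k hk)
          have h4 : ((((m k + L).toNat : ℕ) : ℤ) : ℝ) = ((m k + L : ℤ) : ℝ) := by rw [h3]
          push_cast at h4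
          exact h4
        rw [h2]
        linear_combination (Real.log ((Wk ℝ k).eval x)) * hm k hk
      set A₁ : ι → ℝ[X] := fun l => if l = j then A i * P + A j * Vr s ^ L else A l * Vr s ^ L
        with hA₁
      have hmerge : ∀ (u : Finset ι), (i ∈ u ↔ j ∈ u) → ∀ x ∈ Set.Ioo (0 : ℝ) 1,
          (Vr s ^ L).eval x * ∑ l ∈ u, (A l).eval x * Ef s (e l) x
            = ∑ l ∈ u.erase i, (A₁ l).eval x * Ef s (e l) x := by
        intro u hu x hx
        refine merge_sum u (fun l => (A l).eval x * Ef s (e l) x)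
          (fun l => (A₁ l).eval x * Ef s (e l) x) ((Vr s ^ L).eval x) hij hu ?_ ?_
        · intro l _ hl
          simp only [hA₁, if_neg hl, eval_mul]
          ring
        · simp only [hA₁, if_true, eval_mul, eval_add]
          linear_combination -(A i).eval x * hrel x hx
      have hcard : (t.erase i).card = n := by
        rw [Finset.card_erase_of_mem hi, ht]; rfl
      have h1 := ih (t.erase i) hcard e A₁ (fun x hx => by
        rw [← hmerge t ⟨fun _ => hj, fun _ => hi⟩ x hx, h x hx, mul_zero])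
      intro x hx
      have hiff : IntOn s (e i) ↔ IntOn s (e j) := by
        constructor
        · intro hI k hk
          obtain ⟨a, ha⟩ := hI k hk
          exact ⟨a - m k, by push_cast; rw [← hm k hk, ← ha]; ring⟩
        · intro hI k hk
          obtain ⟨a, ha⟩ := hI k hk
          exact ⟨a + m k, by push_cast; rw [← hm k hk, ← ha]; ring⟩
      have h2 := hmerge (t.filter (fun i => IntOn s (e i))) (by
        simp only [Finset.mem_filter, hi, hj, true_and]
        exact hiff) x hx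
      have h3 : (t.filter (fun i => IntOn s (e i))).erase i
          = (t.erase i).filter (fun i => IntOn s (e i)) := by
        ext l; simp only [Finset.mem_erase, Finset.mem_filter]; tauto
      rw [h3, h1 x hx] at h2
      have hV : (Vr s ^ L).eval x ≠ 0 := by
        rw [eval_pow]; exact pow_ne_zero _ (Vr_eval_pos s hx).ne'
      exact (mul_eq_zero.mp h2).resolve_left hV

theorem Ef_int (s : Finset ℕ) (e : ℕ → ℝ) (m : ℕ → ℤ) (h : ∀ k ∈ s, e k = m k) {x : ℝ}
    (hx : x ∈ Set.Ioo (0 : ℝ) 1) : Ef s e x = ∏ k ∈ s, (1 - x ^ (k + 1)) ^ m k := by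
  rw [Ef, Real.exp_sum]
  refine Finset.prod_congr rfl fun k hk => ?_
  have h1 : (Wk ℝ k).eval x = 1 - x ^ (k + 1) := by simp [Wk]
  have h2 := Wk_eval_pos k hx
  rw [h1] at h2 ⊢
  rw [h k hk, mul_comm, ← Real.rpow_def_of_pos h2, Real.rpow_intCast]

open Classical in
/-- reduction to integer exponents -/
theorem reduce_real {M : ℕ} (s : Finset ℕ) (c : Fin M → ℝ) (e : Fin M → ℕ → ℝ) (W : ℝ[X])
    (h : ∀ x ∈ Set.Ioo (0 : ℝ) 1, W.eval x = ∑ i, c i * Ef s (e i) x) :
    ∃ (c' : Fin M → ℝ) (m : Fin M → ℕ → ℤ), ∀ x ∈ Set.Ioo (0 : ℝ) 1,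
      W.eval x = ∑ i, c' i * ∏ k ∈ s, (1 - x ^ (k + 1)) ^ m i k := by
  have h1 := filter_integral (ι := Option (Fin M)) s _ Finset.univ rfl
    (fun o => o.elim (fun _ => 0) e) (fun o => o.elim (-W) (fun i => C (c i))) (fun x hx => by
      rw [Fintype.sum_option]
      simp only [Option.elim_none, Option.elim_some, eval_neg, eval_C]
      have h0 : Ef s (fun _ => 0) x = 1 := by simp [Ef]
      rw [h0, h x hx]
      ring)
  have hint : ∀ i : Fin M, ∃ m : ℕ → ℤ, IntOn s (e i) → ∀ k ∈ s, e i k = m k := by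
    intro i
    by_cases hi : IntOn s (e i)
    · choose! m hm using hi
      exact ⟨m, fun _ => hm⟩
    · exact ⟨fun _ => 0, fun hh => absurd hh hi⟩
  choose m hm using hint
  refine ⟨fun i => if IntOn s (e i) then c i else 0, m, fun x hx => ?_⟩
  have h2 := h1 x hx
  rw [Finset.sum_filter, Fintype.sum_option] at h2
  simp only [Option.elim_none, Option.elim_some, eval_neg, eval_C] at h2
  have h0 : Ef s (fun _ => 0) x = 1 := by simp [Ef]
  have hz : IntOn s (fun _ => 0) := fun k _ => ⟨0, by simp⟩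
  rw [if_pos hz, h0] at h2
  have h3 : ∀ i : Fin M, (if IntOn s (e i) then c i else 0) * ∏ k ∈ s, (1 - x ^ (k + 1)) ^ m i k
      = if IntOn s (e i) then c i * Ef s (e i) x else 0 := by
    intro i
    split_ifs with hi
    · rw [Ef_int s (e i) (m i) (hm i hi) hx]
    · rw [zero_mul]
  rw [Finset.sum_congr rfl fun i _ => h3 i]
  linarith

/-- the exponents of `1 - x^k` after eliminating `1 + x^k` -/
noncomputable def expo (a b : ℕ →₀ ℝ) : ℕ →₀ ℝ := b - a + a.mapDomain (fun k => 2 * k + 1)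

/-- the linear functional `e ↦ ∑ e k log(1 - x^(k+1))` -/
noncomputable def lsum (x : ℝ) (e : ℕ →₀ ℝ) : ℝ := e.sum fun k r => r * Real.log (1 - x ^ (k + 1))

theorem lsum_add (x : ℝ) (e e' : ℕ →₀ ℝ) : lsum x (e + e') = lsum x e + lsum x e' := by
  rw [lsum, Finsupp.sum_add_index' (by simp) (by intro k r r'; ring)]
  rfl

theorem lsum_sub (x : ℝ) (e e' : ℕ →₀ ℝ) : lsum x (e - e') = lsum x e - lsum x e' := by
  have h := lsum_add x (e - e') e'
  rw [sub_add_cancel] at h
  linarith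

theorem term_eq (a b : ℕ →₀ ℝ) {x : ℝ} (hx : x ∈ Set.Ioo (0 : ℝ) 1) :
    (a.prod fun k r => (1 + x ^ (k + 1)) ^ r) * (b.prod fun k r => (1 - x ^ (k + 1)) ^ r)
      = Real.exp (lsum x (expo a b)) := by
  have hm : ∀ k : ℕ, 0 < 1 - x ^ (k + 1) := by
    intro k
    have := Wk_eval_pos k hx
    simpa [Wk] using this
  have hp : ∀ k : ℕ, 0 < 1 + x ^ (k + 1) := by
    intro k
    have : 0 < x ^ (k + 1) := pow_pos hx.1 _
    linarith
  have h1 : (b.prod fun k r => (1 - x ^ (k + 1)) ^ r) = Real.exp (lsum x b) := by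
    rw [lsum, Finsupp.prod, Finsupp.sum, Real.exp_sum]
    refine Finset.prod_congr rfl fun k _ => ?_
    rw [Real.rpow_def_of_pos (hm k), mul_comm]
  have h2 : (a.prod fun k r => (1 + x ^ (k + 1)) ^ r)
      = Real.exp (lsum x (a.mapDomain (fun k => 2 * k + 1)) - lsum x a) := by
    rw [lsum, lsum, Finsupp.sum_mapDomain_index (by simp) (by intro k r r'; ring), Finsupp.prod,
      Finsupp.sum, Finsupp.sum, ← Finset.sum_sub_distrib, Real.exp_sum]
    refine Finset.prod_congr rfl fun k _ => ?_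
    rw [Real.rpow_def_of_pos (hp k)]
    congr 1
    have h3 : 1 - x ^ (2 * k + 1 + 1) = (1 + x ^ (k + 1)) * (1 - x ^ (k + 1)) := by ring
    rw [h3, Real.log_mul (hp k).ne' (hm k).ne']
    ring
  rw [h1, h2, ← Real.exp_add, expo, lsum_add, lsum_sub]
  congr 1
  ring

theorem lsum_eq {s : Finset ℕ} {e : ℕ →₀ ℝ} (h : e.support ⊆ s) (x : ℝ) :
    Real.exp (lsum x e) = Ef s e x := by
  rw [lsum, Finsupp.sum_of_support_subset _ h _ (by simp), Ef]
  congr 1
  refine Finset.sum_congr rfl fun k _ => ?_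
  simp [Wk]

end Pool.Agent.Helper52
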