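import Pool.Agent.Helper52.Final
import Pool.Agent.Helper33.EvenGraphSum
import Pool.Agent.Helper52.RealExp
import Pool.Agent.Helper68.Dominance

/-!
No short sum of units equals the generating function of labelled even graphs.
-/

namespace Pool.Agent.Helper52

open PowerSeries Finset Metric

theorem norm_Su_le {N lam : ℕ} (h : lam ≤ N) {z : ℂ} (hz : ‖z‖ < 1) :
    ‖tv (Su N lam) z‖ ≤ 2 ^ N := by
  rw [tv_Su N lam hz, norm_mul, norm_pow, norm_pow]
  have h1 : ‖1 + z‖ ≤ 2 := by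
    refine (norm_add_le _ _).trans ?_
    rw [norm_one]; linarith
  have h2 : ‖1 - z‖ ≤ 2 := by
    refine (norm_sub_le _ _).trans ?_
    rw [norm_one]; linarith
  calc ‖1 + z‖ ^ (N - lam) * ‖1 - z‖ ^ lam ≤ 2 ^ (N - lam) * 2 ^ lam := by gcongr
    _ = 2 ^ N := by rw [← pow_add, Nat.sub_add_cancel h]

theorem main_units (hdom : ∀ s, Dominance s) (M : ℕ) : ∃ p₀ : ℕ, ∀ p ≥ p₀,
    ∀ (T : Fin M → GIˣ) (c : Fin M → ℂ),
    (∀ x : ℝ, 0 < x → x < 1 →
      ∑ G : SimpleGraph (Fin p), (open Classical in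
        if ∀ v, Even (G.neighborSet v).ncard then (x : ℂ) ^ G.edgeSet.ncard else 0)
        = ∑ l, c l * tv (T l) (x : ℂ)) → False := by
  obtain ⟨b, D₀, hb, hD₀, hstr⟩ := structure_thm M
  choose p₁ hp₁ using fun q => core_final q b hb (hdom q)
  obtain ⟨pD, hpD⟩ := exists_nat_gt D₀
  refine ⟨∑ q ∈ range (M + 1), p₁ q + pD + 5, fun p hp T c hW => ?_⟩
  have hp5 : 5 ≤ p := by omega
  have hpR : (5 : ℝ) ≤ p := by exact_mod_cast hp5
  have hpD' : D₀ ≤ p := by
    have : (pD : ℝ) ≤ p := by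
      have : pD ≤ p := by omega
      exact_mod_cast this
    linarith
  have hp₁' : ∀ q ≤ M, p₁ q ≤ p := by
    intro q hq
    have h1 : p₁ q ≤ ∑ q ∈ range (M + 1), p₁ q :=
      Finset.single_le_sum (f := p₁) (fun _ _ => Nat.zero_le _)
        (Finset.mem_range.mpr (Nat.lt_succ_of_le hq))
    omega
  set F := Fs T c with hF
  have hFG : F ∈ Good := Fs_mem T c
  have hlamN : ∀ k ≤ p, k * (p - k) ≤ p.choose 2 := fun k hk => lam_le (by omega) hk
  have hSG : ∀ k ∈ range (p + 1), ((p.choose k : ℂ) •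
      ((Su (p.choose 2) (k * (p - k)) : GI) : PowerSeries ℂ)) ∈ Good := fun k _ =>
    smul_mem_Good _ (GI.good (unit_mem _))
  have hFS : (2 : ℂ) ^ p • F = ∑ k ∈ range (p + 1), (p.choose k : ℂ) •
      ((Su (p.choose 2) (k * (p - k)) : GI) : PowerSeries ℂ) := by
    rw [← sub_eq_zero]
    apply eq_zero_of_real (Good.sub_mem (smul_mem_Good _ hFG) (Good.sum_mem hSG))
    intro x hx0 hx1
    have hx : ‖(x : ℂ)‖ < 1 := by
      rw [Complex.norm_real, Real.norm_of_nonneg hx0.le]; exact hx1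
    rw [ev_sub (smul_mem_Good _ hFG) (Good.sum_mem hSG) hx, ev_smul, ev_sum _ _ hSG hx, hF,
      ev_Fs T c hx, ← hW x hx0 hx1, even_graph_sum (x : ℂ) p, sub_eq_zero]
    refine Finset.sum_congr rfl fun k _ => ?_
    rw [ev_smul]
    have h2 := tv_Su (p.choose 2) (k * (p - k)) hx
    rw [tv] at h2
    rw [h2]
    ring
  have hNle : ((p.choose 2 : ℕ) : ℝ) ≤ (p : ℝ) ^ 2 := by
    have h1 : p.choose 2 ≤ p ^ 2 := by
      rw [Nat.choose_two_right]
      refine (Nat.div_le_self _ _).trans ?_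
      rw [pow_two]
      exact Nat.mul_le_mul_left _ (Nat.sub_le _ _)
    exact_mod_cast h1
  have hbound : ∀ z : ℂ, ‖z‖ ≤ 1 - 1 / ((p : ℝ) ^ 2) ^ b →
      ‖ev z F‖ ≤ Real.exp ((p : ℝ) ^ 2) := by
    intro z hz
    have hz1 : ‖z‖ < 1 := by
      have : 0 < 1 / ((p : ℝ) ^ 2) ^ b := by positivity
      linarith
    have h1 : (2 : ℝ) ^ p * ‖ev z F‖ ≤ 2 ^ p * 2 ^ (p.choose 2) := by
      have h2 : ‖ev z ((2 : ℂ) ^ p • F)‖ = (2 : ℝ) ^ p * ‖ev z F‖ := by
        rw [ev_smul, norm_mul, norm_pow, Complex.norm_ofNat]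
      rw [← h2, hFS, ev_sum _ _ hSG hz1]
      refine (norm_sum_le _ _).trans ?_
      have h3 : ∀ k ∈ range (p + 1), ‖ev z ((p.choose k : ℂ) •
          ((Su (p.choose 2) (k * (p - k)) : GI) : PowerSeries ℂ))‖
          ≤ (p.choose k : ℝ) * 2 ^ (p.choose 2) := by
        intro k hk
        rw [ev_smul, norm_mul, Complex.norm_natCast]
        have hk' : k ≤ p := Nat.lt_succ_iff.mp (Finset.mem_range.mp hk)
        exact mul_le_mul_of_nonneg_left (norm_Su_le (hlamN k hk') hz1) (by positivity)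
      refine (Finset.sum_le_sum h3).trans (le_of_eq ?_)
      rw [← Finset.sum_mul]
      congr 1
      have := Nat.sum_range_choose p
      exact_mod_cast this
    have h2 : ‖ev z F‖ ≤ 2 ^ (p.choose 2) := le_of_mul_le_mul_left h1 (by positivity)
    refine h2.trans ?_
    have h3 : (2 : ℝ) ≤ Real.exp 1 := by
      have := Real.add_one_le_exp (1 : ℝ)
      linarith
    calc (2 : ℝ) ^ (p.choose 2) ≤ (Real.exp 1) ^ (p.choose 2) := by gcongr
      _ = Real.exp ((p.choose 2 : ℕ) : ℝ) := by rw [← Real.exp_nat_mul, mul_one]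
      _ ≤ _ := Real.exp_le_exp.mpr hNle
  have hDge : D₀ ≤ (p : ℝ) ^ 2 := by nlinarith
  obtain ⟨q, hq, T', c', r, ν, hr1, hr2, hν, hν', herr, hld⟩ := hstr _ hDge T c hbound
  exact hp₁ q p (hp₁' q hq) F hFG hFS T' c' r ν hr1 hr2 hν hν' herr hld

theorem dom (s : ℕ) : Dominance s := Helper68.dominance s

/-- The generating function of the labelled even graphs on `p` vertices, for large `p`, is not a
sum of `M` real multiples of products of real powers of the polynomials `1 ± x^k`. -/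
theorem main_real (M : ℕ) : ∃ p₀ : ℕ, ∀ p ≥ p₀,
    ∀ (c : Fin M → ℝ) (a b : Fin M → ℕ →₀ ℝ),
    (∀ x ∈ Set.Ioo (0 : ℝ) 1,
      ∑ G : SimpleGraph (Fin p), (open Classical in
        if ∀ v, Even (G.neighborSet v).ncard then x ^ G.edgeSet.ncard else 0)
        = ∑ i, c i * ((a i).prod fun k r => (1 + x ^ (k + 1)) ^ r)
            * ((b i).prod fun k r => (1 - x ^ (k + 1)) ^ r)) → False := by
  classical
  obtain ⟨p₀, hp₀⟩ := main_units dom M
  refine ⟨p₀, fun p hp c a b h => ?_⟩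
  set s : Finset ℕ := Finset.univ.biUnion (fun i : Fin M => (expo (a i) (b i)).support) with hs
  have hsup : ∀ i, (expo (a i) (b i)).support ⊆ s := fun i =>
    Finset.subset_biUnion_of_mem (fun i : Fin M => (expo (a i) (b i)).support) (Finset.mem_univ i)
  set W : Polynomial ℝ := ∑ G : SimpleGraph (Fin p),
    (if ∀ v, Even (G.neighborSet v).ncard then Polynomial.X ^ G.edgeSet.ncard else 0) with hW
  have hWe : ∀ x : ℝ, W.eval x = ∑ G : SimpleGraph (Fin p),
      (if ∀ v, Even (G.neighborSet v).ncard then x ^ G.edgeSet.ncard else 0) := by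
    intro x
    rw [hW, Polynomial.eval_finsetSum]
    refine Finset.sum_congr rfl fun G _ => ?_
    split_ifs <;> simp
  obtain ⟨c', m, hm⟩ := reduce_real s c (fun i => expo (a i) (b i)) W (by
    intro x hx
    rw [hWe]
    have h1 := h x hx
    refine Eq.trans ?_ (h1.trans ?_)
    · refine Finset.sum_congr rfl fun G _ => ?_
      congr
    · refine Finset.sum_congr rfl fun i _ => ?_
      rw [mul_assoc, term_eq (a i) (b i) hx, lsum_eq (hsup i)])
  refine hp₀ p hp (fun i => ∏ k ∈ s, oneSub (k + 1) (Nat.succ_pos k) ^ m i k)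
    (fun i => (c' i : ℂ)) ?_
  intro x hx0 hx1
  have hx : ‖(x : ℂ)‖ < 1 := by
    rw [Complex.norm_real, Real.norm_of_nonneg hx0.le]; exact hx1
  have h1 := hm x ⟨hx0, hx1⟩
  rw [hWe] at h1
  have h2 := congrArg (fun y : ℝ => (y : ℂ)) h1
  simp only [Complex.ofReal_sum, Complex.ofReal_mul, Complex.ofReal_prod] at h2
  refine Eq.trans ?_ (h2.trans ?_)
  · refine Finset.sum_congr rfl fun G _ => ?_
    split_ifs <;> simp
  · refine Finset.sum_congr rfl fun i _ => ?_
    rw [tv_prod _ _ hx]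
    congr 1
    refine Finset.prod_congr rfl fun k _ => ?_
    rw [tv_zpow _ _ hx, tv_oneSub _ _ hx]
    push_cast
    rfl

end Pool.Agent.Helper52
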