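import Mathlib

/-!
Complex analysis lemmas: Poisson/Harnack estimate, Jensen inequality, bound of the logarithmic
derivative of a zero-free function.
-/

namespace Pool.Agent.Helper52

open Complex Metric Real InnerProductSpace Filter

/-- Harnack type estimate with circle averages. -/
theorem harnack_avg {u : ℂ → ℝ} {R : ℝ} (hu : HarmonicOnNhd u (closedBall 0 R)) {w : ℂ}
    (hw : ‖w‖ < R) :
    u w ≤ (R + ‖w‖) / (R - ‖w‖) * circleAverage (fun z => max (u z) 0) 0 R
      - (R - ‖w‖) / (R + ‖w‖) * (circleAverage (fun z => max (u z) 0) 0 R - u 0) := by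
  have hR : 0 < R := lt_of_le_of_lt (norm_nonneg w) hw
  have hwb : w ∈ ball (0 : ℂ) R := by simpa using hw
  have hcont : ContinuousOn u (closedBall 0 R) := fun x hx =>
    (hu x hx).1.continuousAt.continuousWithinAt
  have hcs : ContinuousOn u (sphere 0 R) := hcont.mono sphere_subset_closedBall
  have hpos : ContinuousOn (fun z => max (u z) 0) (sphere 0 R) := by
    fun_prop
  have hi1 : CircleIntegrable u 0 R := hcs.circleIntegrable hR.le
  have hi2 : CircleIntegrable (fun z => max (u z) 0) 0 R := hpos.circleIntegrable hR.le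
  have hmean : circleAverage u 0 R = u 0 := by
    apply InnerProductSpace.HarmonicOnNhd.circleAverage_eq
    rwa [abs_of_pos hR]
  have hP := hu.circleAverage_re_herglotzRieszKernel_smul hwb
  have hkc : ContinuousOn (re ∘ herglotzRieszKernel 0 w) (sphere 0 R) := by
    have := continuousOn_herglotzRieszKernel_sphere (c := 0) (R := R) hwb
    rw [abs_of_pos hR] at this
    exact Complex.continuous_re.comp_continuousOn this
  set κ := (R + ‖w‖) / (R - ‖w‖) with hκ
  set κ' := (R - ‖w‖) / (R + ‖w‖) with hκ'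
  have hmono : circleAverage ((re ∘ herglotzRieszKernel 0 w) • u) 0 R ≤
      circleAverage (fun z => κ * max (u z) 0 - κ' * (max (u z) 0 - u z)) 0 R := by
    apply circleAverage_mono
    · exact (hkc.smul hcs).circleIntegrable hR.le
    · apply ContinuousOn.circleIntegrable hR.le
      fun_prop
    · intro z hz
      rw [abs_of_pos hR] at hz
      have h1 := re_herglotzRieszKernel_le hz hwb
      have h2 := le_re_herglotzRieszKernel hz hwb
      simp only [sub_zero] at h1 h2
      rw [← hκ] at h1
      rw [← hκ'] at h2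
      have h3 : ((re ∘ herglotzRieszKernel 0 w) • u) z = ((z + w) / (z - w)).re * u z := by
        simp [herglotzRieszKernel_def]
      rw [h3]
      rcases le_total 0 (u z) with h | h
      · rw [max_eq_left h]
        simp only [sub_self, mul_zero, sub_zero]
        exact mul_le_mul_of_nonneg_right h1 h
      · rw [max_eq_right h]
        simp only [mul_zero, zero_sub, mul_neg, neg_neg]
        exact mul_le_mul_of_nonpos_right h2 h
  rw [hP] at hmono
  refine hmono.trans (le_of_eq ?_)
  have e1 : circleAverage (fun z => κ * max (u z) 0 - κ' * (max (u z) 0 - u z)) 0 R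
      = circleAverage (fun z => κ * max (u z) 0) 0 R
        - circleAverage (fun z => κ' * (max (u z) 0 - u z)) 0 R := by
    apply circleAverage_fun_sub
    · apply ContinuousOn.circleIntegrable hR.le; fun_prop
    · apply ContinuousOn.circleIntegrable hR.le; fun_prop
  have e2 : circleAverage (fun z => κ * max (u z) 0) 0 R
      = κ * circleAverage (fun z => max (u z) 0) 0 R :=
    circleAverage_fun_smul (a := κ) (f := fun z => max (u z) 0)
  have e3 : circleAverage (fun z => κ' * (max (u z) 0 - u z)) 0 R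
      = κ' * circleAverage (fun z => max (u z) 0 - u z) 0 R :=
    circleAverage_fun_smul (a := κ') (f := fun z => max (u z) 0 - u z)
  have e4 : circleAverage (fun z => max (u z) 0 - u z) 0 R
      = circleAverage (fun z => max (u z) 0) 0 R - circleAverage u 0 R :=
    circleAverage_fun_sub hi2 hi1
  rw [e1, e2, e3, e4, hmean]

theorem le_avg_pos {u : ℂ → ℝ} {R : ℝ} (hR : 0 < R) (hu : HarmonicOnNhd u (closedBall 0 R)) :
    u 0 ≤ circleAverage (fun z => max (u z) 0) 0 R := by
  have hcont : ContinuousOn u (closedBall 0 R) := fun x hx =>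
    (hu x hx).1.continuousAt.continuousWithinAt
  have hcs : ContinuousOn u (sphere 0 R) := hcont.mono sphere_subset_closedBall
  have hi1 : CircleIntegrable u 0 R := hcs.circleIntegrable hR.le
  have hi2 : CircleIntegrable (fun z => max (u z) 0) 0 R := by
    apply ContinuousOn.circleIntegrable hR.le; fun_prop
  have hmean : circleAverage u 0 R = u 0 := by
    apply InnerProductSpace.HarmonicOnNhd.circleAverage_eq
    rwa [abs_of_pos hR]
  rw [← hmean]
  exact circleAverage_mono hi1 hi2 fun z _ => le_max_left _ _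

/-- Jensen's inequality. -/
theorem jensen_nonneg {g : ℂ → ℂ} {R : ℝ} (hR : 0 < R) (hg : AnalyticOnNhd ℂ g (closedBall 0 R))
    (hg0 : 1 ≤ ‖g 0‖) : 0 ≤ circleAverage (fun z => Real.log ‖g z‖) 0 R := by
  have hne : g 0 ≠ 0 := by
    intro h; rw [h, norm_zero] at hg0; linarith
  have hg' : AnalyticOnNhd ℂ g (closedBall 0 |R|) := by rwa [abs_of_pos hR]
  rw [AnalyticOnNhd.circleAverage_log_norm hR.ne' hg' hne]
  apply add_nonneg
  · apply finsum_nonneg
    intro z
    by_cases hz : z ∈ closedBall (0 : ℂ) |R|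
    · apply mul_nonneg
      · have := MeromorphicOn.AnalyticOnNhd.divisor_nonneg hg'
        exact_mod_cast this z
      · rw [zero_sub, norm_neg]
        rcases eq_or_ne z 0 with rfl | hz0
        · simp
        · apply Real.log_nonneg
          rw [← div_eq_mul_inv, one_le_div (norm_pos_iff.mpr hz0)]
          simpa [abs_of_pos hR] using hz
    · rw [Function.locallyFinsuppWithin.apply_eq_zero_of_notMem _ hz]
      simp
  · exact Real.log_nonneg hg0

/-- average of the positive part, by Jensen -/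
theorem avg_pos_le {u : ℂ → ℝ} {g : ℂ → ℂ} {R B : ℝ} (hR : 0 < R)
    (hg : AnalyticOnNhd ℂ g (closedBall 0 R)) (hg0 : 1 ≤ ‖g 0‖)
    (hu : ContinuousOn u (sphere 0 R)) (hB : 0 ≤ B)
    (h : ∀ z ∈ sphere (0 : ℂ) R, g z ≠ 0 → u z ≤ B - Real.log ‖g z‖)
    (h' : ∀ z ∈ sphere (0 : ℂ) R, g z ≠ 0 → 0 ≤ B - Real.log ‖g z‖) :
    circleAverage (fun z => max (u z) 0) 0 R ≤ B := by
  have hne : g 0 ≠ 0 := by
    intro h; rw [h, norm_zero] at hg0; linarith
  classical
  have hco : (fun z => max (u z) 0) =ᶠ[codiscreteWithin (sphere (0 : ℂ) |R|)]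
      fun z => if g z = 0 then 0 else max (u z) 0 := by
    have h1 := hg.preimage_zero_mem_codiscreteWithin (x := 0) hne (by simp [hR.le])
      ⟨⟨0, by simp [hR.le]⟩, (convex_closedBall (0 : ℂ) R).isPreconnected⟩
    have h2 : codiscreteWithin (sphere (0 : ℂ) |R|) ≤ codiscreteWithin (closedBall (0 : ℂ) R) := by
      apply codiscreteWithin_mono
      rw [abs_of_pos hR]
      exact sphere_subset_closedBall
    filter_upwards [h2 h1] with z hz
    rw [if_neg]
    simpa using hz
  have hint : CircleIntegrable (fun z => max (u z) 0) 0 R := by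
    apply ContinuousOn.circleIntegrable hR.le; fun_prop
  rw [circleAverage_congr_codiscreteWithin hco hR.ne']
  have hlogint : CircleIntegrable (fun z => Real.log ‖g z‖) 0 R := by
    apply MeromorphicOn.circleIntegrable_log_norm
    rw [abs_of_pos hR]
    exact (hg.mono sphere_subset_closedBall).meromorphicOn
  have hle : circleAverage (fun z => if g z = 0 then 0 else max (u z) 0) 0 R
      ≤ circleAverage (fun z => B - Real.log ‖g z‖) 0 R := by
    apply circleAverage_mono
    · exact CircleIntegrable.congr_codiscreteWithin hco hint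
    · exact (circleIntegrable_const B 0 R).sub hlogint
    · intro z hz
      rw [abs_of_pos hR] at hz
      by_cases hgz : g z = 0
      · simp [hgz, hB]
      · simp only [hgz, if_false]
        exact max_le (h z hz hgz) (h' z hz hgz)
  refine hle.trans ?_
  rw [circleAverage_fun_sub (circleIntegrable_const B 0 R) hlogint, circleAverage_const]
  linarith [jensen_nonneg hR hg hg0]


/-- Cauchy estimate for the derivative in a disc. -/
theorem cauchy_deriv {f : ℂ → ℂ} {r r' B : ℝ} (hf : DifferentiableOn ℂ f (ball 0 1))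
    (hrr : r < r') (hr1 : r' < 1) (hB : ∀ z, ‖z‖ ≤ r' → ‖f z‖ ≤ B) {z : ℂ} (hz : ‖z‖ ≤ r) :
    ‖deriv f z‖ ≤ B / (r' - r) := by
  have hsub : closedBall z (r' - r) ⊆ ball 0 1 := by
    intro w hw
    rw [mem_closedBall, dist_eq_norm] at hw
    rw [mem_ball_zero_iff]
    calc ‖w‖ = ‖(w - z) + z‖ := by ring_nf
      _ ≤ ‖w - z‖ + ‖z‖ := norm_add_le _ _
      _ < 1 := by linarith
  apply Complex.norm_deriv_le_of_forall_mem_sphere_norm_le (by linarith)
  · apply DifferentiableOn.diffContOnCl
    rw [closure_ball z (by linarith : r' - r ≠ 0)]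
    exact hf.mono hsub
  · intro w hw
    apply hB
    rw [mem_sphere, dist_eq_norm] at hw
    calc ‖w‖ = ‖(w - z) + z‖ := by ring_nf
      _ ≤ ‖w - z‖ + ‖z‖ := norm_add_le _ _
      _ ≤ r' := by linarith

/-- a zero-free analytic function on the unit disc has an analytic logarithm -/
theorem exists_log {f : ℂ → ℂ} (hf : DifferentiableOn ℂ f (ball 0 1))
    (hf0 : ∀ z ∈ ball (0 : ℂ) 1, f z ≠ 0) :
    ∃ h : ℂ → ℂ, h 0 = 0 ∧ (∀ z ∈ ball (0 : ℂ) 1, HasDerivAt h (deriv f z / f z) z) ∧
      ∀ z ∈ ball (0 : ℂ) 1, f z = f 0 * Complex.exp (h z) := by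
  have hd : DifferentiableOn ℂ (fun z => deriv f z / f z) (ball 0 1) :=
    (hf.deriv isOpen_ball).div hf hf0
  obtain ⟨h, h0, hh⟩ := hd.isExactOn_ball.with_val_at 0 0
  refine ⟨h, h0, hh, ?_⟩
  have hder : ∀ z ∈ ball (0 : ℂ) 1, HasDerivAt (fun z => f z * Complex.exp (-(h z))) 0 z := by
    intro z hz
    have h1 := (hf.differentiableAt (isOpen_ball.mem_nhds hz)).hasDerivAt
    have h2 := ((hh z hz).neg).cexp
    have h3 := h1.mul h2
    refine h3.congr_deriv ?_
    have := hf0 z hz
    field_simp
    ring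
  intro z hz
  have hconst := (convex_ball (0 : ℂ) 1).is_const_of_fderivWithin_eq_zero (𝕜 := ℂ)
    (f := fun z => f z * Complex.exp (-(h z)))
    (fun w hw => (hder w hw).differentiableAt.differentiableWithinAt)
    (fun w hw => by
      rw [fderivWithin_of_isOpen isOpen_ball hw]
      have := (hder w hw).hasFDerivAt.fderiv
      rw [this]; ext; simp) hz (mem_ball_self one_pos)
  simp only [h0, neg_zero, Complex.exp_zero, mul_one] at hconst
  rw [← hconst, mul_assoc, ← Complex.exp_add, neg_add_cancel, Complex.exp_zero, mul_one]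

/-- Bound for the logarithmic derivative of a zero-free function whose positive logarithmic average
is bounded and which is not too small somewhere near the center. -/
theorem logDeriv_bound {f : ℂ → ℂ} {r R ρ K B κ : ℝ} (hf : DifferentiableOn ℂ f (ball 0 1))
    (hf0 : ∀ z ∈ ball (0 : ℂ) 1, f z ≠ 0) (hr : 0 ≤ r) (hrR : r < R) (hR1 : R < 1)
    (hρR : ρ < R) (hK0 : 0 < K)
    (hK : circleAverage (fun z => max (Real.log ‖f z‖) 0) 0 R ≤ K) {w : ℂ} (hw : ‖w‖ ≤ ρ)
    (hwB : -B ≤ Real.log ‖f w‖) (hκ : (R + ρ) / (R - ρ) ≤ κ) (hB : 0 ≤ B) :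
    ∀ z, ‖z‖ ≤ r → ‖deriv f z / f z‖ ≤ 32 / (R - r) ^ 2 * ((4 / (R - r) + κ ^ 2) * K + κ * B) := by
  have hR : 0 < R := lt_of_le_of_lt hr hrR
  have hρ : 0 ≤ ρ := (norm_nonneg w).trans hw
  have hκ1 : 1 ≤ κ := by
    refine le_trans ?_ hκ
    rw [le_div_iff₀ (by linarith)]
    linarith
  set u : ℂ → ℝ := fun z => Real.log ‖f z‖ with hu
  have hharm : HarmonicOnNhd u (closedBall 0 R) := by
    intro z hz
    have hz1 : z ∈ ball (0 : ℂ) 1 := by
      simp only [mem_closedBall, dist_zero_right, mem_ball] at hz ⊢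
      linarith
    exact (hf.analyticAt (isOpen_ball.mem_nhds hz1)).harmonicAt_log_norm (hf0 z hz1)
  set a := circleAverage (fun z => max (u z) 0) 0 R with ha
  have ha0 : 0 ≤ a := circleAverage_nonneg_of_nonneg (fun z _ => le_max_right _ _)
  -- `u 0 ≤ a`
  have hu0 : u 0 ≤ a := le_avg_pos hR hharm
  have hharn : ∀ z : ℂ, ‖z‖ < R → u z ≤ (R + ‖z‖) / (R - ‖z‖) * a
      - (R - ‖z‖) / (R + ‖z‖) * (a - u 0) := fun z hz => harnack_avg hharm hz
  -- lower bound of `u 0`
  have hlow : -u 0 ≤ κ * (κ * K + B) := by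
    rcases le_total 0 (u 0) with h | h
    · have : 0 ≤ κ * (κ * K + B) := by positivity
      linarith
    · have h1 := hharn w (lt_of_le_of_lt hw hρR)
      have h2 : (R + ‖w‖) / (R - ‖w‖) ≤ κ := by
        refine le_trans ?_ hκ
        gcongr
      have h3 : κ⁻¹ ≤ (R - ‖w‖) / (R + ‖w‖) := by
        rw [← inv_div]
        apply inv_anti₀ _ h2
        have : ‖w‖ < R := lt_of_le_of_lt hw hρR
        have := norm_nonneg w
        apply div_pos <;> linarith
      have h4 : κ⁻¹ * (a - u 0) ≤ (R - ‖w‖) / (R + ‖w‖) * (a - u 0) :=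
        mul_le_mul_of_nonneg_right h3 (by linarith)
      have h5 : (R + ‖w‖) / (R - ‖w‖) * a ≤ κ * K :=
        mul_le_mul h2 hK ha0 (by positivity)
      have h6 : κ⁻¹ * (-u 0) ≤ κ⁻¹ * (a - u 0) :=
        mul_le_mul_of_nonneg_left (by linarith) (by positivity)
      have h7 : κ⁻¹ * (-u 0) ≤ κ * K + B := by
        have : u w = Real.log ‖f w‖ := rfl
        linarith
      have h8 : -u 0 = κ * (κ⁻¹ * (-u 0)) := by
        field_simp
      rw [h8]
      exact mul_le_mul_of_nonneg_left h7 (by positivity)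
  obtain ⟨h, h0, hh, hexp⟩ := exists_log hf hf0
  have hre : ∀ z ∈ ball (0 : ℂ) 1, (h z).re = u z - u 0 := by
    intro z hz
    have h1 := hexp z hz
    have h2 : u z = u 0 + (h z).re := by
      simp only [hu]
      rw [h1, norm_mul, Complex.norm_exp, Real.log_mul (norm_ne_zero_iff.mpr
        (hf0 0 (mem_ball_self one_pos))) (Real.exp_ne_zero _), Real.log_exp]
    linarith
  set M := 4 / (R - r) * K + κ * (κ * K + B) with hM
  have hRr : 0 < R - r := by linarith
  have hMpos : 0 < M := by positivity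
  have hhd : DifferentiableOn ℂ h (ball 0 1) := fun z hz =>
    (hh z hz).differentiableAt.differentiableWithinAt
  set R₁ := (R + r) / 2 with hR₁
  have hbc : ∀ z : ℂ, ‖z‖ ≤ r + (R - r) / 4 → ‖h z‖ ≤ 8 * M / (R - r) := by
    intro z hz
    have hzR : z ∈ ball (0 : ℂ) R₁ := by
      rw [mem_ball_zero_iff]; linarith
    have h1 := Complex.borelCaratheodory_zero (f := h) hMpos
      (hhd.mono (ball_subset_ball (by linarith))) (R := R₁) (z := z) ?_ (by linarith) hzR h0
    · refine h1.trans ?_
      rw [div_le_div_iff₀ (by linarith) hRr]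
      have h3 : R - r ≤ 4 * (R₁ - ‖z‖) := by linarith
      have h4 : ‖z‖ ≤ 1 := by linarith
      calc 2 * M * ‖z‖ * (R - r) ≤ 2 * M * 1 * (4 * (R₁ - ‖z‖)) := by
            gcongr
        _ = 8 * M * (R₁ - ‖z‖) := by ring
    · intro y hy
      rw [mem_ball_zero_iff] at hy
      have hy1 : y ∈ ball (0 : ℂ) 1 := by rw [mem_ball_zero_iff]; linarith
      rw [Set.mem_ofPred_eq, hre y hy1]
      have hyR : ‖y‖ < R := by linarith
      have h1 := hharn y hyR
      have h2 : 0 ≤ (R - ‖y‖) / (R + ‖y‖) * (a - u 0) := by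
        apply mul_nonneg _ (by linarith)
        have := norm_nonneg y
        apply div_nonneg <;> linarith
      have h3 : (R + ‖y‖) / (R - ‖y‖) ≤ 4 / (R - r) := by
        rw [div_le_div_iff₀ (by linarith) hRr]
        have : R - r ≤ 2 * (R - ‖y‖) := by linarith
        have h5 : R + ‖y‖ ≤ 2 := by linarith
        calc (R + ‖y‖) * (R - r) ≤ 2 * (2 * (R - ‖y‖)) := by
              apply mul_le_mul h5 this hRr.le (by norm_num)
          _ = 4 * (R - ‖y‖) := by ring
      have h4 : (R + ‖y‖) / (R - ‖y‖) * a ≤ 4 / (R - r) * K :=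
        mul_le_mul h3 hK ha0 (by positivity)
      linarith
  intro z hz
  have hz1 : z ∈ ball (0 : ℂ) 1 := by rw [mem_ball_zero_iff]; linarith
  rw [← (hh z hz1).deriv]
  have := cauchy_deriv hhd (r := r) (r' := r + (R - r) / 4) (by linarith) (by linarith) hbc hz
  refine this.trans (le_of_eq ?_)
  rw [hM, show r + (R - r) / 4 - r = (R - r) / 4 by ring]
  field_simp
  ring

end Pool.Agent.Helper52
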