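import Pool.Agent.Helper52.Struct

/-!
The units `1 - X^k`, `1 + X^k`, multiplicativity of evaluation, uniqueness of good series.
-/

namespace Pool.Agent.Helper52

open PowerSeries Finset Metric

theorem tv_mul (T S : GIˣ) {z : ℂ} (hz : ‖z‖ < 1) : tv (T * S) z = tv T z * tv S z := by
  rw [tv, Units.val_mul, Subring.coe_mul, ev_mul (GI.good (unit_mem T)) (GI.good (unit_mem S)) hz]
  rfl

theorem tv_one {z : ℂ} (hz : ‖z‖ < 1) : tv 1 z = 1 := by
  rw [tv, Units.val_one]
  exact ev_one hz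

/-- evaluation on units as a monoid homomorphism -/
noncomputable def tvHom (z : ℂ) (hz : ‖z‖ < 1) : GIˣ →* ℂ where
  toFun T := tv T z
  map_one' := tv_one hz
  map_mul' T S := tv_mul T S hz

theorem tvHom_apply (z : ℂ) (hz : ‖z‖ < 1) (T : GIˣ) : tvHom z hz T = tv T z := rfl

theorem tv_pow (T : GIˣ) (n : ℕ) {z : ℂ} (hz : ‖z‖ < 1) : tv (T ^ n) z = tv T z ^ n :=
  (tvHom z hz).map_pow T n

theorem tv_inv (T : GIˣ) {z : ℂ} (hz : ‖z‖ < 1) : tv T⁻¹ z = (tv T z)⁻¹ := by
  have h1 := tv_mul T T⁻¹ hz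
  rw [mul_inv_cancel, tv_one hz] at h1
  have h2 := tv_ne_zero T hz
  field_simp
  rw [mul_comm]; exact h1.symm

theorem tv_zpow (T : GIˣ) (n : ℤ) {z : ℂ} (hz : ‖z‖ < 1) : tv (T ^ n) z = tv T z ^ n := by
  cases n with
  | ofNat n => simp [tv_pow T n hz]
  | negSucc n => rw [zpow_negSucc, zpow_negSucc, tv_inv _ hz, tv_pow _ _ hz]

theorem tv_prod {ι : Type*} (s : Finset ι) (f : ι → GIˣ) {z : ℂ} (hz : ‖z‖ < 1) :
    tv (∏ i ∈ s, f i) z = ∏ i ∈ s, tv (f i) z :=
  map_prod (tvHom z hz) f s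

/-- the geometric series in `X ^ k` -/
noncomputable def geo (k : ℕ) : PowerSeries ℂ := PowerSeries.mk fun n => if k ∣ n then 1 else 0

theorem geo_mem (k : ℕ) : geo k ∈ GI := by
  refine mem_GI ?_ fun n => ?_
  · intro r hr0 hr1
    refine Summable.of_nonneg_of_le (fun n => by positivity) (fun n => ?_)
      (summable_geometric_of_lt_one hr0 hr1)
    rw [geo, coeff_mk]
    split_ifs
    · simp
    · simp; positivity
  · rw [geo, coeff_mk]
    split_ifs
    · exact ⟨1, by simp⟩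
    · exact ⟨0, by simp⟩

theorem X_pow_mem (k : ℕ) : (X : PowerSeries ℂ) ^ k ∈ GI := GI.pow_mem X_mem_GI k

theorem one_sub_mul_geo {k : ℕ} (hk : 0 < k) : (1 - (X : PowerSeries ℂ) ^ k) * geo k = 1 := by
  ext n
  rw [sub_mul, one_mul, map_sub, PowerSeries.coeff_X_pow_mul', geo]
  simp only [coeff_mk, coeff_one]
  rcases Nat.eq_zero_or_pos n with rfl | hn
  · simp [Nat.pos_iff_ne_zero.mp hk]
  · rw [if_neg (by omega : ¬ n = 0)]
    by_cases hkn : k ≤ n
    · rw [if_pos hkn]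
      have : k ∣ n - k ↔ k ∣ n := by
        constructor
        · intro h
          have := (Nat.dvd_add_self_right (m := k) (n := n - k)).mpr h
          rwa [Nat.sub_add_cancel hkn] at this
        · intro h
          exact Nat.dvd_sub h (dvd_refl k)
      simp only [this, sub_self]
    · rw [if_neg hkn, if_neg, sub_zero]
      intro h
      exact hkn (Nat.le_of_dvd hn h)

/-- `1 - X^k` as a unit -/
noncomputable def oneSub (k : ℕ) (hk : 0 < k) : GIˣ where
  val := ⟨1 - X ^ k, GI.sub_mem GI.one_mem (X_pow_mem k)⟩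
  inv := ⟨geo k, geo_mem k⟩
  val_inv := Subtype.ext (one_sub_mul_geo hk)
  inv_val := Subtype.ext (by
    change geo k * (1 - X ^ k) = 1
    rw [mul_comm]; exact one_sub_mul_geo hk)

theorem coe_oneSub (k : ℕ) (hk : 0 < k) :
    ((oneSub k hk : GI) : PowerSeries ℂ) = 1 - X ^ k := rfl

/-- `1 + X^k` as a unit -/
noncomputable def oneAdd (k : ℕ) (hk : 0 < k) : GIˣ where
  val := ⟨1 + X ^ k, GI.add_mem GI.one_mem (X_pow_mem k)⟩
  inv := ⟨(1 - X ^ k) * geo (2 * k), GI.mul_mem (GI.sub_mem GI.one_mem (X_pow_mem k)) (geo_mem _)⟩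
  val_inv := Subtype.ext (by
    change (1 + X ^ k) * ((1 - X ^ k) * geo (2 * k)) = (1 : PowerSeries ℂ)
    refine Eq.trans ?_ (one_sub_mul_geo (k := 2 * k) (by omega))
    ring)
  inv_val := Subtype.ext (by
    change ((1 - X ^ k) * geo (2 * k)) * (1 + X ^ k) = (1 : PowerSeries ℂ)
    refine Eq.trans ?_ (one_sub_mul_geo (k := 2 * k) (by omega))
    ring)

theorem coe_oneAdd (k : ℕ) (hk : 0 < k) :
    ((oneAdd k hk : GI) : PowerSeries ℂ) = 1 + X ^ k := rfl

theorem ev_X_pow (k : ℕ) {z : ℂ} (hz : ‖z‖ < 1) : ev z (X ^ k) = z ^ k := by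
  have := (evHom z hz).map_pow ⟨PowerSeries.X, X_mem_Good⟩ k
  simpa [evHom_apply, ev_X] using this

theorem ev_sub {a b : PowerSeries ℂ} {z : ℂ} (ha : a ∈ Good) (hb : b ∈ Good) (hz : ‖z‖ < 1) :
    ev z (a - b) = ev z a - ev z b :=
  (evHom z hz).map_sub ⟨a, ha⟩ ⟨b, hb⟩

theorem tv_oneSub (k : ℕ) (hk : 0 < k) {z : ℂ} (hz : ‖z‖ < 1) : tv (oneSub k hk) z = 1 - z ^ k := by
  rw [tv, coe_oneSub, ev_sub Good.one_mem (Good.pow_mem X_mem_Good k) hz, ev_one hz, ev_X_pow k hz]

theorem tv_oneAdd (k : ℕ) (hk : 0 < k) {z : ℂ} (hz : ‖z‖ < 1) : tv (oneAdd k hk) z = 1 + z ^ k := by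
  rw [tv, coe_oneAdd, ev_add Good.one_mem (Good.pow_mem X_mem_Good k) hz, ev_one hz, ev_X_pow k hz]

/-- uniqueness: a good series vanishing on `(0,1)` is zero -/
theorem eq_zero_of_real {a : PowerSeries ℂ} (ha : a ∈ Good)
    (h : ∀ x : ℝ, 0 < x → x < 1 → ev (x : ℂ) a = 0) : a = 0 := by
  by_contra hne
  obtain ⟨n, hn, hn'⟩ := exists_order hne
  have hs := shift_mem_Good (n := n) ha
  have h0 : ev 0 (shift n a) = 0 := by
    have hc : ContinuousAt (fun z => ev z (shift n a)) 0 :=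
      ((ev_differentiableOn hs).differentiableAt
        (isOpen_ball.mem_nhds (mem_ball_self one_pos))).continuousAt
    have hseq : Filter.Tendsto (fun m : ℕ => (((1 / ((m : ℝ) + 2) : ℝ)) : ℂ)) Filter.atTop
        (nhds 0) := by
      rw [show (0 : ℂ) = ((0 : ℝ) : ℂ) by simp]
      apply (Complex.continuous_ofReal.tendsto 0).comp
      have h1 := tendsto_one_div_add_atTop_nhds_zero_nat (𝕜 := ℝ)
      have h2 := h1.comp (Filter.tendsto_add_atTop_nat 1)
      refine h2.congr fun m => ?_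
      simp only [Function.comp]
      push_cast
      ring
    have h3 := hc.tendsto.comp hseq
    have h4 : ∀ m : ℕ, ev ((((1 / ((m : ℝ) + 2) : ℝ)) : ℂ)) (shift n a) = 0 := by
      intro m
      have hx0 : (0 : ℝ) < 1 / ((m : ℝ) + 2) := by positivity
      have hx1 : 1 / ((m : ℝ) + 2) < 1 := by
        rw [div_lt_one (by positivity)]
        have : (0 : ℝ) ≤ m := by positivity
        linarith
      have h5 := h _ hx0 hx1
      rw [ev_eq_pow_mul_shift hn ha (by
        rw [Complex.norm_real, Real.norm_of_nonneg hx0.le]; exact hx1)] at h5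
      rcases mul_eq_zero.mp h5 with h6 | h6
      · exfalso
        have := eq_zero_of_pow_eq_zero h6
        rw [Complex.ofReal_eq_zero] at this
        linarith
      · exact h6
    have h5 : Filter.Tendsto (fun _ : ℕ => (0 : ℂ)) Filter.atTop (nhds (ev 0 (shift n a))) := by
      refine h3.congr fun m => ?_
      exact h4 m
    exact (tendsto_nhds_unique h5 tendsto_const_nhds)
  apply hn'
  rw [PowerSeries.X_pow_dvd_iff]
  intro m hm
  rcases Nat.lt_succ_iff_lt_or_eq.mp hm with h1 | h1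
  · exact (PowerSeries.X_pow_dvd_iff.mp hn) m h1
  · rw [h1]
    rw [ev_zero, shift] at h0
    simpa using h0

end Pool.Agent.Helper52
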