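import Pool.Agent.Helper52.Basic2

/-!
The algebraic part of the core lemma.
-/

namespace Pool.Agent.Helper52

open PowerSeries Finset Metric

/-- the terms of the generating function -/
noncomputable def Su (N lam : ℕ) : GIˣ :=
  oneAdd 1 one_pos ^ (N - lam) * oneSub 1 one_pos ^ lam

theorem coe_Su (N lam : ℕ) :
    ((Su N lam : GI) : PowerSeries ℂ) = (1 + X) ^ (N - lam) * (1 - X) ^ lam := by
  rw [Su, Units.val_mul, Units.val_pow_eq_pow_val, Units.val_pow_eq_pow_val, Subring.coe_mul,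
    SubmonoidClass.coe_pow, SubmonoidClass.coe_pow, coe_oneAdd, coe_oneSub, pow_one]

theorem tv_Su (N lam : ℕ) {z : ℂ} (hz : ‖z‖ < 1) :
    tv (Su N lam) z = (1 + z) ^ (N - lam) * (1 - z) ^ lam := by
  rw [Su, tv_mul _ _ hz, tv_pow _ _ hz, tv_pow _ _ hz, tv_oneAdd _ _ hz, tv_oneSub _ _ hz, pow_one]

theorem sser_mul (T S : GIˣ) : sser (T * S) = sser T + sser S := by
  have h1 : theta ℂ (((T * S : GIˣ) : GI) : PowerSeries ℂ)
      = (sser T + sser S) * (((T * S : GIˣ) : GI) : PowerSeries ℂ) := by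
    rw [Units.val_mul, Subring.coe_mul, Derivation.leibniz, theta_unit, theta_unit]
    simp only [smul_eq_mul]
    ring
  rw [sser, h1, mul_assoc, unit_mul_inv, mul_one]

theorem sser_one : sser 1 = 0 := by
  have := sser_mul 1 1
  rw [one_mul] at this
  simpa using this

theorem sser_pow (T : GIˣ) (n : ℕ) : sser (T ^ n) = n • sser T := by
  induction n with
  | zero => simp [sser_one]
  | succ n ih => rw [pow_succ, sser_mul, ih, succ_nsmul]

theorem ev_sser_oneAdd {z : ℂ} (hz : ‖z‖ ≤ 1 / 2) : ‖ev z (sser (oneAdd 1 one_pos))‖ ≤ 1 := by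
  have hz1 : ‖z‖ < 1 := by linarith
  have h1 : theta ℂ ((oneAdd 1 one_pos : GI) : PowerSeries ℂ) = X := by
    rw [coe_oneAdd, theta_apply]; simp
  have h2 := congrArg (ev z) (theta_unit (oneAdd 1 one_pos))
  rw [h1, ev_mul (GI.good (sser_mem _)) (GI.good (unit_mem _)) hz1, ev_X] at h2
  change z = ev z (sser (oneAdd 1 one_pos)) * tv (oneAdd 1 one_pos) z at h2
  rw [tv_oneAdd _ _ hz1, pow_one] at h2
  have h3 : 1 / 2 ≤ ‖1 + z‖ := by
    have := norm_sub_norm_le (1 : ℂ) (-z)
    rw [norm_one, norm_neg, sub_neg_eq_add] at this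
    linarith
  have h4 : ‖z‖ = ‖ev z (sser (oneAdd 1 one_pos))‖ * ‖1 + z‖ := by
    rw [← norm_mul, ← h2]
  nlinarith [norm_nonneg (ev z (sser (oneAdd 1 one_pos)))]

theorem ev_sser_oneSub {z : ℂ} (hz : ‖z‖ ≤ 1 / 2) : ‖ev z (sser (oneSub 1 one_pos))‖ ≤ 1 := by
  have hz1 : ‖z‖ < 1 := by linarith
  have h1 : theta ℂ ((oneSub 1 one_pos : GI) : PowerSeries ℂ) = -X := by
    rw [coe_oneSub, theta_apply]; simp
  have h2 := congrArg (ev z) (theta_unit (oneSub 1 one_pos))
  rw [h1, ev_mul (GI.good (sser_mem _)) (GI.good (unit_mem _)) hz1] at h2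
  change ev z (-X) = ev z (sser (oneSub 1 one_pos)) * tv (oneSub 1 one_pos) z at h2
  rw [tv_oneSub _ _ hz1, pow_one] at h2
  have h5 : ev z (-X) = -z := by
    rw [show (-X : PowerSeries ℂ) = (-1 : ℂ) • X by simp, ev_smul, ev_X]; ring
  rw [h5] at h2
  have h3 : 1 / 2 ≤ ‖1 - z‖ := by
    have := norm_sub_norm_le (1 : ℂ) z
    rw [norm_one] at this
    linarith
  have h4 : ‖z‖ = ‖ev z (sser (oneSub 1 one_pos))‖ * ‖1 - z‖ := by
    rw [← norm_mul, ← h2, norm_neg]
  nlinarith [norm_nonneg (ev z (sser (oneSub 1 one_pos)))]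

theorem nsmul_mem_GI {a : PowerSeries ℂ} (ha : a ∈ GI) (n : ℕ) : n • a ∈ GI :=
  GI.nsmul_mem ha n

theorem ev_nsmul (n : ℕ) (a : PowerSeries ℂ) (z : ℂ) : ev z (n • a) = n * ev z a := by
  rw [show n • a = (n : ℂ) • a by rw [Nat.cast_smul_eq_nsmul], ev_smul]

theorem norm_sser_Su {N lam : ℕ} (h : lam ≤ N) {z : ℂ} (hz : ‖z‖ ≤ 1 / 2) :
    ‖ev z (sser (Su N lam))‖ ≤ N := by
  have hz1 : ‖z‖ < 1 := by linarith
  rw [Su, sser_mul, sser_pow, sser_pow, ev_add (GI.good (nsmul_mem_GI (sser_mem _) _))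
    (GI.good (nsmul_mem_GI (sser_mem _) _)) hz1, ev_nsmul, ev_nsmul]
  refine (norm_add_le _ _).trans ?_
  rw [norm_mul, norm_mul, Complex.norm_natCast, Complex.norm_natCast]
  have h1 := ev_sser_oneAdd hz
  have h2 := ev_sser_oneSub hz
  calc ((N - lam : ℕ) : ℝ) * ‖ev z (sser (oneAdd 1 one_pos))‖
        + lam * ‖ev z (sser (oneSub 1 one_pos))‖ ≤ ((N - lam : ℕ) : ℝ) * 1 + lam * 1 := by
        gcongr
    _ = N := by
        rw [mul_one, mul_one]
        exact_mod_cast Nat.sub_add_cancel h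

/-- the differential operator with coefficients `P` -/
noncomputable def Lop {q : ℕ} (P : Fin (q + 1) → PowerSeries ℂ) (f : PowerSeries ℂ) :
    PowerSeries ℂ := ∑ i, P i * (theta ℂ)^[(i : ℕ)] f

theorem Lop_unit {q : ℕ} (P : Fin (q + 1) → PowerSeries ℂ) (T : GIˣ) :
    Lop P ((T : GI) : PowerSeries ℂ)
      = (∑ i : Fin (q + 1), P i * useq T i) * ((T : GI) : PowerSeries ℂ) := by
  rw [Lop, Finset.sum_mul]
  refine Finset.sum_congr rfl fun i _ => ?_
  rw [theta_iter_unit, mul_assoc]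

theorem theta_iter_add (f g : PowerSeries ℂ) (i : ℕ) :
    (theta ℂ)^[i] (f + g) = (theta ℂ)^[i] f + (theta ℂ)^[i] g := by
  ext m
  have h := fun f => Helper68.coeff_theta_iterate (K := ℂ) f i m
  have h1 : ∀ f : PowerSeries ℂ, coeff m ((theta ℂ)^[i] f) = (m : ℂ) ^ i * coeff m f := h
  rw [map_add, h1, h1, h1, map_add]
  ring

theorem theta_iter_smul (c : ℂ) (f : PowerSeries ℂ) (i : ℕ) :
    (theta ℂ)^[i] (c • f) = c • (theta ℂ)^[i] f := by
  ext m
  have h := fun f => Helper68.coeff_theta_iterate (K := ℂ) f i m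
  have h1 : ∀ f : PowerSeries ℂ, coeff m ((theta ℂ)^[i] f) = (m : ℂ) ^ i * coeff m f := h
  rw [h1, PowerSeries.coeff_smul, PowerSeries.coeff_smul, h1, smul_eq_mul, smul_eq_mul]
  ring

theorem Lop_add {q : ℕ} (P : Fin (q + 1) → PowerSeries ℂ) (f g : PowerSeries ℂ) :
    Lop P (f + g) = Lop P f + Lop P g := by
  rw [Lop, Lop, Lop, ← Finset.sum_add_distrib]
  refine Finset.sum_congr rfl fun i _ => ?_
  rw [theta_iter_add, mul_add]

theorem Lop_smul {q : ℕ} (P : Fin (q + 1) → PowerSeries ℂ) (c : ℂ) (f : PowerSeries ℂ) :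
    Lop P (c • f) = c • Lop P f := by
  rw [Lop, Lop, Finset.smul_sum]
  refine Finset.sum_congr rfl fun i _ => ?_
  rw [theta_iter_smul, mul_smul_comm]

theorem Lop_zero {q : ℕ} (P : Fin (q + 1) → PowerSeries ℂ) : Lop P 0 = 0 := by
  have := Lop_smul P 0 0
  simpa using this

theorem Lop_sum {q : ℕ} (P : Fin (q + 1) → PowerSeries ℂ) {ι : Type*} (s : Finset ι)
    (f : ι → PowerSeries ℂ) : Lop P (∑ i ∈ s, f i) = ∑ i ∈ s, Lop P (f i) := by
  classical
  induction s using Finset.induction_on with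
  | empty => simp [Lop_zero]
  | insert a s ha ih => rw [Finset.sum_insert ha, Finset.sum_insert ha, Lop_add, ih]

/-- lowest coefficient of `L f` -/
theorem coeff_Lop_of_dvd {q : ℕ} (P : Fin (q + 1) → PowerSeries ℂ) {m : ℕ} {f : PowerSeries ℂ}
    (h : (X : PowerSeries ℂ) ^ m ∣ f) :
    coeff m (Lop P f) = (∑ i : Fin (q + 1), coeff 0 (P i) * (m : ℂ) ^ (i : ℕ)) * coeff m f := by
  rw [Lop, map_sum, Finset.sum_mul]
  refine Finset.sum_congr rfl fun i _ => ?_
  have h1 : ∀ k : ℕ, coeff k ((theta ℂ)^[(i : ℕ)] f) = (k : ℂ) ^ (i : ℕ) * coeff k f :=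
    fun k => Helper68.coeff_theta_iterate (K := ℂ) f i k
  have h2 : (X : PowerSeries ℂ) ^ m ∣ (theta ℂ)^[(i : ℕ)] f := by
    rw [PowerSeries.X_pow_dvd_iff] at h ⊢
    intro k hk
    rw [h1, h k hk, mul_zero]
  obtain ⟨g, hg⟩ := h2
  have h3 : coeff m ((theta ℂ)^[(i : ℕ)] f) = coeff 0 g := by
    rw [hg]
    have := PowerSeries.coeff_X_pow_mul g m 0
    rwa [zero_add] at this
  have h4 : coeff m (P i * (theta ℂ)^[(i : ℕ)] f) = coeff 0 (P i) * coeff 0 g := by
    rw [hg, show P i * (X ^ m * g) = X ^ m * (P i * g) by ring]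
    have := PowerSeries.coeff_X_pow_mul (P i * g) m 0
    rw [zero_add] at this
    rw [this, PowerSeries.coeff_mul]
    simp
  rw [h4, ← h3, h1]
  ring

/-- binomial expansion of `Su` -/
theorem Su_expand {N lam : ℕ} (h : lam ≤ N) :
    ((Su N lam : GI) : PowerSeries ℂ)
      = ∑ l ∈ range (lam + 1), ((lam.choose l : ℂ) * (-2) ^ l) • (X ^ l * (1 + X) ^ (N - l)) := by
  rw [coe_Su, show (1 - X : PowerSeries ℂ) = -2 * X + (1 + X) by ring,
    add_pow (-2 * X) (1 + X : PowerSeries ℂ) lam, Finset.mul_sum]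
  refine Finset.sum_congr rfl fun l hl => ?_
  have hl' : l ≤ lam := by simpa [Nat.lt_succ_iff] using hl
  have h1 : (1 + X : PowerSeries ℂ) ^ (N - l) = (1 + X) ^ (N - lam) * (1 + X) ^ (lam - l) := by
    rw [← pow_add]; congr 1; omega
  rw [h1, PowerSeries.smul_eq_C_mul, mul_pow, map_mul, map_pow, map_natCast, map_neg]
  rw [show (PowerSeries.C (2 : ℂ)) = (2 : PowerSeries ℂ) from map_ofNat PowerSeries.C 2]
  ring

/-- independence of binomials -/
theorem binom_indep (m : ℕ) (a : ℕ → ℂ) (Λ : Fin (m + 1) → ℕ) (hΛ : Function.Injective Λ)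
    (h : ∀ j, ∑ l ∈ range (m + 1), ((Λ j).choose l : ℂ) * a l = 0) : a m = 0 := by
  set R : Polynomial ℂ := ∑ l ∈ range (m + 1), Polynomial.C (a l / l.factorial) *
    descPochhammer ℂ l with hR
  have hdeg : R.natDegree ≤ m := by
    apply Polynomial.natDegree_sum_le_of_forall_le
    intro l hl
    refine (Polynomial.natDegree_C_mul_le _ _).trans ?_
    rw [descPochhammer_natDegree]
    simpa [Nat.lt_succ_iff] using hl
  have hR0 : R = 0 := by
    apply Polynomial.eq_zero_of_natDegree_lt_card_of_eval_eq_zero R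
      (f := fun j : Fin (m + 1) => ((Λ j : ℕ) : ℂ))
    · intro i j hij
      exact hΛ (Nat.cast_injective hij)
    · intro j
      rw [hR, Polynomial.eval_finsetSum, ← h j]
      refine Finset.sum_congr rfl fun l _ => ?_
      rw [Polynomial.eval_mul, Polynomial.eval_C, descPochhammer_eval_eq_descFactorial,
        Nat.descFactorial_eq_factorial_mul_choose]
      push_cast
      have : (l.factorial : ℂ) ≠ 0 := by exact_mod_cast l.factorial_ne_zero
      field_simp
    · simpa using Nat.lt_succ_of_le hdeg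
  have hcoef : R.coeff m = a m / m.factorial := by
    rw [hR, Polynomial.finsetSum_coeff, Finset.sum_range_succ, Finset.sum_eq_zero, zero_add,
      Polynomial.coeff_C_mul]
    · have h1 : (descPochhammer ℂ m).coeff m = 1 := by
        have := monic_descPochhammer ℂ m
        rw [Polynomial.Monic, Polynomial.leadingCoeff, descPochhammer_natDegree] at this
        exact this
      rw [h1, mul_one]
    · intro l hl
      rw [Polynomial.coeff_C_mul, Polynomial.coeff_eq_zero_of_natDegree_lt, mul_zero]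
      rw [descPochhammer_natDegree]
      simpa using hl
  rw [hR0, Polynomial.coeff_zero] at hcoef
  have : (m.factorial : ℂ) ≠ 0 := by exact_mod_cast m.factorial_ne_zero
  rw [eq_comm, div_eq_zero_iff] at hcoef
  exact hcoef.resolve_right this

/-- the algebraic core -/
theorem core_alg {q N : ℕ} (P : Fin (q + 1) → PowerSeries ℂ)
    (Λ : Fin (q + 1) → ℕ) (hΛ : Function.Injective Λ) (hΛN : ∀ j, Λ j ≤ N)
    (h : ∀ j, (X : PowerSeries ℂ) ^ (q + 1) ∣ Lop P ((Su N (Λ j) : GI) : PowerSeries ℂ)) :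
    ∀ i, coeff 0 (P i) = 0 := by
  -- `χ m = 0` for `m ≤ q`
  have hχ : ∀ m ≤ q, ∑ i : Fin (q + 1), coeff 0 (P i) * (m : ℂ) ^ (i : ℕ) = 0 := by
    intro m hm
    set b : ℕ → ℂ := fun l => coeff m (Lop P (X ^ l * (1 + X) ^ (N - l))) with hb
    have hblarge : ∀ l, m < l → b l = 0 := by
      intro l hl
      have h1 : (X : PowerSeries ℂ) ^ m ∣ X ^ l * (1 + X) ^ (N - l) :=
        (pow_dvd_pow _ hl.le).trans (dvd_mul_right _ _)
      rw [hb]
      simp only
      rw [coeff_Lop_of_dvd P h1, PowerSeries.coeff_X_pow_mul', if_neg (by omega), mul_zero]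
    have hbm : b m = ∑ i : Fin (q + 1), coeff 0 (P i) * (m : ℂ) ^ (i : ℕ) := by
      rw [hb]
      simp only
      rw [coeff_Lop_of_dvd P (dvd_mul_right _ _)]
      have h1 := PowerSeries.coeff_X_pow_mul ((1 + X : PowerSeries ℂ) ^ (N - m)) m 0
      rw [zero_add] at h1
      rw [h1]
      simp
    have hsum : ∀ j, ∑ l ∈ range (m + 1), ((Λ j).choose l : ℂ) * ((-2) ^ l * b l) = 0 := by
      intro j
      have h1 : coeff m (Lop P ((Su N (Λ j) : GI) : PowerSeries ℂ)) = 0 :=
        (PowerSeries.X_pow_dvd_iff.mp (h j)) m (by omega)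
      rw [Su_expand (hΛN j), Lop_sum, map_sum] at h1
      have h2 : ∀ l, coeff m (Lop P ((((Λ j).choose l : ℂ) * (-2) ^ l) •
          (X ^ l * (1 + X) ^ (N - l)))) = ((Λ j).choose l : ℂ) * ((-2) ^ l * b l) := by
        intro l
        rw [Lop_smul, PowerSeries.coeff_smul, smul_eq_mul, mul_assoc]
      simp only [h2] at h1
      have e1 : ∑ l ∈ range (Λ j + 1), ((Λ j).choose l : ℂ) * ((-2) ^ l * b l)
          = ∑ l ∈ range (max (Λ j + 1) (m + 1)), ((Λ j).choose l : ℂ) * ((-2) ^ l * b l) := by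
        apply Finset.sum_subset
        · intro l hl
          simp only [Finset.mem_range] at hl ⊢
          exact lt_max_of_lt_left hl
        · intro l _ hl
          simp only [Finset.mem_range, not_lt] at hl
          rw [Nat.choose_eq_zero_of_lt (by omega)]
          simp
      have e2 : ∑ l ∈ range (m + 1), ((Λ j).choose l : ℂ) * ((-2) ^ l * b l)
          = ∑ l ∈ range (max (Λ j + 1) (m + 1)), ((Λ j).choose l : ℂ) * ((-2) ^ l * b l) := by
        apply Finset.sum_subset
        · intro l hl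
          simp only [Finset.mem_range] at hl ⊢
          exact lt_max_of_lt_right hl
        · intro l _ hl
          simp only [Finset.mem_range, not_lt] at hl
          rw [hblarge l (by omega)]
          simp
      rw [e2, ← e1, h1]
    have h3 := binom_indep m (fun l => (-2) ^ l * b l)
      (fun j : Fin (m + 1) => Λ ⟨j, by omega⟩) (by
        intro i j hij
        have := hΛ hij
        simp only [Fin.mk.injEq] at this
        exact Fin.ext this) (fun j => hsum _)
    have h4 : ((-2 : ℂ)) ^ m ≠ 0 := pow_ne_zero _ (by norm_num)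
    have h5 : b m = 0 := by
      simpa using h3
    rw [← hbm, h5]
  -- Vandermonde
  have hv := Matrix.eq_zero_of_forall_index_sum_pow_mul_eq_zero (R := ℂ) (n := q + 1)
    (f := fun j : Fin (q + 1) => ((j : ℕ) : ℂ)) (v := fun i => coeff 0 (P i)) (by
      intro i j hij
      exact Fin.ext (Nat.cast_injective hij)) (by
      intro j
      rw [← hχ j (by omega)]
      refine Finset.sum_congr rfl fun i _ => ?_
      ring)
  intro i
  exact congrFun hv i

end Pool.Agent.Helper52
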