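import Pool.Agent.Helper52.CoreAlg

/-!
The annihilating operator and the final contradiction.
-/

namespace Pool.Agent.Helper52

open PowerSeries Finset Metric

/-- signed minors of the rectangular Wronskian matrix -/
noncomputable def Pm {q : ℕ} (T : Fin q → GIˣ) (i : Fin (q + 1)) : PowerSeries ℂ :=
  (-1) ^ (i : ℕ) * Matrix.det (Matrix.of fun (i' l : Fin q) => useq (T l) (i.succAbove i'))

theorem neg_one_pow_mem (n : ℕ) : ((-1 : PowerSeries ℂ)) ^ n ∈ GI :=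
  GI.pow_mem (GI.neg_mem GI.one_mem) n

theorem Pm_mem {q : ℕ} (T : Fin q → GIˣ) (i : Fin (q + 1)) : Pm T i ∈ GI :=
  GI.mul_mem (neg_one_pow_mem _) (det_mem_subring _ _ fun _ _ => useq_mem _ _)

theorem Pm_annihilates {q : ℕ} (T : Fin q → GIˣ) (l : Fin q) :
    ∑ i : Fin (q + 1), Pm T i * useq (T l) i = 0 := by
  set A : Matrix (Fin (q + 1)) (Fin (q + 1)) (PowerSeries ℂ) :=
    Matrix.of fun i j => Fin.cases (useq (T l) i) (fun l' => useq (T l') i) j with hA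
  have h1 : A.det = 0 := by
    apply Matrix.det_zero_of_column_eq (i := 0) (j := l.succ)
    · exact (Fin.succ_ne_zero l).symm
    · intro k
      simp [hA]
  rw [Matrix.det_succ_column_zero] at h1
  rw [← h1]
  refine Finset.sum_congr rfl fun i _ => ?_
  rw [Pm]
  have h2 : A i 0 = useq (T l) i := by simp [hA]
  have h3 : A.submatrix i.succAbove Fin.succ
      = Matrix.of fun (i' l : Fin q) => useq (T l) (i.succAbove i') := by
    ext1 a c
    simp [hA]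
  rw [h2, h3]
  ring

theorem Pm_last {q : ℕ} (T : Fin q → GIˣ) : Pm T (Fin.last q) = (-1) ^ q * Wr T := by
  rw [Pm, Wr, Fin.val_last]
  simp only [Fin.succAbove_last, Fin.val_castSucc]

theorem Lop_Pm_Fs {q : ℕ} (T : Fin q → GIˣ) (c : Fin q → ℂ) : Lop (Pm T) (Fs T c) = 0 := by
  rw [Fs, Lop_sum]
  refine Finset.sum_eq_zero fun l _ => ?_
  rw [Lop_smul, Lop_unit, Pm_annihilates, zero_mul, smul_zero]

theorem Lop_sub {q : ℕ} (P : Fin (q + 1) → PowerSeries ℂ) (f g : PowerSeries ℂ) :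
    Lop P (f - g) = Lop P f - Lop P g := by
  have h := Lop_add P (f - g) g
  rw [sub_add_cancel] at h
  rw [h, add_sub_cancel_right]

theorem shift_X_pow_mul (n : ℕ) (g : PowerSeries ℂ) : shift n (X ^ n * g) = g := by
  ext m
  rw [shift, coeff_mk, PowerSeries.coeff_X_pow_mul]

theorem poly_le_exp (C : ℝ) (m : ℕ) {η : ℝ} (hη : 0 < η) :
    ∃ p₀ : ℕ, ∀ p ≥ p₀, C * (p : ℝ) ^ m ≤ Real.exp (η * p) := by
  have h1 := isLittleO_pow_exp_pos_mul_atTop m hη
  have h2 := h1.bound (show (0 : ℝ) < 1 / (|C| + 1) by positivity)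
  have h3 := tendsto_natCast_atTop_atTop (R := ℝ) |>.eventually h2
  obtain ⟨p₀, hp₀⟩ := Filter.eventually_atTop.mp h3
  refine ⟨p₀, fun p hp => ?_⟩
  have h4 := hp₀ p hp
  rw [Real.norm_of_nonneg (by positivity), Real.norm_of_nonneg (Real.exp_pos _).le,
    one_div, ← div_eq_inv_mul, le_div_iff₀ (by positivity)] at h4
  calc C * (p : ℝ) ^ m ≤ |C| * (p : ℝ) ^ m := by gcongr; exact le_abs_self C
    _ ≤ (p : ℝ) ^ m * (|C| + 1) := by
      have : 0 ≤ (p : ℝ) ^ m := by positivity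
      nlinarith
    _ ≤ _ := h4

/-- the statement of the dominance lemma -/
def Dominance (s : ℕ) : Prop := ∃ ε η : ℝ, 0 < ε ∧ 0 < η ∧ ∃ p₀ : ℕ, ∀ p ≥ p₀,
    ∀ Q : ℕ → PowerSeries ℂ,
    (∀ k, Q k ∈ GI) → (∀ k ≤ p, Q (p - k) = Q k) →
    (∀ k ≤ p, ∀ z : ℂ, ‖z‖ ≤ 1 / 4 → ‖ev z (Q k)‖ ≤ Real.exp (η * p)) →
    (∀ z : ℂ, ‖z‖ ≤ 1 / 4 →
      ‖∑ k ∈ range (p + 1), (p.choose k : ℂ) * (1 + z) ^ (p.choose 2 - k * (p - k))
          * (1 - z) ^ (k * (p - k)) * ev z (Q k)‖ ≤ Real.exp (-(3 * p))) →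
    ∀ k ≤ s, (PowerSeries.X : PowerSeries ℂ) ^ ⌈ε * p⌉₊ ∣ Q k

theorem lam_le {p k : ℕ} (hp : 2 ≤ p) (hk : k ≤ p) : k * (p - k) ≤ p.choose 2 := by
  rw [Nat.choose_two_right, Nat.le_div_iff_mul_le (by norm_num)]
  obtain ⟨j, rfl⟩ := Nat.exists_eq_add_of_le hk
  rw [Nat.add_sub_cancel_left]
  obtain ⟨n, hn⟩ : ∃ n, k + j = n + 2 := ⟨k + j - 2, by omega⟩
  have : k + j - 1 = n + 1 := by omega
  rw [this]
  have h2 : (k + j) = n + 2 := hn
  -- 2kj ≤ (k+j)(k+j-1)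
  nlinarith [sq_nonneg ((k : ℤ) - j), sq_nonneg (k - j : ℤ), Nat.zero_le k, Nat.zero_le j]

theorem pow_R_ge {r : ℝ} {n ν : ℕ} (hr : 3 / 4 ≤ r) (hr1 : r ≤ 1) (hn : n ≤ ν)
    (hν : (ν : ℝ) * (1 - r) ≤ 1) : Real.exp (-4) ≤ (2 * r - 1) ^ n := by
  have h1 : Real.exp (-(4 * (1 - r))) ≤ 2 * r - 1 := by
    rw [Real.exp_neg]
    have h2 := Real.add_one_le_exp (4 * (1 - r))
    rw [inv_le_comm₀ (Real.exp_pos _) (by linarith)]
    refine le_trans ?_ h2
    rw [inv_le_iff_one_le_mul₀ (by linarith)]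
    nlinarith
  calc Real.exp (-4) ≤ Real.exp (-(4 * (1 - r))) ^ n := by
        rw [← Real.exp_nat_mul]
        apply Real.exp_le_exp.mpr
        have h3 : (n : ℝ) * (1 - r) ≤ 1 := by
          refine le_trans ?_ hν
          have : (n : ℝ) ≤ ν := by exact_mod_cast hn
          have : 0 ≤ 1 - r := by linarith
          gcongr
        nlinarith
    _ ≤ (2 * r - 1) ^ n := by
        gcongr

/-- bound for the minors -/
theorem Pm_bound {q : ℕ} (T : Fin q → GIˣ) {r Y x g : ℝ} (hr1 : r < 1)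
    (hld : ∀ l, ∀ z : ℂ, ‖z‖ ≤ r → ‖ld (T l) z‖ ≤ g) (hg : 0 ≤ g) (hx : 1 / (1 - r) ≤ x)
    (hY : (q + 1) * x + g ≤ Y) (hY1 : 1 ≤ Y) (i : Fin (q + 1)) {w : ℂ} (hw : ‖w‖ ≤ 2 * r - 1) :
    ‖ev w (Pm T i)‖ ≤ q.factorial * (Y ^ (q + 1)) ^ q := by
  have hw1 : ‖w‖ < 1 := by linarith
  have hent : ∀ (l : Fin q) (k : ℕ), k ≤ q + 1 → ‖ev w (useq (T l) k)‖ ≤ Y ^ (q + 1) := by
    intro l k hk
    have h1 := useq_bound (T l) (q := q + 1) (Nat.succ_pos q) (R := 2 * r - 1) (r' := r) (g := g)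
      (by linarith) hr1 hg (fun z hz => (norm_sser_le (T l) (lt_of_le_of_lt hz hr1)).trans
        (hld l z hz)) hk hw
    refine h1.trans ?_
    have h2 : ((q + 1 : ℕ) : ℝ) / (r - (2 * r - 1)) + g ≤ Y := by
      refine le_trans ?_ hY
      rw [show r - (2 * r - 1) = 1 - r by ring, div_eq_mul_one_div]
      push_cast
      gcongr
    have h3 : 0 ≤ ((q + 1 : ℕ) : ℝ) / (r - (2 * r - 1)) + g := by
      apply add_nonneg _ hg
      apply div_nonneg (by positivity); linarith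
    calc _ ≤ Y ^ k := pow_le_pow_left₀ h3 h2 k
      _ ≤ Y ^ (q + 1) := pow_le_pow_right₀ hY1 hk
  have hdetm : Matrix.det (Matrix.of fun (i' l : Fin q) => useq (T l) (i.succAbove i')) ∈ GI :=
    det_mem_subring _ _ fun _ _ => useq_mem _ _
  rw [Pm, ev_mul (GI.good (neg_one_pow_mem _)) (GI.good hdetm) hw1, norm_mul,
    ev_det (Matrix.of fun (i' l : Fin q) => useq (T l) (i.succAbove i'))
      (fun _ _ => GI.good (useq_mem _ _)) hw1]
  have h1 : ‖ev w ((-1 : PowerSeries ℂ) ^ (i : ℕ))‖ = 1 := by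
    have := (evHom w hw1).map_pow ⟨-1, Good.neg_mem Good.one_mem⟩ (i : ℕ)
    have h2 : ev w ((-1 : PowerSeries ℂ) ^ (i : ℕ)) = (ev w (-1)) ^ (i : ℕ) := this
    have h3 : ev w (-1 : PowerSeries ℂ) = -1 := by
      have := (evHom w hw1).map_neg 1
      have h4 : ev w (-(1 : PowerSeries ℂ)) = -ev w 1 := this
      rw [h4, ev_one hw1]
    rw [h2, h3, norm_pow, norm_neg, norm_one, one_pow]
  rw [h1, one_mul]
  apply det_bound
  intro i' l
  exact hent l _ (by omega)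

theorem arithA (w e f a c p : ℝ) (q b : ℕ) :
    w * (e * (f * ((a * (p ^ 2) ^ b) ^ (q + 1)) ^ q) * (c * p ^ 2) ^ (q + 1))
      = w * (e * (f * (a ^ (q + 1)) ^ q) * c ^ (q + 1))
        * p ^ (2 * b * (q + 1) * q + 2 * (q + 1)) := by
  ring

theorem arithB (w e f a x p : ℝ) (q b : ℕ) :
    e * (w * (f * ((a * (p ^ 2) ^ b) ^ (q + 1)) ^ q * ((a * (p ^ 2) ^ b) ^ (q + 1) * x)))
      = e * (w * (f * (a ^ (q + 1)) ^ q) * a ^ (q + 1))
        * p ^ (2 * b * (q + 1) * q + 2 * b * (q + 1)) * x := by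
  ring

theorem core_final (q b : ℕ) (hb : 1 ≤ b) (hdom : Dominance q) : ∃ p₁ : ℕ, ∀ p ≥ p₁,
    ∀ F ∈ Good, (2 : ℂ) ^ p • F = ∑ k ∈ range (p + 1), (p.choose k : ℂ) •
      ((Su (p.choose 2) (k * (p - k)) : GI) : PowerSeries ℂ) →
    ∀ (T : Fin q → GIˣ) (c : Fin q → ℂ) (r : ℝ) (ν : ℕ),
    1 - 1 / (p : ℝ) ^ 2 ≤ r → r ≤ 1 - 1 / ((p : ℝ) ^ 2) ^ b → (ν : ℝ) * (1 - r) ≤ 1 →
    ¬ (X : PowerSeries ℂ) ^ (ν + 1) ∣ Wr T →
    (∀ z : ℂ, ‖z‖ ≤ r → ‖ev z F - ev z (Fs T c)‖ ≤ Real.exp (-(p : ℝ) ^ 2)) →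
    (∀ l, ∀ z : ℂ, ‖z‖ ≤ r → ‖ld (T l) z‖ ≤ ((p : ℝ) ^ 2) ^ b) → False := by
  obtain ⟨ε, η, hε, hη, p₀, hdom⟩ := hdom
  -- constants
  set CA : ℝ := (q + 1) * (Real.exp 4 * (q.factorial * ((q + 2) ^ (q + 1)) ^ q)
    * (4 * q + 5) ^ (q + 1)) with hCA
  set mA : ℕ := 2 * b * (q + 1) * q + 2 * (q + 1) with hmA
  set CB : ℝ := Real.exp 4 * ((q + 1) * (q.factorial * ((q + 2) ^ (q + 1)) ^ q)
    * (q + 2) ^ (q + 1)) with hCB
  set mB : ℕ := 2 * b * (q + 1) * q + 2 * b * (q + 1) with hmB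
  obtain ⟨pA, hpA⟩ := poly_le_exp CA mA hη
  obtain ⟨pB, hpB⟩ := poly_le_exp CB mB one_pos
  obtain ⟨pC, hpC⟩ := exists_nat_gt ((q + 1) / ε)
  refine ⟨p₀ + pA + pB + pC + 2 * q + 5, fun p hp F hF hFS T c r ν hr1 hr2 hν hν' herr hld => ?_⟩
  have hp0 : p₀ ≤ p := by omega
  have hpA' : pA ≤ p := by omega
  have hpB' : pB ≤ p := by omega
  have hpC' : pC ≤ p := by omega
  have hp5 : 5 ≤ p := by omega
  have hpq : 2 * q < p := by omega
  have hpR : (5 : ℝ) ≤ p := by exact_mod_cast hp5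
  have hp1 : (1 : ℝ) ≤ p := by linarith
  have hp2 : (25 : ℝ) ≤ (p : ℝ) ^ 2 := by nlinarith
  set D : ℝ := (p : ℝ) ^ 2 with hD
  have hD1 : 1 ≤ D := by linarith
  have hDp : 0 < D := by linarith
  have hDb : D ≤ D ^ b := le_self_pow₀ hD1 (by omega)
  have hDb1 : 1 ≤ D ^ b := one_le_pow₀ hD1
  have h1D : 1 / D ≤ 1 / 25 := one_div_le_one_div_of_le (by norm_num) hp2
  have hDbinv : 0 < 1 / D ^ b := by positivity
  have hr34 : 3 / 4 ≤ r := by linarith
  have hrlt : r < 1 := by linarith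
  have hxr : 1 / (1 - r) ≤ D ^ b := by
    rw [div_le_iff₀ (by linarith)]
    have : D ^ b * (1 / D ^ b) ≤ D ^ b * (1 - r) := by
      gcongr; linarith
    have h2 : D ^ b * (1 / D ^ b) = 1 := by field_simp
    linarith
  set Y : ℝ := (q + 2) * D ^ b with hY
  have hY1 : 1 ≤ Y := by
    have : (0 : ℝ) ≤ q := by positivity
    nlinarith
  set H : ℝ := q.factorial * (Y ^ (q + 1)) ^ q with hH
  have hH0 : 0 ≤ H := by positivity
  have hPb : ∀ i, ∀ w : ℂ, ‖w‖ ≤ 2 * r - 1 → ‖ev w (Pm T i)‖ ≤ H := fun i w hw =>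
    Pm_bound T hrlt hld (by positivity) hxr (Y := Y) (by rw [hY]; linarith) hY1 i hw
  -- the common order
  classical
  have hlast : ∃ m, m ≤ ν ∧ coeff m (Pm T (Fin.last q)) ≠ 0 := by
    by_contra hcon
    push Not at hcon
    apply hν'
    have h1 : (X : PowerSeries ℂ) ^ (ν + 1) ∣ Pm T (Fin.last q) := by
      rw [PowerSeries.X_pow_dvd_iff]
      intro m hm
      exact hcon m (by omega)
    rw [Pm_last] at h1
    have h2 : Wr T = (-1) ^ q * ((-1) ^ q * Wr T) := by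
      rw [← mul_assoc, ← mul_pow]; simp
    rw [h2]
    exact Dvd.dvd.mul_left h1 _
  have hex : ∃ m, ∃ i, coeff m (Pm T i) ≠ 0 := by
    obtain ⟨m, -, hm⟩ := hlast
    exact ⟨m, _, hm⟩
  set n0 := Nat.find hex with hn0
  have hn0ν : n0 ≤ ν := by
    obtain ⟨m, hm1, hm2⟩ := hlast
    exact (Nat.find_le (h := hex) ⟨_, hm2⟩ : n0 ≤ m).trans hm1
  have hn0dvd : ∀ i, (X : PowerSeries ℂ) ^ n0 ∣ Pm T i := by
    intro i
    rw [PowerSeries.X_pow_dvd_iff]
    intro m hm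
    by_contra hne
    exact Nat.find_min hex hm ⟨i, hne⟩
  obtain ⟨i0, hi0⟩ : ∃ i, coeff n0 (Pm T i) ≠ 0 := Nat.find_spec hex
  set Pt : Fin (q + 1) → PowerSeries ℂ := fun i => shift n0 (Pm T i) with hPt
  have hPtG : ∀ i, Pt i ∈ GI := fun i => shift_mem_GI (Pm_mem T i)
  have hRpos : 0 < 2 * r - 1 := by linarith
  have hR1 : 2 * r - 1 < 1 := by linarith
  have hR14 : 1 / 4 ≤ 2 * r - 1 := by linarith
  have hRn : Real.exp (-4) ≤ (2 * r - 1) ^ n0 := pow_R_ge hr34 hrlt.le hn0ν hν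
  have hdivR : ∀ B : ℝ, 0 ≤ B → B / (2 * r - 1) ^ n0 ≤ Real.exp 4 * B := by
    intro B hB
    rw [div_le_iff₀ (by positivity)]
    have h1 : Real.exp 4 * Real.exp (-4) = 1 := by rw [← Real.exp_add]; simp
    calc B = B * (Real.exp 4 * Real.exp (-4)) := by rw [h1, mul_one]
      _ ≤ B * (Real.exp 4 * (2 * r - 1) ^ n0) := by gcongr
      _ = _ := by ring
  have hPtb : ∀ i, ∀ z : ℂ, ‖z‖ ≤ 2 * r - 1 → ‖ev z (Pt i)‖ ≤ Real.exp 4 * H := by
    intro i z hz
    have h1 := schwarz_bound (GI.good (Pm_mem T i)) (hn0dvd i) hRpos hR1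
      (fun w hw => hPb i w hw.le) hz
    exact h1.trans (hdivR H hH0)
  -- the functions `Q`
  set lam : ℕ → ℕ := fun k => k * (p - k) with hlam
  have hlamN : ∀ k ≤ p, lam k ≤ p.choose 2 := fun k hk => lam_le (by omega) hk
  set Q : ℕ → PowerSeries ℂ := fun k => ∑ i : Fin (q + 1), Pt i * useq (Su (p.choose 2) (lam k)) i
    with hQ
  have hQG : ∀ k, Q k ∈ GI := fun k =>
    GI.sum_mem fun i _ => GI.mul_mem (hPtG i) (useq_mem _ _)
  have hQsymm : ∀ k ≤ p, Q (p - k) = Q k := by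
    intro k hk
    have : lam (p - k) = lam k := by
      simp only [hlam]
      rw [Nat.sub_sub_self hk, mul_comm]
    simp only [hQ, this]
  have hNle : ((p.choose 2 : ℕ) : ℝ) ≤ D := by
    rw [hD]
    have h1 : p.choose 2 ≤ p ^ 2 := by
      rw [Nat.choose_two_right]
      refine (Nat.div_le_self _ _).trans ?_
      rw [pow_two]
      exact Nat.mul_le_mul_left _ (Nat.sub_le _ _)
    exact_mod_cast h1
  have hQb : ∀ k ≤ p, ∀ z : ℂ, ‖z‖ ≤ 1 / 4 → ‖ev z (Q k)‖ ≤ Real.exp (η * p) := by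
    intro k hk z hz
    have hz1 : ‖z‖ < 1 := by linarith
    have h1 : ‖ev z (Q k)‖ ≤ ∑ _i : Fin (q + 1), (Real.exp 4 * H) * ((4 * q + 5) * D) ^ (q + 1) := by
      rw [hQ]
      simp only
      rw [ev_sum _ _ (fun i _ => Good.mul_mem (GI.good (hPtG i)) (GI.good (useq_mem _ _))) hz1]
      refine (norm_sum_le _ _).trans (Finset.sum_le_sum fun i _ => ?_)
      rw [ev_mul (GI.good (hPtG i)) (GI.good (useq_mem _ _)) hz1, norm_mul]
      have h2 := useq_bound (Su (p.choose 2) (lam k)) (q := q + 1) (Nat.succ_pos q) (R := 1 / 4)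
        (r' := 1 / 2) (g := (p.choose 2 : ℕ)) (by norm_num) (by norm_num) (by positivity)
        (fun z hz => norm_sser_Su (hlamN k hk) hz) (i := (i : ℕ)) i.2.le hz
      have h3 : ((q + 1 : ℕ) : ℝ) / (1 / 2 - 1 / 4) + ((p.choose 2 : ℕ) : ℝ)
          ≤ (4 * q + 5) * D := by
        push_cast
        have h4 : ((q : ℝ) + 1) / (1 / 2 - 1 / 4) = 4 * (q + 1) := by ring
        rw [h4]
        have h5 : (0 : ℝ) ≤ q := by positivity
        nlinarith
      have h4 : (1 : ℝ) ≤ (4 * q + 5) * D := by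
        have h5 : (0 : ℝ) ≤ q := by positivity
        nlinarith
      have h5 : 0 ≤ ((q + 1 : ℕ) : ℝ) / (1 / 2 - 1 / 4) + ((p.choose 2 : ℕ) : ℝ) := by
        apply add_nonneg _ (by positivity)
        apply div_nonneg (by positivity) (by norm_num)
      have h6 : ‖ev z (useq (Su (p.choose 2) (lam k)) i)‖ ≤ ((4 * q + 5) * D) ^ (q + 1) :=
        h2.trans ((pow_le_pow_left₀ h5 h3 _).trans (pow_le_pow_right₀ h4 i.2.le))
      exact mul_le_mul (hPtb i z (hz.trans hR14)) h6 (norm_nonneg _) (by positivity)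
    refine h1.trans ?_
    refine le_trans (le_of_eq ?_) (hpA p hpA')
    rw [Finset.sum_const, Finset.card_univ, Fintype.card_fin, nsmul_eq_mul, hCA, hH, hY, hD, hmA]
    push_cast
    exact arithA _ _ _ _ _ _ _ _
  -- the small sum
  have hLopPt : X ^ n0 * Lop Pt F = Lop (Pm T) (F - Fs T c) := by
    rw [Lop_sub, Lop_Pm_Fs, sub_zero, Lop, Lop, Finset.mul_sum]
    refine Finset.sum_congr rfl fun i _ => ?_
    rw [hPt, ← mul_assoc, ← shift_spec (hn0dvd i)]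
  have hLopG : Lop (Pm T) (F - Fs T c) ∈ Good :=
    Good.sum_mem fun i _ => Good.mul_mem (GI.good (Pm_mem T i))
      (theta_iter_mem_Good (Good.sub_mem hF (Fs_mem T c)) _)
  have hLopsmall : ∀ z : ℂ, ‖z‖ ≤ 1 / 4 → ‖ev z (Lop Pt F)‖ ≤
      Real.exp 4 * ((q + 1) * (H * (Y ^ (q + 1) * Real.exp (-D)))) := by
    intro z hz
    have h1 : Lop Pt F = shift n0 (Lop (Pm T) (F - Fs T c)) := by
      rw [← hLopPt, shift_X_pow_mul]
    rw [h1]
    have h2 : ∀ w : ℂ, ‖w‖ = 2 * r - 1 → ‖ev w (Lop (Pm T) (F - Fs T c))‖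
        ≤ (q + 1) * (H * (Y ^ (q + 1) * Real.exp (-D))) := by
      intro w hw
      have hw1 : ‖w‖ < 1 := by rw [hw]; exact hR1
      rw [Lop, ev_sum _ _ (fun i _ => Good.mul_mem (GI.good (Pm_mem T i))
        (theta_iter_mem_Good (Good.sub_mem hF (Fs_mem T c)) _)) hw1]
      refine (norm_sum_le _ _).trans ?_
      have h3 : ∀ i : Fin (q + 1), ‖ev w (Pm T i * (theta ℂ)^[(i : ℕ)] (F - Fs T c))‖
          ≤ H * (Y ^ (q + 1) * Real.exp (-D)) := by
        intro i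
        rw [ev_mul (GI.good (Pm_mem T i)) (theta_iter_mem_Good (Good.sub_mem hF (Fs_mem T c)) _)
          hw1, norm_mul]
        have h4 := theta_iter_bound (Good.sub_mem hF (Fs_mem T c)) (q := q + 1) (Nat.succ_pos q)
          (R := 2 * r - 1) (r' := r) (B := Real.exp (-D)) (by linarith) hrlt (fun z hz => by
            rw [ev_sub hF (Fs_mem T c) (lt_of_le_of_lt hz hrlt)]
            exact herr z hz) (i := (i : ℕ)) i.2.le hw.le
        have h5 : ((q + 1 : ℕ) : ℝ) / (r - (2 * r - 1)) ≤ Y := by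
          rw [show r - (2 * r - 1) = 1 - r by ring, div_eq_mul_one_div, hY]
          push_cast
          have h6 : ((q : ℝ) + 1) * (1 / (1 - r)) ≤ (q + 1) * D ^ b := by gcongr
          linarith
        have h6 : 0 ≤ ((q + 1 : ℕ) : ℝ) / (r - (2 * r - 1)) := by
          apply div_nonneg (by positivity); linarith
        have h7 : (((q + 1 : ℕ) : ℝ) / (r - (2 * r - 1))) ^ (i : ℕ) ≤ Y ^ (q + 1) :=
          (pow_le_pow_left₀ h6 h5 _).trans (pow_le_pow_right₀ hY1 i.2.le)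
        have h8 : ‖ev w ((theta ℂ)^[(i : ℕ)] (F - Fs T c))‖ ≤ Y ^ (q + 1) * Real.exp (-D) :=
          h4.trans (mul_le_mul_of_nonneg_right h7 (Real.exp_pos _).le)
        exact mul_le_mul (hPb i w hw.le) h8 (norm_nonneg _) hH0
      calc ∑ i : Fin (q + 1), ‖ev w (Pm T i * (theta ℂ)^[(i : ℕ)] (F - Fs T c))‖
          ≤ ∑ _i : Fin (q + 1), H * (Y ^ (q + 1) * Real.exp (-D)) :=
            Finset.sum_le_sum fun i _ => h3 i
        _ = _ := by
            rw [Finset.sum_const, Finset.card_univ, Fintype.card_fin, nsmul_eq_mul]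
            push_cast; ring
    have h3 := schwarz_bound hLopG (n := n0) ⟨_, hLopPt.symm⟩ hRpos hR1 h2 (hz.trans hR14)
    exact h3.trans (hdivR _ (by positivity))
  have hsmall : ∀ z : ℂ, ‖z‖ ≤ 1 / 4 →
      ‖∑ k ∈ range (p + 1), (p.choose k : ℂ) * (1 + z) ^ (p.choose 2 - k * (p - k))
          * (1 - z) ^ (k * (p - k)) * ev z (Q k)‖ ≤ Real.exp (-(3 * p)) := by
    intro z hz
    have hz1 : ‖z‖ < 1 := by linarith
    have h1 : ∑ k ∈ range (p + 1), (p.choose k : ℂ) * (1 + z) ^ (p.choose 2 - k * (p - k))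
          * (1 - z) ^ (k * (p - k)) * ev z (Q k) = (2 : ℂ) ^ p * ev z (Lop Pt F) := by
      rw [← ev_smul, ← Lop_smul, hFS, Lop_sum]
      have hSG : ∀ k, Lop Pt ((p.choose k : ℂ) •
          ((Su (p.choose 2) (k * (p - k)) : GI) : PowerSeries ℂ)) ∈ Good := by
        intro k
        rw [Lop_smul, Lop_unit]
        exact smul_mem_Good _ (Good.mul_mem (GI.good (hQG k)) (GI.good (unit_mem _)))
      rw [ev_sum _ _ (fun k _ => hSG k) hz1]
      refine Finset.sum_congr rfl fun k _ => ?_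
      rw [Lop_smul, Lop_unit, ev_smul, ev_mul (GI.good (hQG k)) (GI.good (unit_mem _)) hz1]
      have h2 := tv_Su (p.choose 2) (k * (p - k)) hz1
      rw [tv] at h2
      rw [h2]
      simp only [hQ, hlam]
      ring
    rw [h1, norm_mul, norm_pow, Complex.norm_ofNat]
    have h2 := hLopsmall z hz
    have h3 := hpB p hpB'
    rw [one_mul] at h3
    have h4 : (2 : ℝ) ^ p ≤ Real.exp p := by
      have : (2 : ℝ) ≤ Real.exp 1 := by
        have := Real.add_one_le_exp (1 : ℝ)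
        linarith
      calc (2 : ℝ) ^ p ≤ (Real.exp 1) ^ p := by gcongr
        _ = Real.exp p := by rw [← Real.exp_nat_mul, mul_one]
    have h5 : Real.exp (-D) ≤ Real.exp (-(5 * p)) := by
      apply Real.exp_le_exp.mpr
      rw [hD]; nlinarith
    have h6 : Real.exp 4 * ((q + 1) * (H * (Y ^ (q + 1) * Real.exp (-D))))
        = CB * (p : ℝ) ^ mB * Real.exp (-D) := by
      rw [hCB, hH, hY, hD, hmB]
      exact arithB _ _ _ _ _ _ _ _
    rw [h6] at h2
    calc (2 : ℝ) ^ p * ‖ev z (Lop Pt F)‖ ≤ Real.exp p * (Real.exp p * Real.exp (-(5 * p))) := by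
          apply mul_le_mul h4 _ (norm_nonneg _) (Real.exp_pos _).le
          refine h2.trans ?_
          apply mul_le_mul h3 h5 (Real.exp_pos _).le (Real.exp_pos _).le
      _ = Real.exp (-(3 * p)) := by
          rw [← Real.exp_add, ← Real.exp_add]; congr 1; ring
  have hdiv := hdom p hp0 Q hQG hQsymm hQb hsmall
  have hceil : q + 1 ≤ ⌈ε * p⌉₊ := by
    have h1 : ((q : ℝ) + 1) / ε < p := lt_of_lt_of_le hpC (by exact_mod_cast hpC')
    rw [div_lt_iff₀ hε] at h1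
    have h2 : ((q + 1 : ℕ) : ℝ) ≤ ⌈ε * p⌉₊ := by
      push_cast
      calc (q : ℝ) + 1 ≤ p * ε := h1.le
        _ = ε * p := mul_comm _ _
        _ ≤ _ := Nat.le_ceil _
    exact_mod_cast h2
  have hfin := core_alg (N := p.choose 2) Pt (fun j : Fin (q + 1) => lam j) (by
    intro i j hij
    simp only [hlam] at hij
    have hi := i.2
    have hj := j.2
    have key : ∀ a c : ℕ, a ≤ q → c ≤ q → a < c → a * (p - a) < c * (p - c) := by
      intro a c ha hc hac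
      obtain ⟨d, rfl⟩ := Nat.exists_eq_add_of_lt hac
      obtain ⟨e, he⟩ : ∃ e, p = 2 * (a + d + 1) + e + 1 := ⟨p - 2 * (a + d + 1) - 1, by omega⟩
      have e1 : p - a = a + 2 * d + 2 + e + 1 := by omega
      have e2 : p - (a + d + 1) = a + d + 1 + e + 1 := by omega
      rw [e1, e2]
      nlinarith [Nat.zero_le a, Nat.zero_le d, Nat.zero_le e]
    apply Fin.ext
    rcases Nat.lt_trichotomy (i : ℕ) (j : ℕ) with h | h | h
    · exact absurd hij (key i j (by omega) (by omega) h).ne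
    · exact h
    · exact absurd hij (key j i (by omega) (by omega) h).ne')
    (fun j => hlamN j (by omega)) (fun j => by
      rw [Lop_unit]
      exact Dvd.dvd.mul_right ((pow_dvd_pow _ hceil).trans (hdiv j (by omega))) _)
  apply hi0
  have := hfin i0
  rw [hPt] at this
  simp only at this
  rw [shift, coeff_mk, zero_add] at this
  exact this

end Pool.Agent.Helper52
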