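import Mathlib

/-!
Power series over `ℂ` converging absolutely on the open unit disc, their evaluation, and the
Euler operator `theta = X d/dX`.
-/

namespace Pool.Agent.Helper52

open PowerSeries Finset

/-- the Euler operator `X d/dX` -/
noncomputable def theta (K : Type*) [CommRing K] : Derivation K (PowerSeries K) (PowerSeries K) :=
  (PowerSeries.X : PowerSeries K) • PowerSeries.derivative K

theorem theta_apply {K : Type*} [CommRing K] (f : PowerSeries K) :
    theta K f = PowerSeries.X * PowerSeries.derivative K f := rfl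

theorem coeff_theta {K : Type*} [CommRing K] (f : PowerSeries K) (n : ℕ) :
    coeff n (theta K f) = n * coeff n f := by
  rw [theta_apply]
  cases n with
  | zero => simp
  | succ n =>
    rw [PowerSeries.coeff_succ_X_mul, PowerSeries.coeff_derivative]
    push_cast
    ring

/-- power series converging absolutely in the open unit disc -/
def Good : Subring (PowerSeries ℂ) where
  carrier := {a | ∀ r : ℝ, 0 ≤ r → r < 1 → Summable (fun n => ‖coeff n a‖ * r ^ n)}
  mul_mem' := by
    intro a b ha hb r hr0 hr1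
    have h1 : Summable fun n => ‖coeff n a * (r : ℂ) ^ n‖ := by
      refine (ha r hr0 hr1).congr fun n => ?_
      rw [norm_mul, norm_pow, Complex.norm_real, Real.norm_of_nonneg hr0]
    have h2 : Summable fun n => ‖coeff n b * (r : ℂ) ^ n‖ := by
      refine (hb r hr0 hr1).congr fun n => ?_
      rw [norm_mul, norm_pow, Complex.norm_real, Real.norm_of_nonneg hr0]
    refine (summable_norm_sum_mul_antidiagonal_of_summable_norm h1 h2).congr fun n => ?_
    rw [coeff_mul]
    rw [show (∑ kl ∈ antidiagonal n, coeff kl.1 a * (r : ℂ) ^ kl.1 * (coeff kl.2 b * (r : ℂ) ^ kl.2))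
        = (∑ kl ∈ antidiagonal n, coeff kl.1 a * coeff kl.2 b) * (r : ℂ) ^ n from ?_]
    · rw [norm_mul, norm_pow, Complex.norm_real, Real.norm_of_nonneg hr0]
    · rw [Finset.sum_mul]
      refine Finset.sum_congr rfl fun kl hkl => ?_
      rw [← Finset.HasAntidiagonal.mem_antidiagonal.mp hkl, pow_add]
      ring
  one_mem' := by
    intro r hr0 hr1
    refine summable_of_ne_finset_zero (s := {0}) fun n hn => ?_
    rw [coeff_one, if_neg (by simpa using hn)]
    simp
  add_mem' := by
    intro a b ha hb r hr0 hr1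
    refine Summable.of_nonneg_of_le (fun n => by positivity) (fun n => ?_)
      ((ha r hr0 hr1).add (hb r hr0 hr1))
    rw [map_add, ← add_mul]
    exact mul_le_mul_of_nonneg_right (norm_add_le _ _) (by positivity)
  zero_mem' := by
    intro r hr0 hr1
    simp
  neg_mem' := by
    intro a ha r hr0 hr1
    simpa using ha r hr0 hr1

theorem mem_Good {a : PowerSeries ℂ} :
    a ∈ Good ↔ ∀ r : ℝ, 0 ≤ r → r < 1 → Summable (fun n => ‖coeff n a‖ * r ^ n) := Iff.rfl

/-- evaluation of a power series -/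
noncomputable def ev (z : ℂ) (a : PowerSeries ℂ) : ℂ := ∑' n, coeff n a * z ^ n

theorem Good.summable_norm {a : PowerSeries ℂ} (ha : a ∈ Good) {z : ℂ} (hz : ‖z‖ < 1) :
    Summable fun n => ‖coeff n a * z ^ n‖ := by
  refine (ha ‖z‖ (norm_nonneg z) hz).congr fun n => ?_
  rw [norm_mul, norm_pow]

theorem Good.summable {a : PowerSeries ℂ} (ha : a ∈ Good) {z : ℂ} (hz : ‖z‖ < 1) :
    Summable fun n => coeff n a * z ^ n := (Good.summable_norm ha hz).of_norm

/-- evaluation as a ring homomorphism -/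
noncomputable def evHom (z : ℂ) (hz : ‖z‖ < 1) : Good →+* ℂ where
  toFun a := ev z a
  map_one' := by
    simp only [ev, OneMemClass.coe_one, coeff_one]
    rw [tsum_eq_single 0]
    · simp
    · intro n hn; simp [hn]
  map_zero' := by simp [ev]
  map_add' := by
    intro a b
    simp only [ev, Subring.coe_add, map_add, add_mul]
    exact (Good.summable a.2 hz).tsum_add (Good.summable b.2 hz)
  map_mul' := by
    intro a b
    simp only [ev, Subring.coe_mul]
    rw [tsum_mul_tsum_eq_tsum_sum_antidiagonal_of_summable_norm (Good.summable_norm a.2 hz)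
      (Good.summable_norm b.2 hz)]
    refine tsum_congr fun n => ?_
    rw [coeff_mul, Finset.sum_mul]
    refine Finset.sum_congr rfl fun kl hkl => ?_
    rw [← Finset.HasAntidiagonal.mem_antidiagonal.mp hkl, pow_add]
    ring

theorem evHom_apply (z : ℂ) (hz : ‖z‖ < 1) (a : Good) : evHom z hz a = ev z a := rfl

section

variable {a b : PowerSeries ℂ} {z : ℂ}

theorem ev_mul (ha : a ∈ Good) (hb : b ∈ Good) (hz : ‖z‖ < 1) :
    ev z (a * b) = ev z a * ev z b :=
  (evHom z hz).map_mul ⟨a, ha⟩ ⟨b, hb⟩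

theorem ev_add (ha : a ∈ Good) (hb : b ∈ Good) (hz : ‖z‖ < 1) :
    ev z (a + b) = ev z a + ev z b :=
  (evHom z hz).map_add ⟨a, ha⟩ ⟨b, hb⟩

theorem ev_zero_series : ev z 0 = 0 := by simp [ev]

theorem ev_one (hz : ‖z‖ < 1) : ev z 1 = 1 := (evHom z hz).map_one

theorem ev_zero (a : PowerSeries ℂ) : ev 0 a = constantCoeff a := by
  simp only [ev]
  rw [tsum_eq_single 0]
  · simp
  · intro n hn; simp [hn]

end

theorem C_mem_Good (c : ℂ) : PowerSeries.C c ∈ Good := by
  intro r hr0 hr1
  refine summable_of_ne_finset_zero (s := {0}) fun n hn => ?_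
  rw [coeff_C, if_neg (by simpa using hn)]
  simp

theorem smul_mem_Good (c : ℂ) {a : PowerSeries ℂ} (ha : a ∈ Good) : c • a ∈ Good := by
  rw [PowerSeries.smul_eq_C_mul]
  exact Good.mul_mem (C_mem_Good c) ha

theorem ev_smul (c : ℂ) (a : PowerSeries ℂ) (z : ℂ) : ev z (c • a) = c * ev z a := by
  simp only [ev]
  rw [← tsum_mul_left]
  refine tsum_congr fun n => ?_
  rw [PowerSeries.coeff_smul, smul_eq_mul, mul_assoc]

theorem X_mem_Good : (PowerSeries.X : PowerSeries ℂ) ∈ Good := by
  intro r hr0 hr1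
  refine summable_of_ne_finset_zero (s := {1}) fun n hn => ?_
  rw [coeff_X, if_neg (by simpa using hn)]
  simp

theorem ev_X (z : ℂ) : ev z PowerSeries.X = z := by
  simp only [ev]
  rw [tsum_eq_single 1]
  · simp
  · intro n hn; rw [coeff_X, if_neg hn]; simp

/-- shifted series: divide by `X ^ n` -/
noncomputable def shift (n : ℕ) (a : PowerSeries ℂ) : PowerSeries ℂ :=
  PowerSeries.mk fun m => coeff (m + n) a

theorem shift_spec {n : ℕ} {a : PowerSeries ℂ} (h : (PowerSeries.X : PowerSeries ℂ) ^ n ∣ a) :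
    a = PowerSeries.X ^ n * shift n a := by
  ext m
  rw [PowerSeries.coeff_X_pow_mul']
  split_ifs with hm
  · rw [shift, coeff_mk, Nat.sub_add_cancel hm]
  · exact (PowerSeries.X_pow_dvd_iff.mp h) m (by omega)

theorem shift_mem_Good {n : ℕ} {a : PowerSeries ℂ} (ha : a ∈ Good) : shift n a ∈ Good := by
  intro r hr0 hr1
  rcases eq_or_lt_of_le hr0 with rfl | hr
  · refine summable_of_ne_finset_zero (s := {0}) fun m hm => ?_
    have : m ≠ 0 := by simpa using hm
    simp [this]
  · have := (summable_nat_add_iff n).mpr (ha r hr0 hr1)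
    have h2 := this.mul_right (r ^ n)⁻¹
    refine h2.congr fun m => ?_
    rw [shift, coeff_mk, pow_add]
    field_simp

theorem ev_eq_pow_mul_shift {n : ℕ} {a : PowerSeries ℂ}
    (h : (PowerSeries.X : PowerSeries ℂ) ^ n ∣ a) (ha : a ∈ Good) {z : ℂ} (hz : ‖z‖ < 1) :
    ev z a = z ^ n * ev z (shift n a) := by
  conv_lhs => rw [shift_spec h]
  rw [ev_mul (Good.pow_mem X_mem_Good n) (shift_mem_Good ha) hz]
  congr 1
  have := (evHom z hz).map_pow ⟨PowerSeries.X, X_mem_Good⟩ n
  simpa [evHom_apply, ev_X] using this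

theorem theta_mem_Good {a : PowerSeries ℂ} (ha : a ∈ Good) : theta ℂ a ∈ Good := by
  intro r hr0 hr1
  obtain ⟨s, hrs, hs1⟩ := exists_between hr1
  have hs0 : 0 < s := lt_of_le_of_lt hr0 hrs
  have h1 := ha s hs0.le hs1
  -- `n (r/s)^n` is bounded
  have h2 : Summable fun n : ℕ => (n : ℝ) * (r / s) ^ n := by
    have := summable_pow_mul_geometric_of_norm_lt_one 1 (r := r / s) (by
      rw [Real.norm_of_nonneg (by positivity), div_lt_one hs0]; exact hrs)
    simpa using this
  obtain ⟨B, hB⟩ : ∃ B : ℝ, ∀ n : ℕ, (n : ℝ) * (r / s) ^ n ≤ B := by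
    obtain ⟨B, hB⟩ := h2.tendsto_atTop_zero.bddAbove_range
    exact ⟨B, fun n => hB ⟨n, rfl⟩⟩
  refine Summable.of_nonneg_of_le (fun n => by positivity) (fun n => ?_) (h1.mul_right B)
  rw [coeff_theta, norm_mul, Complex.norm_natCast]
  have h3 : (n : ℝ) * ‖coeff n a‖ * r ^ n = ‖coeff n a‖ * s ^ n * ((n : ℝ) * (r / s) ^ n) := by
    rw [div_pow]
    field_simp
  rw [h3]
  exact mul_le_mul_of_nonneg_left (hB n) (by positivity)

theorem ev_differentiableOn {a : PowerSeries ℂ} (ha : a ∈ Good) :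
    DifferentiableOn ℂ (fun z => ev z a) (Metric.ball 0 1) := by
  intro z hz
  rw [mem_ball_zero_iff] at hz
  obtain ⟨s, hzs, hs1⟩ := exists_between hz
  have hs0 : 0 < s := lt_of_le_of_lt (norm_nonneg z) hzs
  have := Complex.differentiableOn_tsum_of_summable_norm (U := Metric.ball (0 : ℂ) s)
    (F := fun n z => coeff n a * z ^ n) (ha s hs0.le hs1) (fun n => by fun_prop)
    Metric.isOpen_ball (fun n w hw => by
      rw [norm_mul, norm_pow]
      rw [mem_ball_zero_iff] at hw
      gcongr)
  exact (this.differentiableAt (Metric.isOpen_ball.mem_nhds (by simpa using hzs))).differentiableWithinAt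

theorem ev_theta {a : PowerSeries ℂ} (ha : a ∈ Good) {z : ℂ} (hz : ‖z‖ < 1) :
    ev z (theta ℂ a) = z * deriv (fun w => ev w a) z := by
  obtain ⟨s, hzs, hs1⟩ := exists_between hz
  have hs0 : 0 < s := lt_of_le_of_lt (norm_nonneg z) hzs
  have := Complex.hasSum_deriv_of_summable_norm (U := Metric.ball (0 : ℂ) s)
    (F := fun n z => coeff n a * z ^ n) (z := z) (ha s hs0.le hs1) (fun n => by fun_prop)
    Metric.isOpen_ball (fun n w hw => by
      rw [norm_mul, norm_pow]
      rw [mem_ball_zero_iff] at hw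
      gcongr) (by simpa using hzs)
  have h2 := this.mul_left z
  rw [show (fun w => ev w a) = fun w => ∑' n, coeff n a * w ^ n from rfl, ← h2.tsum_eq]
  simp only [ev]
  refine tsum_congr fun n => ?_
  rw [coeff_theta]
  cases n with
  | zero => simp
  | succ n =>
    simp only [deriv_const_mul_field', deriv_pow_field, Nat.add_sub_cancel]
    rw [pow_succ]
    ring

/-- good power series with integer coefficients -/
noncomputable def GI : Subring (PowerSeries ℂ) :=
  Good ⊓ (PowerSeries.map (Int.castRingHom ℂ)).range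

theorem GI_le_Good : GI ≤ Good := inf_le_left

theorem GI.good {a : PowerSeries ℂ} (ha : a ∈ GI) : a ∈ Good := ha.1

theorem GI.int {a : PowerSeries ℂ} (ha : a ∈ GI) (n : ℕ) : ∃ m : ℤ, coeff n a = m := by
  obtain ⟨b, hb⟩ := ha.2
  exact ⟨coeff n b, by rw [← hb]; simp⟩

theorem mem_GI {a : PowerSeries ℂ} (h1 : a ∈ Good) (h2 : ∀ n, ∃ m : ℤ, coeff n a = m) :
    a ∈ GI := by
  choose f hf using h2
  exact ⟨h1, ⟨PowerSeries.mk f, by ext n; simp [hf n]⟩⟩

theorem theta_mem_GI {a : PowerSeries ℂ} (ha : a ∈ GI) : theta ℂ a ∈ GI := by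
  refine mem_GI (theta_mem_Good (GI.good ha)) fun n => ?_
  obtain ⟨m, hm⟩ := GI.int ha n
  exact ⟨n * m, by rw [coeff_theta, hm]; push_cast; rfl⟩

theorem shift_mem_GI {n : ℕ} {a : PowerSeries ℂ} (ha : a ∈ GI) : shift n a ∈ GI := by
  refine mem_GI (shift_mem_Good (GI.good ha)) fun m => ?_
  obtain ⟨k, hk⟩ := GI.int ha (m + n)
  exact ⟨k, by rw [shift, coeff_mk, hk]⟩

theorem X_mem_GI : (PowerSeries.X : PowerSeries ℂ) ∈ GI :=
  mem_GI X_mem_Good fun n => by
    rw [coeff_X]; split_ifs
    · exact ⟨1, by simp⟩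
    · exact ⟨0, by simp⟩

/-- a nonzero coefficient of an element of `GI` has norm at least one -/
theorem GI.one_le_norm {a : PowerSeries ℂ} (ha : a ∈ GI) {n : ℕ} (h : coeff n a ≠ 0) :
    1 ≤ ‖coeff n a‖ := by
  obtain ⟨m, hm⟩ := GI.int ha n
  rw [hm] at h ⊢
  rw [Complex.norm_intCast]
  have : m ≠ 0 := by rintro rfl; simp at h
  exact_mod_cast Int.one_le_abs this

end Pool.Agent.Helper52
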