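import Mathlib

/-!
The hole filling iteration.
-/

namespace Pool.Agent.Helper52

theorem hole_filling (P : ℝ → ℝ → Prop) (hmono : ∀ r r' g, r ≤ r' → P r' g → P r g)
    (hmono2 : ∀ r g g', g ≤ g' → P r g → P r g')
    (hclosed : ∀ r g, (∀ ε > 0, P r (g + ε)) → P r g) {r0 r1 E : ℝ} (h : r0 < r1)
    (hstep : ∀ r r' g, r0 ≤ r → r < r' → r' ≤ r1 → 0 ≤ g → P r' g →
      P r (E / (r' - r) ^ 6 + g / 128)) (hE : 0 ≤ E) {g1 : ℝ} (hg : 0 ≤ g1) (hinf : P r1 g1) :
    P r0 (128 * E / (r1 - r0) ^ 6) := by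
  set d := r1 - r0 with hd
  have hd0 : 0 < d := by linarith
  have key : ∀ m : ℕ, ∀ g, 0 ≤ g → P (r1 - d / 2 ^ m) g →
      P r0 (128 * (1 - 1 / 2 ^ m) * (E / d ^ 6) + g / 128 ^ m) := by
    intro m
    induction m with
    | zero =>
      intro g _ hP
      simp only [pow_zero, div_one, sub_self, mul_zero, zero_mul, zero_add] at hP ⊢
      rwa [show r1 - d = r0 by rw [hd]; ring] at hP
    | succ m ih =>
      intro g hg hP
      have hpow : (0 : ℝ) < 2 ^ m := by positivity
      have h2 : d / 2 ^ m ≤ d := div_le_self hd0.le (one_le_pow₀ (by norm_num))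
      have h1 := hstep (r1 - d / 2 ^ m) (r1 - d / 2 ^ (m + 1)) g (by linarith)
        (by
          rw [pow_succ]
          have : d / (2 ^ m * 2) < d / 2 ^ m := by
            apply div_lt_div_of_pos_left hd0 hpow; linarith
          linarith)
        (by
          have : 0 ≤ d / 2 ^ (m + 1) := by positivity
          linarith) hg hP
      have h3 := ih _ (by
        apply add_nonneg
        · apply div_nonneg hE
          have : (0 : ℝ) ≤ ((r1 - d / 2 ^ (m + 1) - (r1 - d / 2 ^ m)) ^ 3) ^ 2 := sq_nonneg _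
          calc (0 : ℝ) ≤ _ := this
            _ = _ := by ring
        · positivity) h1
      convert h3 using 1
      have e1 : r1 - d / 2 ^ (m + 1) - (r1 - d / 2 ^ m) = d / 2 ^ (m + 1) := by
        rw [pow_succ]; field_simp; ring
      rw [e1, div_pow, ← pow_mul]
      have e2 : (128 : ℝ) ^ m = (2 ^ m) ^ 7 := by
        rw [← pow_mul, mul_comm m 7, pow_mul]; norm_num
      have e3 : (2 : ℝ) ^ ((m + 1) * 6) = 64 * (2 ^ m) ^ 6 := by
        rw [add_mul, pow_add, ← pow_mul]; norm_num; ring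
      rw [e3, pow_succ (128 : ℝ), e2, pow_succ (2 : ℝ)]
      field_simp
      ring
  apply hclosed
  intro ε hε
  obtain ⟨m, hm⟩ := exists_pow_lt_of_lt_one (div_pos hε (by linarith : 0 < g1 + 1))
    (by norm_num : (1 / 128 : ℝ) < 1)
  have h1 := key m g1 hg (hmono _ r1 g1 (by
    have : 0 ≤ d / 2 ^ m := by positivity
    linarith) hinf)
  refine hmono2 _ _ _ ?_ h1
  apply add_le_add
  · have : 0 ≤ E / d ^ 6 := by positivity
    have h2 : (0 : ℝ) ≤ 1 / 2 ^ m := by positivity
    rw [mul_div_assoc]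
    nlinarith
  · rw [one_div, inv_pow, lt_div_iff₀ (by linarith)] at hm
    rw [div_eq_mul_inv]
    have : (0 : ℝ) < (128 ^ m)⁻¹ := by positivity
    nlinarith

end Pool.Agent.Helper52
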