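import Pool.Agent.Helper52.Units

/-!
The key inequality: growth of the logarithmic derivatives of the terms of a short sum of units.
-/

namespace Pool.Agent.Helper52

open PowerSeries Finset Metric

/-- the sum of the terms -/
noncomputable def Fs {q : ℕ} (T : Fin q → GIˣ) (c : Fin q → ℂ) : PowerSeries ℂ :=
  ∑ l, c l • ((T l : GI) : PowerSeries ℂ)

theorem Fs_mem {q : ℕ} (T : Fin q → GIˣ) (c : Fin q → ℂ) : Fs T c ∈ Good :=
  Good.sum_mem fun l _ => smul_mem_Good _ (GI.good (unit_mem (T l)))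

theorem ev_sum {ι : Type*} (s : Finset ι) (f : ι → PowerSeries ℂ) (hf : ∀ i ∈ s, f i ∈ Good)
    {z : ℂ} (hz : ‖z‖ < 1) : ev z (∑ i ∈ s, f i) = ∑ i ∈ s, ev z (f i) := by
  classical
  induction s using Finset.induction_on with
  | empty => simp [ev_zero_series]
  | insert a s ha ih =>
    rw [Finset.sum_insert ha, Finset.sum_insert ha, ev_add (hf a (by simp))
      (Good.sum_mem fun i hi => hf i (by simp [hi])) hz, ih fun i hi => hf i (by simp [hi])]

theorem ev_Fs {q : ℕ} (T : Fin q → GIˣ) (c : Fin q → ℂ) {z : ℂ} (hz : ‖z‖ < 1) :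
    ev z (Fs T c) = ∑ l, c l * tv (T l) z := by
  rw [Fs, ev_sum _ _ (fun l _ => smul_mem_Good _ (GI.good (unit_mem (T l)))) hz]
  exact Finset.sum_congr rfl fun l _ => ev_smul _ _ _

theorem theta_iter_Fs {q : ℕ} (T : Fin q → GIˣ) (c : Fin q → ℂ) (i : ℕ) :
    (theta ℂ)^[i] (Fs T c) = ∑ l, c l • (useq (T l) i * ((T l : GI) : PowerSeries ℂ)) := by
  induction i with
  | zero => simp [Fs, useq]
  | succ i ih =>
    rw [Function.iterate_succ_apply', ih, map_sum]
    refine Finset.sum_congr rfl fun l _ => ?_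
    rw [Derivation.map_smul, ← theta_iter_unit, ← theta_iter_unit, Function.iterate_succ_apply']

theorem ev_theta_iter_Fs {q : ℕ} (T : Fin q → GIˣ) (c : Fin q → ℂ) (i : ℕ) {z : ℂ}
    (hz : ‖z‖ < 1) :
    ev z ((theta ℂ)^[i] (Fs T c)) = ∑ l, ev z (useq (T l) i) * (c l * tv (T l) z) := by
  rw [theta_iter_Fs, ev_sum _ _ (fun l _ => smul_mem_Good _ (Good.mul_mem
    (GI.good (useq_mem _ _)) (GI.good (unit_mem (T l))))) hz]
  refine Finset.sum_congr rfl fun l _ => ?_
  rw [ev_smul, ev_mul (GI.good (useq_mem _ _)) (GI.good (unit_mem (T l))) hz]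
  rw [tv]
  ring

/-- Cramer's rule for the terms -/
theorem cramer_terms {q : ℕ} (T : Fin q → GIˣ) (c : Fin q → ℂ) {z : ℂ} (hz : ‖z‖ < 1)
    (l : Fin q) :
    (c l * tv (T l) z) * ev z (Wr T) =
      ((Matrix.of fun (i l : Fin q) => ev z (useq (T l) i)).updateCol l
        (fun i => ev z ((theta ℂ)^[(i : ℕ)] (Fs T c)))).det := by
  set A : Matrix (Fin q) (Fin q) ℂ := Matrix.of fun (i l : Fin q) => ev z (useq (T l) i) with hA
  set x : Fin q → ℂ := fun l => c l * tv (T l) z with hx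
  have h1 : A.mulVec x = fun i : Fin q => ev z ((theta ℂ)^[(i : ℕ)] (Fs T c)) := by
    ext i
    rw [ev_theta_iter_Fs T c _ hz]
    rfl
  have h2 : ev z (Wr T) = A.det := by
    rw [Wr, ev_det (Matrix.of fun (i l : Fin q) => useq (T l) i)
      (fun i l => GI.good (useq_mem _ _)) hz]
    rfl
  rw [h2, ← h1, ← Matrix.cramer_apply, Matrix.cramer_eq_adjugate_mulVec, Matrix.mulVec_mulVec,
    Matrix.adjugate_mul, Matrix.smul_mulVec, Matrix.one_mulVec]
  simp [hx, mul_comm]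

/-- the logarithmic derivative of a unit -/
noncomputable def ld (T : GIˣ) (z : ℂ) : ℂ := deriv (tv T) z / tv T z

theorem norm_sser_le (T : GIˣ) {z : ℂ} (hz : ‖z‖ < 1) : ‖ev z (sser T)‖ ≤ ‖ld T z‖ := by
  rw [ev_sser T hz, norm_mul]
  calc ‖z‖ * ‖ld T z‖ ≤ 1 * ‖ld T z‖ := by gcongr
    _ = _ := one_mul _

theorem key_ineq {q : ℕ} (hq : 0 < q) (T : Fin q → GIˣ) (c : Fin q → ℂ) (hc : ∀ l, c l ≠ 0)
    {ν : ℕ} (hν : (X : PowerSeries ℂ) ^ ν ∣ Wr T) (hν' : ¬ (X : PowerSeries ℂ) ^ (ν + 1) ∣ Wr T)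
    {r R r' ρ A B g κ : ℝ} (hr : 0 ≤ r) (hrR : r < R) (hRr' : R < r') (hr'1 : r' < 1)
    (hρ : ρ < R) (hA : 0 ≤ A) (hB : 0 ≤ B) (hg : 0 ≤ g)
    (hF : ∀ z : ℂ, ‖z‖ ≤ r' → ‖ev z (Fs T c)‖ ≤ Real.exp A)
    (hs : ∀ l, ∀ z : ℂ, ‖z‖ ≤ r' → ‖ld (T l) z‖ ≤ g)
    (hlow : ∀ l, ∃ w : ℂ, ‖w‖ ≤ ρ ∧ -B ≤ Real.log ‖c l * tv (T l) w‖)
    (hκ : (R + ρ) / (R - ρ) ≤ κ) {K : ℝ}
    (hK : Real.log q.factorial + q ^ 2 * Real.log (q / (r' - R) + g) + q * A
      + ν * Real.log (1 / R) ≤ K) :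
    (∀ l, Real.log ‖c l‖ ≤ K) ∧ ∀ l, ∀ z : ℂ, ‖z‖ ≤ r →
      ‖ld (T l) z‖ ≤ 32 / (R - r) ^ 2 * ((4 / (R - r) + κ ^ 2) * K + κ * B) := by
  have hs : ∀ l, ∀ z : ℂ, ‖z‖ ≤ r' → ‖ev z (sser (T l))‖ ≤ g := fun l z hz =>
    (norm_sser_le (T l) (lt_of_le_of_lt hz hr'1)).trans (hs l z hz)
  have hR0 : 0 < R := lt_of_le_of_lt hr hrR
  have hR1 : R < 1 := hRr'.trans hr'1
  have hq' : (1 : ℝ) ≤ q := by exact_mod_cast hq
  have hY1 : 1 < (q : ℝ) / (r' - R) := by
    rw [lt_div_iff₀ (by linarith)]; linarith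
  set Y := (q : ℝ) / (r' - R) + g with hY
  have hY1' : 1 < Y := by linarith
  have hlogY : 0 < Real.log Y := Real.log_pos hY1'
  have hlogR : 0 ≤ Real.log (1 / R) := Real.log_nonneg (by rw [le_div_iff₀ hR0]; linarith)
  have hfac : (0 : ℝ) ≤ Real.log q.factorial := Real.log_nonneg (by
    exact_mod_cast Nat.one_le_iff_ne_zero.mpr q.factorial_ne_zero)
  set A' := Real.log q.factorial + q ^ 2 * Real.log Y + q * A with hA'
  have hA'0 : 0 < A' := by
    have : 0 < (q : ℝ) ^ 2 * Real.log Y := by positivity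
    have : 0 ≤ (q : ℝ) * A := by positivity
    linarith
  have hKA : A' + ν * Real.log (1 / R) ≤ K := hK
  have hνR : 0 ≤ (ν : ℝ) * Real.log (1 / R) := by positivity
  have hKpos : 0 < K := by linarith
  -- the entries
  have hexpA : Real.exp A' = q.factorial * (Y ^ q * Real.exp A) ^ q := by
    rw [hA', Real.exp_add, Real.exp_add, Real.exp_log (by positivity), mul_pow, ← pow_mul,
      ← Real.exp_nat_mul, mul_assoc]
    congr 2
    rw [show (q : ℝ) ^ 2 = ((q * q : ℕ) : ℝ) by push_cast; ring, ← Real.log_pow, Real.exp_log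
      (by positivity)]
  have hexp1 : 1 ≤ Real.exp A := Real.one_le_exp hA
  have hent : ∀ l, ∀ i : Fin q, ∀ z : ℂ, ‖z‖ ≤ R →
      ‖ev z (useq (T l) i)‖ ≤ Y ^ q * Real.exp A := by
    intro l i z hz
    have h1 := useq_bound (T l) hq hRr' hr'1 hg (hs l) (i := i) i.2.le hz
    refine h1.trans ?_
    calc Y ^ (i : ℕ) ≤ Y ^ q := pow_le_pow_right₀ hY1'.le i.2.le
      _ ≤ Y ^ q * Real.exp A := by
        apply le_mul_of_one_le_right (by positivity) hexp1
  have hent2 : ∀ i : Fin q, ∀ z : ℂ, ‖z‖ ≤ R →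
      ‖ev z ((theta ℂ)^[(i : ℕ)] (Fs T c))‖ ≤ Y ^ q * Real.exp A := by
    intro i z hz
    have h1 := theta_iter_bound (Fs_mem T c) hq hRr' hr'1 hF (i := i) i.2.le hz
    refine h1.trans ?_
    apply mul_le_mul_of_nonneg_right _ (Real.exp_pos _).le
    calc ((q : ℝ) / (r' - R)) ^ (i : ℕ) ≤ Y ^ (i : ℕ) := by
          apply pow_le_pow_left₀ (by linarith); linarith
      _ ≤ Y ^ q := pow_le_pow_right₀ hY1'.le i.2.le
  have hWr : ∀ z : ℂ, ‖z‖ ≤ R → ‖ev z (Wr T)‖ ≤ Real.exp A' := by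
    intro z hz
    rw [Wr, ev_det (Matrix.of fun (i l : Fin q) => useq (T l) i)
      (fun i l => GI.good (useq_mem _ _)) (lt_of_le_of_lt hz hR1), hexpA]
    exact det_bound _ fun i l => hent l i z hz
  have hterm : ∀ l, ∀ z : ℂ, ‖z‖ ≤ R → ‖(c l * tv (T l) z) * ev z (Wr T)‖ ≤ Real.exp A' := by
    intro l z hz
    rw [cramer_terms T c (lt_of_le_of_lt hz hR1) l, hexpA]
    apply det_bound
    intro i j
    rw [Matrix.updateCol_apply]
    split_ifs
    · exact hent2 i z hz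
    · exact hent j i z hz
  -- the reduced Wronskian
  set b := shift ν (Wr T) with hb
  have hWrG : Wr T ∈ Good := GI.good (Wr_mem T)
  have hbG : b ∈ GI := shift_mem_GI (Wr_mem T)
  have hbne : coeff 0 b ≠ 0 := by
    intro h0
    apply hν'
    rw [PowerSeries.X_pow_dvd_iff]
    intro m hm
    rcases Nat.lt_succ_iff_lt_or_eq.mp hm with h | h
    · exact (PowerSeries.X_pow_dvd_iff.mp hν) m h
    · rw [h]
      rw [hb, shift, coeff_mk, zero_add] at h0
      exact h0
  have hb0 : 1 ≤ ‖ev 0 b‖ := by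
    rw [ev_zero]
    simpa using GI.one_le_norm hbG hbne
  have hball : closedBall (0 : ℂ) R ⊆ ball 0 1 := closedBall_subset_ball hR1
  have hbanal : AnalyticOnNhd ℂ (fun z => ev z b) (closedBall 0 R) := fun z hz =>
    (ev_differentiableOn (GI.good hbG)).analyticAt (isOpen_ball.mem_nhds (hball hz))
  have hWb : ∀ z ∈ sphere (0 : ℂ) R, ev z b ≠ 0 →
      Real.log ‖ev z (Wr T)‖ = -(ν * Real.log (1 / R)) + Real.log ‖ev z b‖ := by
    intro z hz hbz
    have hzR : ‖z‖ = R := by simpa using hz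
    rw [ev_eq_pow_mul_shift hν hWrG (by rw [hzR]; exact hR1), norm_mul, norm_pow, hzR,
      Real.log_mul (by positivity) (norm_ne_zero_iff.mpr hbz), Real.log_pow, one_div, Real.log_inv]
    ring
  have main : ∀ l, Real.circleAverage (fun z => max (Real.log ‖c l * tv (T l) z‖) 0) 0 R ≤ K := by
    intro l
    have hcontT : ContinuousOn (tv (T l)) (sphere (0 : ℂ) R) :=
      ((tv_differentiableOn (T l)).continuousOn).mono (sphere_subset_closedBall.trans hball)
    have hne : ∀ z ∈ sphere (0 : ℂ) R, c l * tv (T l) z ≠ 0 := by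
      intro z hz
      have hzR : ‖z‖ = R := by simpa using hz
      exact mul_ne_zero (hc l) (tv_ne_zero (T l) (by rw [hzR]; exact hR1))
    apply avg_pos_le hR0 hbanal hb0
    · apply ContinuousOn.log
      · exact (continuousOn_const.mul hcontT).norm
      · intro z hz
        exact norm_ne_zero_iff.mpr (hne z hz)
    · exact hKpos.le
    · intro z hz hbz
      have hzR : ‖z‖ = R := by simpa using hz
      have h1 := hterm l z hzR.le
      rw [norm_mul] at h1
      have hWne : ev z (Wr T) ≠ 0 := by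
        rw [ev_eq_pow_mul_shift hν hWrG (by rw [hzR]; exact hR1)]
        refine mul_ne_zero (pow_ne_zero _ ?_) hbz
        rw [← norm_pos_iff, hzR]; exact hR0
      have h2 := Real.log_le_log (mul_pos (norm_pos_iff.mpr (hne z hz))
        (norm_pos_iff.mpr hWne)) h1
      rw [Real.log_mul (norm_ne_zero_iff.mpr (hne z hz)) (norm_ne_zero_iff.mpr hWne),
        Real.log_exp, hWb z hz hbz] at h2
      linarith
    · intro z hz hbz
      have hzR : ‖z‖ = R := by simpa using hz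
      have h1 := hWr z hzR.le
      have hWne : ev z (Wr T) ≠ 0 := by
        rw [ev_eq_pow_mul_shift hν hWrG (by rw [hzR]; exact hR1)]
        refine mul_ne_zero (pow_ne_zero _ ?_) hbz
        rw [← norm_pos_iff, hzR]; exact hR0
      have h2 := Real.log_le_log (norm_pos_iff.mpr hWne) h1
      rw [Real.log_exp, hWb z hz hbz] at h2
      linarith
  have hdiff : ∀ l, DifferentiableOn ℂ (fun z => c l * tv (T l) z) (ball 0 1) := fun l =>
    (tv_differentiableOn (T l)).const_mul (c l)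
  have hnz : ∀ l, ∀ z ∈ ball (0 : ℂ) 1, c l * tv (T l) z ≠ 0 := fun l z hz =>
    mul_ne_zero (hc l) (tv_ne_zero (T l) (by simpa using hz))
  constructor
  · intro l
    have hharm : InnerProductSpace.HarmonicOnNhd
        (fun z => Real.log ‖c l * tv (T l) z‖) (closedBall 0 R) := by
      intro z hz
      exact ((hdiff l).analyticAt (isOpen_ball.mem_nhds (hball hz))).harmonicAt_log_norm
        (hnz l z (hball hz))
    have := le_avg_pos hR0 hharm
    simp only [norm_mul, norm_tv_zero, mul_one] at this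
    have h2 := main l
    simp only [norm_mul] at h2
    linarith
  · intro l z hz
    obtain ⟨w, hw, hwB⟩ := hlow l
    have h1 := logDeriv_bound (hdiff l) (hnz l) hr hrR hR1 hρ hKpos (main l) hw hwB hκ hB z hz
    have h2 : deriv (fun z => c l * tv (T l) z) z / (c l * tv (T l) z)
        = deriv (tv (T l)) z / tv (T l) z := by
      rw [deriv_const_mul_field, mul_div_mul_left _ _ (hc l)]
    rw [h2] at h1
    exact h1

/-- size of a unit in terms of its logarithmic derivative -/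
theorem norm_tv_le (T : GIˣ) {r G : ℝ} (hr1 : r < 1)
    (hG : ∀ z : ℂ, ‖z‖ ≤ r → ‖ld T z‖ ≤ G) {z : ℂ} (hz : ‖z‖ ≤ r) :
    ‖tv T z‖ ≤ Real.exp G := by
  have hr : 0 ≤ r := (norm_nonneg z).trans hz
  have hG0 : 0 ≤ G := (norm_nonneg _).trans (hG 0 (by simpa using hr))
  obtain ⟨h, h0, hh, hexp⟩ := exists_log (tv_differentiableOn T)
    (fun z hz => tv_ne_zero T (by simpa using hz))
  have hz1 : ‖z‖ < 1 := lt_of_le_of_lt hz hr1
  have h1 : ‖h z - h 0‖ ≤ G * ‖z - 0‖ := by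
    apply (convex_closedBall (0 : ℂ) r).norm_image_sub_le_of_norm_hasDerivWithin_le
      (f' := fun z => ld T z)
    · intro w hw
      have hw1 : ‖w‖ < 1 := lt_of_le_of_lt (by simpa using hw) hr1
      exact (hh w (by simpa using hw1)).hasDerivWithinAt
    · intro w hw
      exact hG w (by simpa using hw)
    · simpa using hr
    · simpa using hz
  rw [h0, sub_zero, sub_zero] at h1
  rw [hexp z (by simpa using hz1), norm_mul, norm_tv_zero, one_mul, Complex.norm_exp]
  apply Real.exp_le_exp.mpr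
  calc (h z).re ≤ ‖h z‖ := Complex.re_le_norm _
    _ ≤ G * ‖z‖ := h1
    _ ≤ G * 1 := by gcongr
    _ = G := mul_one _

end Pool.Agent.Helper52
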