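import Mathlib
import Pool.Agent.Helper10.Gap.Kronecker

/-!
Quantitative Kronecker theorem in the form used in the gap theorem: an invertible integer matrix
all of whose eigenvalues `z` satisfy `‖z‖ ^ (16 m²) < 2` is quasi-unipotent.
-/

open Polynomial

namespace Pool.Agent.Helper52.Kron

/-- A common exponent for a finite multiset of roots of unity. -/
theorem exists_common_exponent (s : Multiset ℂ) (h : ∀ z ∈ s, ∃ n, 1 ≤ n ∧ z ^ n = 1) :
    ∃ N, 0 < N ∧ ∀ z ∈ s, z ^ N = 1 := by
  induction s using Multiset.induction_on with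
  | empty => exact ⟨1, one_pos, by simp⟩
  | cons a s ih =>
    obtain ⟨N, hN, hs⟩ := ih (fun z hz => h z (Multiset.mem_cons_of_mem hz))
    obtain ⟨n, hn, ha⟩ := h a (Multiset.mem_cons_self a s)
    refine ⟨n * N, Nat.mul_pos hn hN, ?_⟩
    intro z hz
    rcases Multiset.mem_cons.1 hz with rfl | hz
    · rw [pow_mul, ha, one_pow]
    · rw [mul_comm, pow_mul, hs z hz, one_pow]

theorem multiset_prod_X_sub_C_dvd (s : Multiset ℂ) (N : ℕ) (h : ∀ z ∈ s, z ^ N = 1) :
    (s.map (fun z => X - C z)).prod ∣ ((X : ℂ[X]) ^ N - 1) ^ (Multiset.card s) := by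
  induction s using Multiset.induction_on with
  | empty => simp
  | cons a s ih =>
    rw [Multiset.map_cons, Multiset.prod_cons, Multiset.card_cons, pow_succ']
    refine mul_dvd_mul ?_ (ih fun z hz => h z (Multiset.mem_cons_of_mem hz))
    rw [dvd_iff_isRoot]
    simp [IsRoot, h a (Multiset.mem_cons_self a s)]

theorem kronecker_quant {m : ℕ} (P : Matrix (Fin m) (Fin m) ℤ) (hP : IsUnit P)
    (hroots : ∀ z ∈ (P.charpoly.map (Int.castRingHom ℂ)).roots, ‖z‖ ^ (16 * m ^ 2) < 2) :
    ∃ N : ℕ, 0 < N ∧ IsNilpotent (P ^ N - 1) := by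
  classical
  set M := P.map (Int.castRingHom ℂ) with hM
  have hchar : P.charpoly.map (Int.castRingHom ℂ) = M.charpoly := by
    rw [hM, Matrix.charpoly_map]
  have hmem : ∀ z, z ∈ M.charpoly.roots ↔ z ∈ spectrum ℂ M := by
    intro z
    rw [Polynomial.mem_roots (Matrix.charpoly_monic M).ne_zero,
      ← Matrix.mem_spectrum_iff_isRoot_charpoly]
  have hunit : IsUnit M := by
    have := hP.map (Int.castRingHom ℂ).mapMatrix
    simpa [hM] using this
  have hspec := Pool.Agent.Helper10.Gap.kronecker_quant P (by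
    intro z hz
    refine hroots z ?_
    rw [hchar, hmem]
    exact hz)
  have hone : ∀ z ∈ M.charpoly.roots, ∃ n, 1 ≤ n ∧ z ^ n = 1 := by
    intro z hz
    rw [hmem] at hz
    rcases hspec z hz with h0 | h1
    · exfalso
      subst h0
      rw [spectrum.zero_mem_iff] at hz
      exact hz hunit
    · exact h1
  obtain ⟨N, hN, hall⟩ := exists_common_exponent _ hone
  refine ⟨N, hN, Multiset.card M.charpoly.roots, ?_⟩
  have hsplit : M.charpoly = (M.charpoly.roots.map (fun z => X - C z)).prod := by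
    have h1 := IsAlgClosed.splits M.charpoly
    have h2 := h1.eq_prod_roots
    rwa [(Matrix.charpoly_monic M).leadingCoeff, C_1, one_mul] at h2
  have hdvdC : M.charpoly ∣ ((X : ℂ[X]) ^ N - 1) ^ (Multiset.card M.charpoly.roots) := by
    conv_lhs => rw [hsplit]
    exact multiset_prod_X_sub_C_dvd _ _ hall
  have hdvdZ : P.charpoly ∣ ((X : ℤ[X]) ^ N - 1) ^ (Multiset.card M.charpoly.roots) := by
    have hinj : Function.Injective (Int.castRingHom ℂ) := Int.cast_injective
    rw [← Polynomial.map_dvd_map (Int.castRingHom ℂ) hinj (Matrix.charpoly_monic P), hchar]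
    simpa using hdvdC
  obtain ⟨q, hq⟩ := hdvdZ
  have := congrArg (aeval P) hq
  rw [map_mul, Matrix.aeval_self_charpoly, zero_mul] at this
  simpa using this

end Pool.Agent.Helper52.Kron
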