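import Pool.Agent.Helper52.Key
import Pool.Agent.Helper52.Hole

/-!
Quantitative growth estimates at one level of the induction.
-/

namespace Pool.Agent.Helper52

open PowerSeries Finset Metric

/-- the constant of stage one -/
noncomputable def Cq (q : ℕ) : ℝ :=
  3072 * (q.factorial + q + 1) + 2 * q + 128 * 3072 ^ 2 * q ^ 4

theorem log_le_lin {y lam : ℝ} (hy : 0 < y) (hl : 0 < lam) : Real.log y ≤ lam * y + 1 / lam := by
  have h1 : Real.log y = Real.log (lam * y) + Real.log (1 / lam) := by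
    rw [← Real.log_mul (by positivity) (by positivity)]
    congr 1
    field_simp
  have h2 := Real.log_le_sub_one_of_pos (mul_pos hl hy)
  have h3 := Real.log_le_sub_one_of_pos (show 0 < 1 / lam by positivity)
  linarith

/-- the arithmetic of one step of stage one; `t = 1 / d`. -/
theorem stage1_arith {q : ℕ} (hq : 0 < q) {t E D ν g : ℝ} (ht : 1 ≤ t) (hE : 1 ≤ E) (hD : 1 ≤ D)
    (hν : 0 ≤ ν) (hg : 0 ≤ g) :
    32 * (2 * t) ^ 2 * ((4 * (2 * t) + (4 * E) ^ 2) * (Real.log q.factorial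
      + q ^ 2 * Real.log (q * (2 * t) + g) + q * D + ν) + 4 * E * (2 * D))
      ≤ Cq q * E ^ 4 * (D + ν) * t ^ 6 + g / 128 := by
  have hq' : (1 : ℝ) ≤ q := by exact_mod_cast hq
  set L := Real.log (q * (2 * t) + g) with hL
  have hfac : (1 : ℝ) ≤ q.factorial := by
    exact_mod_cast Nat.one_le_iff_ne_zero.mpr q.factorial_ne_zero
  have hlf0 : 0 ≤ Real.log q.factorial := Real.log_nonneg hfac
  have hlf : Real.log q.factorial ≤ q.factorial := by
    have := Real.log_le_sub_one_of_pos (show (0 : ℝ) < q.factorial by linarith)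
    linarith
  have hy : 0 < q * (2 * t) + g := by positivity
  have hy1 : 1 ≤ q * (2 * t) + g := by nlinarith
  have hL0 : 0 ≤ L := Real.log_nonneg hy1
  set c1 := 3072 * E ^ 2 * q ^ 2 * t ^ 3 with hc1
  have hc1p : 0 < c1 := by positivity
  have hLle : c1 * L ≤ (q * (2 * t) + g) / 128 + 128 * c1 ^ 2 := by
    have := log_le_lin hy (show 0 < 1 / (128 * c1) by positivity)
    calc c1 * L ≤ c1 * (1 / (128 * c1) * (q * (2 * t) + g) + 1 / (1 / (128 * c1))) := by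
          gcongr
      _ = _ := by field_simp
  set K := Real.log q.factorial + q ^ 2 * L + q * D + ν with hK
  have hK0 : 0 ≤ K := by positivity
  have h1 : 32 * (2 * t) ^ 2 * ((4 * (2 * t) + (4 * E) ^ 2) * K + 4 * E * (2 * D))
      ≤ 3072 * E ^ 2 * t ^ 3 * (K + D) := by
    have e1 : 4 * (2 * t) + (4 * E) ^ 2 ≤ 24 * E ^ 2 * t := by
      have a1 : (0:ℝ) ≤ E ^ 2 - 1 := by nlinarith
      have a2 : (0:ℝ) ≤ t - 1 := by linarith
      have a3 := mul_nonneg a1 (by linarith : (0:ℝ) ≤ t)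
      have a4 := mul_nonneg (sq_nonneg E) a2
      nlinarith
    have e2 : 4 * E * (2 * D) ≤ 24 * E ^ 2 * t * D := by
      have : E ≤ E ^ 2 * t := by nlinarith
      nlinarith
    calc 32 * (2 * t) ^ 2 * ((4 * (2 * t) + (4 * E) ^ 2) * K + 4 * E * (2 * D))
        ≤ 32 * (2 * t) ^ 2 * (24 * E ^ 2 * t * K + 24 * E ^ 2 * t * D) := by gcongr
      _ = 3072 * E ^ 2 * t ^ 3 * (K + D) := by ring
  refine h1.trans ?_
  have h2 : 3072 * E ^ 2 * t ^ 3 * (K + D) =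
      c1 * L + 3072 * E ^ 2 * t ^ 3 * (Real.log q.factorial + (q + 1) * D + ν) := by
    rw [hK, hc1]; ring
  rw [h2]
  have h3 : 3072 * E ^ 2 * t ^ 3 * (Real.log q.factorial + (q + 1) * D + ν)
      ≤ 3072 * E ^ 4 * t ^ 6 * ((q.factorial + q + 1) * (D + ν)) := by
    have e1 : E ^ 2 ≤ E ^ 4 := pow_le_pow_right₀ hE (by norm_num)
    have e2 : t ^ 3 ≤ t ^ 6 := pow_le_pow_right₀ ht (by norm_num)
    have e3 : Real.log q.factorial + (q + 1) * D + ν ≤ (q.factorial + q + 1) * (D + ν) := by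
      have a1 : (q.factorial : ℝ) ≤ q.factorial * D := le_mul_of_one_le_right (by positivity) hD
      have a2 : 0 ≤ (q.factorial + q : ℝ) * ν := by positivity
      nlinarith
    have e4 : 0 ≤ Real.log q.factorial + (q + 1) * D + ν := by positivity
    gcongr
  have h4 : (q : ℝ) * (2 * t) / 128 ≤ 2 * q * (E ^ 4 * (D + ν) * t ^ 6) := by
    have e1 : 1 ≤ E ^ 4 := one_le_pow₀ hE
    have e2 : t ≤ t ^ 6 := le_self_pow₀ ht (by norm_num)
    have e3 : 1 ≤ E ^ 4 * (D + ν) := by nlinarith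
    have e4 : t ≤ E ^ 4 * (D + ν) * t ^ 6 := by
      calc t ≤ 1 * t ^ 6 := by linarith
        _ ≤ _ := by gcongr
    have e5 : 0 ≤ (q : ℝ) * t := by positivity
    nlinarith
  have h5 : 128 * c1 ^ 2 ≤ 128 * 3072 ^ 2 * q ^ 4 * (E ^ 4 * (D + ν) * t ^ 6) := by
    have e0 : 128 * c1 ^ 2 = 128 * 3072 ^ 2 * q ^ 4 * (E ^ 4 * 1 * t ^ 6) := by
      rw [hc1]; ring
    rw [e0]
    have : 1 ≤ D + ν := by linarith
    gcongr
  rw [Cq]
  calc c1 * L + 3072 * E ^ 2 * t ^ 3 * (Real.log q.factorial + (q + 1) * D + ν)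
      ≤ ((q * (2 * t) + g) / 128 + 128 * c1 ^ 2)
        + 3072 * E ^ 4 * t ^ 6 * ((q.factorial + q + 1) * (D + ν)) := by gcongr
    _ = g / 128 + (q * (2 * t) / 128 + 128 * c1 ^ 2
        + 3072 * E ^ 4 * t ^ 6 * ((q.factorial + q + 1) * (D + ν))) := by ring
    _ ≤ g / 128 + (2 * q * (E ^ 4 * (D + ν) * t ^ 6)
        + 128 * 3072 ^ 2 * q ^ 4 * (E ^ 4 * (D + ν) * t ^ 6)
        + 3072 * E ^ 4 * t ^ 6 * ((q.factorial + q + 1) * (D + ν))) := by gcongr
    _ = _ := by ring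

/-- bound of the logarithmic derivative of a unit on a closed disc -/
theorem exists_ld_bound {q : ℕ} (T : Fin q → GIˣ) {r : ℝ} (hr : r < 1) :
    ∃ g, 0 ≤ g ∧ ∀ l, ∀ z : ℂ, ‖z‖ ≤ r → ‖ld (T l) z‖ ≤ g := by
  have hc : ∀ l, ContinuousOn (ld (T l)) (closedBall 0 r) := by
    intro l
    have h1 : DifferentiableOn ℂ (ld (T l)) (ball 0 1) :=
      ((tv_differentiableOn (T l)).deriv isOpen_ball).div (tv_differentiableOn (T l))
        (fun z hz => tv_ne_zero (T l) (by simpa using hz))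
    exact h1.continuousOn.mono (closedBall_subset_ball hr)
  have hb : ∀ l, ∃ g, ∀ z ∈ closedBall (0 : ℂ) r, ‖ld (T l) z‖ ≤ g := fun l =>
    (isCompact_closedBall (0 : ℂ) r).exists_bound_of_continuousOn (hc l)
  choose g hg using hb
  refine ⟨∑ l, |g l|, Finset.sum_nonneg fun l _ => abs_nonneg _, fun l z hz => ?_⟩
  calc ‖ld (T l) z‖ ≤ g l := hg l z (by simpa using hz)
    _ ≤ |g l| := le_abs_self _
    _ ≤ ∑ l, |g l| := Finset.single_le_sum (f := fun l => |g l|) (fun l _ => abs_nonneg _)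
        (Finset.mem_univ l)

theorem stage1 {q : ℕ} (hq : 0 < q) (T : Fin q → GIˣ) (c : Fin q → ℂ) (hc : ∀ l, c l ≠ 0)
    {ν : ℕ} (hν : (X : PowerSeries ℂ) ^ ν ∣ Wr T) (hν' : ¬ (X : PowerSeries ℂ) ^ (ν + 1) ∣ Wr T)
    {E D r1 : ℝ} (hE : 1 ≤ E) (hD : 1 ≤ D) (hr1 : r1 < 1)
    (hF : ∀ z : ℂ, ‖z‖ ≤ r1 → ‖ev z (Fs T c)‖ ≤ Real.exp D)
    (hlow : ∀ l, ∃ w : ℂ, ‖w‖ ≤ 1 - 1 / E ∧ -(2 * D) ≤ Real.log ‖c l * tv (T l) w‖)
    {r0 : ℝ} (hr0 : 1 - 1 / (2 * E) ≤ r0) (hr01 : r0 < r1) :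
    ∀ l, ∀ z : ℂ, ‖z‖ ≤ r0 → ‖ld (T l) z‖ ≤ 128 * (Cq q * E ^ 4 * (D + ν)) / (r1 - r0) ^ 6 := by
  obtain ⟨g1, hg1, hinf⟩ := exists_ld_bound T hr1
  have hE2 : 1 / (2 * E) ≤ 1 / 2 := by
    apply div_le_div_of_nonneg_left <;> linarith
  have hEp : 0 < 1 / (2 * E) := by positivity
  have hEE : 1 / E = 2 * (1 / (2 * E)) := by field_simp
  have hCq : 0 ≤ Cq q := by unfold Cq; positivity
  refine hole_filling (fun r g => ∀ l, ∀ z : ℂ, ‖z‖ ≤ r → ‖ld (T l) z‖ ≤ g) ?_ ?_ ?_ hr01 ?_ ?_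
    hg1 hinf
  · intro r r' g hrr h l z hz
    exact h l z (hz.trans hrr)
  · intro r g g' hgg h l z hz
    exact (h l z hz).trans hgg
  · intro r g h l z hz
    apply le_of_forall_pos_le_add
    intro ε hε
    exact h ε hε l z hz
  · intro r r' g hr hrr' hr' hg hP
    have hd : 0 < r' - r := by linarith
    have hd1 : r' - r ≤ 1 := by linarith
    have hκ : ((r + r') / 2 + (1 - 1 / E)) / ((r + r') / 2 - (1 - 1 / E)) ≤ 4 * E := by
      rw [div_le_iff₀ (by rw [hEE]; linarith)]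
      have h1 : 1 / (2 * E) ≤ (r + r') / 2 - (1 - 1 / E) := by rw [hEE]; linarith
      have h2 : 4 * E * (1 / (2 * E)) = 2 := by field_simp; norm_num
      have h3 : 4 * E * (1 / (2 * E)) ≤ 4 * E * ((r + r') / 2 - (1 - 1 / E)) := by gcongr
      have h4 : (0:ℝ) ≤ 1 / E := by positivity
      linarith
    have hlogR : Real.log (1 / ((r + r') / 2)) ≤ 1 := by
      have h1 := Real.log_le_sub_one_of_pos (show (0:ℝ) < 1 / ((r + r') / 2) by
        apply div_pos one_pos; linarith)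
      have h2 : 1 / ((r + r') / 2) ≤ 2 := by
        rw [div_le_iff₀ (by linarith)]; linarith
      linarith
    have h1 := (key_ineq hq T c hc hν hν' (r := r) (R := (r + r') / 2) (r' := r')
      (ρ := 1 - 1 / E) (A := D) (B := 2 * D) (g := g) (κ := 4 * E)
      (K := Real.log q.factorial + q ^ 2 * Real.log (q / (r' - (r + r') / 2) + g) + q * D + ν)
      (by linarith) (by linarith) (by linarith) (by linarith) (by rw [hEE]; linarith)
      (by linarith) (by linarith) hg (fun z hz => hF z (hz.trans hr')) hP hlow hκ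
      (by
        have : (ν : ℝ) * Real.log (1 / ((r + r') / 2)) ≤ ν * 1 := by gcongr
        linarith)).2
    intro l z hz
    refine (h1 l z hz).trans ?_
    have h2 := stage1_arith hq (t := 1 / (r' - r)) (E := E) (D := D) (ν := ν) (g := g)
      (by rw [le_div_iff₀ hd]; linarith) hE hD (by positivity) hg
    have e1 : (r + r') / 2 - r = (r' - r) / 2 := by ring
    have e2 : r' - (r + r') / 2 = (r' - r) / 2 := by ring
    rw [e1, e2]
    have e3 : 32 / ((r' - r) / 2) ^ 2 = 32 * (2 * (1 / (r' - r))) ^ 2 := by field_simp; 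
    have e4 : 4 / ((r' - r) / 2) = 4 * (2 * (1 / (r' - r))) := by field_simp; 
    have e5 : (q : ℝ) / ((r' - r) / 2) = q * (2 * (1 / (r' - r))) := by field_simp
    rw [e3, e4, e5]
    refine h2.trans (le_of_eq ?_)
    rw [one_div, inv_pow, div_eq_mul_inv (Cq q * E ^ 4 * (D + ν))]
  · positivity

/-- constants of stage two -/
noncomputable def C3 (q : ℕ) : ℝ :=
  q.factorial + q + 1 + q ^ 2 * (2 * (8192 * Cq q + q) + 60)

/-- threshold for `E` -/
noncomputable def E0 (q : ℕ) : ℝ :=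
  4 * q * (2 ^ 15 * C3 q + q + 3) + 2 ^ 17 * q * (q ^ 2 + 4) + 2 ^ 14 * Cq q + 8

theorem Cq_nonneg (q : ℕ) : 0 ≤ Cq q := by unfold Cq; positivity

theorem C3_nonneg (q : ℕ) : 0 ≤ C3 q := by
  have := Cq_nonneg q
  unfold C3; positivity

theorem stage2_arith {q : ℕ} (hq : 0 < q) {E D ν : ℝ} (hE : E0 q ≤ E) (hD : 1 ≤ D)
    (hDE : D ≤ E) (hν : E ^ 7 ≤ ν) :
    2 * (2 ^ 14 * E ^ 4 * ((Real.log q.factorial + q ^ 2 * Real.log (q * E ^ 8
      + 8192 * Cq q * E ^ 52 * (D + ν)) + q * D + ν * (4 / E ^ 8)) + D)) + q + 2 * D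
      ≤ (ν / q - 1) / (2 * E) := by
  have hCq := Cq_nonneg q
  have hC3 := C3_nonneg q
  have hq' : (1 : ℝ) ≤ q := by exact_mod_cast hq
  have hE8 : 8 ≤ E := by
    have : 0 ≤ 4 * q * (2 ^ 15 * C3 q + q + 3) + 2 ^ 17 * q * (q ^ 2 + 4) + 2 ^ 14 * Cq q := by
      positivity
    unfold E0 at hE; linarith
  have hE1 : 1 ≤ E := by linarith
  have hEp : 0 < E := by linarith
  have hEa : 4 * q * (2 ^ 15 * C3 q + q + 3) ≤ E := by
    have : 0 ≤ 2 ^ 17 * q * ((q:ℝ) ^ 2 + 4) + 2 ^ 14 * Cq q := by positivity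
    unfold E0 at hE; linarith
  have hEb : 2 ^ 17 * q * ((q:ℝ) ^ 2 + 4) ≤ E := by
    have : 0 ≤ 4 * q * (2 ^ 15 * C3 q + q + 3) + 2 ^ 14 * Cq q := by positivity
    unfold E0 at hE; linarith
  have hνE : E ≤ ν := le_trans (le_self_pow₀ hE1 (by norm_num)) hν
  have hν1 : 1 ≤ ν := by linarith
  have hfac : (1 : ℝ) ≤ q.factorial := by
    exact_mod_cast Nat.one_le_iff_ne_zero.mpr q.factorial_ne_zero
  have hlf : Real.log q.factorial ≤ q.factorial := by
    have := Real.log_le_sub_one_of_pos (show (0 : ℝ) < q.factorial by linarith)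
    linarith
  set C2 : ℝ := 2 * (8192 * Cq q + q) with hC2
  have hC2p : 0 < C2 := by positivity
  -- the logarithm
  have hlog : Real.log (q * E ^ 8 + 8192 * Cq q * E ^ 52 * (D + ν)) ≤ C2 + 60 * E + ν / E ^ 8 := by
    have h1 : q * E ^ 8 + 8192 * Cq q * E ^ 52 * (D + ν) ≤ C2 * E ^ 52 * ν := by
      have a1 : E ^ 8 ≤ E ^ 52 := pow_le_pow_right₀ hE1 (by norm_num)
      have a2 : (q : ℝ) * E ^ 8 ≤ q * E ^ 52 * ν := by
        calc (q : ℝ) * E ^ 8 ≤ q * E ^ 52 * 1 := by rw [mul_one]; gcongr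
          _ ≤ _ := by gcongr
      have a3 : 8192 * Cq q * E ^ 52 * (D + ν) ≤ 8192 * Cq q * E ^ 52 * (2 * ν) := by
        gcongr; linarith
      have a4 : 0 ≤ q * E ^ 52 * ν := by positivity
      calc q * E ^ 8 + 8192 * Cq q * E ^ 52 * (D + ν)
          ≤ q * E ^ 52 * ν + 8192 * Cq q * E ^ 52 * (2 * ν) := by linarith
        _ ≤ 2 * (q * E ^ 52 * ν) + 8192 * Cq q * E ^ 52 * (2 * ν) := by linarith
        _ = C2 * E ^ 52 * ν := by rw [hC2]; ring
    have h2 : Real.log (C2 * E ^ 52 * ν) = Real.log C2 + 60 * Real.log E + Real.log (ν / E ^ 8) := by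
      rw [Real.log_mul (by positivity) (by positivity), Real.log_mul (by positivity)
        (by positivity), Real.log_div (by positivity) (by positivity), Real.log_pow, Real.log_pow]
      push_cast
      ring
    have h3 := Real.log_le_sub_one_of_pos hC2p
    have h4 := Real.log_le_sub_one_of_pos hEp
    have h5 := Real.log_le_sub_one_of_pos (show 0 < ν / E ^ 8 by positivity)
    have h6 := Real.log_le_log (by positivity) h1
    linarith
  set L := Real.log (q * E ^ 8 + 8192 * Cq q * E ^ 52 * (D + ν)) with hL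
  set x := ν / E ^ 8 with hx
  have hx0 : 0 ≤ x := by positivity
  have hxν : ν * (4 / E ^ 8) = 4 * x := by rw [hx]; ring
  rw [hxν]
  have hK : (Real.log q.factorial + q ^ 2 * L + q * D + 4 * x) + D ≤ C3 q * E + (q ^ 2 + 4) * x := by
    have a1 : (q:ℝ) ^ 2 * L ≤ q ^ 2 * (C2 + 60 * E + x) := by gcongr
    have a2 : (q : ℝ) * D ≤ q * E := by gcongr
    have a3 : (q.factorial : ℝ) ≤ q.factorial * E := le_mul_of_one_le_right (by positivity) hE1
    have a4 : (q:ℝ) ^ 2 * C2 ≤ q ^ 2 * C2 * E := le_mul_of_one_le_right (by positivity) hE1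
    unfold C3
    rw [← hC2]
    nlinarith
  have hνx : ν = x * E ^ 8 := by rw [hx]; field_simp
  -- reduce
  rw [le_div_iff₀ (by positivity)]
  have hmain : (2 * (2 ^ 14 * E ^ 4 * (C3 q * E + (q ^ 2 + 4) * x)) + q + 2 * E) * (2 * E)
      ≤ ν / q - 1 := by
    rw [le_sub_iff_add_le, le_div_iff₀ (by positivity)]
    have b1 : 4 * q * ((2 ^ 15 * C3 q + q + 3) * E ^ 6) ≤ ν := by
      calc 4 * q * ((2 ^ 15 * C3 q + q + 3) * E ^ 6)
          = (4 * q * (2 ^ 15 * C3 q + q + 3)) * E ^ 6 := by ring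
        _ ≤ E * E ^ 6 := by gcongr
        _ = E ^ 7 := by ring
        _ ≤ ν := hν
    have b2 : 2 ^ 17 * q * ((q:ℝ) ^ 2 + 4) * x * E ^ 5 ≤ ν := by
      calc 2 ^ 17 * q * ((q:ℝ) ^ 2 + 4) * x * E ^ 5 ≤ E * x * E ^ 5 := by gcongr
        _ = x * E ^ 6 := by ring
        _ ≤ x * E ^ 8 := by
          have : E ^ 6 ≤ E ^ 8 := pow_le_pow_right₀ hE1 (by norm_num)
          gcongr
        _ = ν := hνx.symm
    have c1 : E ≤ E ^ 6 := le_self_pow₀ hE1 (by norm_num)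
    have c2 : E ^ 2 ≤ E ^ 6 := pow_le_pow_right₀ hE1 (by norm_num)
    have c3 : 1 ≤ E ^ 6 := one_le_pow₀ hE1
    have e1 : ((2 * (2 ^ 14 * E ^ 4 * (C3 q * E + (q ^ 2 + 4) * x)) + q + 2 * E) * (2 * E) + 1) * q
        = 2 * q * (2 ^ 15 * C3 q * E ^ 6) + 2 * q * (q * E) + 4 * q * E ^ 2 + q
          + 2 ^ 16 * q * ((q:ℝ) ^ 2 + 4) * x * E ^ 5 := by ring
    rw [e1]
    have e2 : 2 * q * (q * E) + 4 * q * E ^ 2 + q ≤ 2 * q * ((q + 3) * E ^ 6) := by
      have f1 : 2 * (q:ℝ) * (q * E) ≤ 2 * q * (q * E ^ 6) := by gcongr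
      have f2 : 4 * (q:ℝ) * E ^ 2 ≤ 4 * q * E ^ 6 := by gcongr
      have f3 : (q:ℝ) ≤ q * E ^ 6 := le_mul_of_one_le_right (by positivity) c3
      nlinarith [mul_nonneg (by positivity : (0:ℝ) ≤ q) (by positivity : 0 ≤ E ^ 6)]
    nlinarith
  refine le_trans ?_ hmain
  gcongr

theorem level {q : ℕ} (hq : 0 < q) {E D : ℝ} (hE : E0 q ≤ E) (hD : 1 ≤ D) (hDE : D ≤ E)
    (T : Fin q → GIˣ) (c : Fin q → ℂ) (hc : ∀ l, c l ≠ 0)
    {ν : ℕ} (hν : (X : PowerSeries ℂ) ^ ν ∣ Wr T) (hν' : ¬ (X : PowerSeries ℂ) ^ (ν + 1) ∣ Wr T)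
    (hF : ∀ z : ℂ, ‖z‖ ≤ 1 - 1 / (2 * E ^ 8) → ‖ev z (Fs T c)‖ ≤ Real.exp D)
    (hlow : ∀ l, ∃ w : ℂ, ‖w‖ ≤ 1 - 1 / E ∧ -(2 * D) ≤ Real.log ‖c l * tv (T l) w‖) :
    ((ν : ℝ) < E ^ 7 ∧ ∀ l, ∀ z : ℂ, ‖z‖ ≤ 1 - 1 / E ^ 8 → ‖ld (T l) z‖ ≤ E ^ 61) ∨
    ∃ G : ℝ, (∀ l, Real.log ‖c l‖ ≤ G) ∧
      (∀ l, ∀ z : ℂ, ‖z‖ ≤ 1 - 1 / (2 * E) → ‖ld (T l) z‖ ≤ G) ∧
      2 * G + q + 2 * D ≤ ((ν : ℝ) / q - 1) / (2 * E) := by
  have hCq := Cq_nonneg q
  have hC3 := C3_nonneg q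
  have hq' : (1 : ℝ) ≤ q := by exact_mod_cast hq
  have hE8 : 8 ≤ E := by
    have : 0 ≤ 4 * q * (2 ^ 15 * C3 q + q + 3) + 2 ^ 17 * q * (q ^ 2 + 4) + 2 ^ 14 * Cq q := by
      positivity
    unfold E0 at hE; linarith
  have hE1 : 1 ≤ E := by linarith
  have hEp : 0 < E := by linarith
  have hEc : 2 ^ 14 * Cq q ≤ E := by
    have : 0 ≤ 4 * q * (2 ^ 15 * C3 q + q + 3) + 2 ^ 17 * q * ((q:ℝ) ^ 2 + 4) := by positivity
    unfold E0 at hE; linarith
  have hE7 : 8 * E ≤ E ^ 8 := by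
    calc 8 * E ≤ E * E := by gcongr
      _ = E ^ 2 := by ring
      _ ≤ E ^ 8 := pow_le_pow_right₀ hE1 (by norm_num)
  have hEinv : 1 / E ^ 8 ≤ 1 / (8 * E) := one_div_le_one_div_of_le (by positivity) hE7
  have hEinv2 : 1 / (8 * E) = 1 / (2 * E) / 4 := by field_simp; norm_num
  have hEinv3 : 1 / (2 * E ^ 8) = 1 / E ^ 8 / 2 := by field_simp
  have hEpos8 : 0 < 1 / E ^ 8 := by positivity
  have hEposE : 0 < 1 / (2 * E) := by positivity
  have hEhalf : 1 / (2 * E) ≤ 1 / 16 := one_div_le_one_div_of_le (by norm_num) (by linarith)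
  have hEE : 1 / E = 2 * (1 / (2 * E)) := by field_simp
  have hst := stage1 hq T c hc hν hν' (E := E) (D := D) (r1 := 1 - 1 / (2 * E ^ 8)) hE1 hD
    (by rw [hEinv3]; linarith) hF hlow (r0 := 1 - 1 / E ^ 8) (by linarith)
    (by rw [hEinv3]; linarith)
  have hsimp : 128 * (Cq q * E ^ 4 * (D + ν)) / (1 - 1 / (2 * E ^ 8) - (1 - 1 / E ^ 8)) ^ 6
      = 8192 * Cq q * E ^ 52 * (D + ν) := by
    rw [show 1 - 1 / (2 * E ^ 8) - (1 - 1 / E ^ 8) = 1 / (2 * E ^ 8) by rw [hEinv3]; ring]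
    field_simp
    ring
  rw [hsimp] at hst
  rcases lt_or_ge (ν : ℝ) (E ^ 7) with hlt | hge
  · left
    refine ⟨hlt, fun l z hz => (hst l z hz).trans ?_⟩
    have h1 : D + ν ≤ 2 * E ^ 7 := by
      have : E ≤ E ^ 7 := le_self_pow₀ hE1 (by norm_num)
      linarith
    calc 8192 * Cq q * E ^ 52 * (D + ν) ≤ 8192 * Cq q * E ^ 52 * (2 * E ^ 7) := by gcongr
      _ = (2 ^ 14 * Cq q) * E ^ 59 := by ring
      _ ≤ E * E ^ 59 := by gcongr
      _ = E ^ 60 := by ring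
      _ ≤ E ^ 61 := pow_le_pow_right₀ hE1 (by norm_num)
  · right
    set g := 8192 * Cq q * E ^ 52 * (D + ν) with hg
    have hg0 : 0 ≤ g := by positivity
    set r := 1 - 1 / (2 * E) with hr
    set R := 1 - 2 * (1 / E ^ 8) with hR
    set r' := 1 - 1 / E ^ 8 with hr'
    set K := Real.log q.factorial + q ^ 2 * Real.log (q * E ^ 8 + g) + q * D + ν * (4 / E ^ 8)
      with hK
    have hRr : 1 / (4 * E) ≤ R - r := by
      have : 1 / (4 * E) = 1 / (2 * E) / 2 := by field_simp; norm_num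
      rw [this]
      linarith
    have hRr0 : 0 < R - r := lt_of_lt_of_le (by positivity) hRr
    have hRhalf : 1 / 2 ≤ R := by linarith
    have hlogR : Real.log (1 / R) ≤ 4 / E ^ 8 := by
      have h1 := Real.log_le_sub_one_of_pos (show (0:ℝ) < 1 / R by
        apply div_pos one_pos; linarith)
      have h2 : 1 / R - 1 ≤ 2 * (1 - R) := by
        rw [sub_le_iff_le_add, div_le_iff₀ (by linarith)]
        nlinarith
      have h3 : 2 * (1 - R) = 4 / E ^ 8 := by rw [hR]; ring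
      linarith
    have hqe : (q : ℝ) / (r' - R) = q * E ^ 8 := by
      rw [show r' - R = 1 / E ^ 8 by rw [hR, hr']; ring]
      field_simp
    have hκ : (R + (1 - 1 / E)) / (R - (1 - 1 / E)) ≤ 4 * E := by
      rw [div_le_iff₀ (by rw [hEE]; linarith)]
      have h1 : 1 / (2 * E) ≤ R - (1 - 1 / E) := by rw [hEE]; linarith
      have h2 : 4 * E * (1 / (2 * E)) = 2 := by field_simp; norm_num
      have h3 : 4 * E * (1 / (2 * E)) ≤ 4 * E * (R - (1 - 1 / E)) := by gcongr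
      have h4 : (0:ℝ) ≤ 1 / E := by positivity
      linarith
    have hfac : (1 : ℝ) ≤ q.factorial := by
      exact_mod_cast Nat.one_le_iff_ne_zero.mpr q.factorial_ne_zero
    have hK0 : 0 ≤ K := by
      have h1 := Real.log_nonneg hfac
      have h2 : 0 ≤ Real.log (q * E ^ 8 + g) := Real.log_nonneg (by
        have : 1 ≤ E ^ 8 := one_le_pow₀ hE1
        nlinarith)
      positivity
    obtain ⟨hk1, hk2⟩ := key_ineq hq T c hc hν hν' (r := r) (R := R) (r' := r')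
      (ρ := 1 - 1 / E) (A := D) (B := 2 * D) (g := g) (κ := 4 * E) (K := K)
      (by linarith) (by linarith) (by rw [hR, hr']; linarith) (by linarith)
      (by rw [hEE]; linarith) (by linarith) (by linarith) hg0
      (fun z hz => hF z (by rw [hEinv3]; linarith)) hst hlow hκ (by
        rw [hqe, hK]
        have : (ν : ℝ) * Real.log (1 / R) ≤ ν * (4 / E ^ 8) := by gcongr
        linarith)
    refine ⟨2 ^ 14 * E ^ 4 * (K + D), fun l => (hk1 l).trans ?_, fun l z hz =>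
      (hk2 l z hz).trans ?_, ?_⟩
    · have : 1 ≤ 2 ^ 14 * E ^ 4 := by
        have : 1 ≤ E ^ 4 := one_le_pow₀ hE1
        linarith
      nlinarith
    · have h1 : 1 / (R - r) ≤ 4 * E := by
        rw [div_le_iff₀ hRr0]
        have : 4 * E * (1 / (4 * E)) ≤ 4 * E * (R - r) := by gcongr
        have h2 : 4 * E * (1 / (4 * E)) = 1 := by field_simp
        linarith
      have h0 : 0 ≤ 1 / (R - r) := by positivity
      have hgen : ∀ x : ℝ, 32 / x ^ 2 * ((4 / x + (4 * E) ^ 2) * K + 4 * E * (2 * D))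
          = 32 * (1 / x) ^ 2 * ((4 * (1 / x) + (4 * E) ^ 2) * K + 4 * E * (2 * D)) := by
        intro x; ring
      calc 32 / (R - r) ^ 2 * ((4 / (R - r) + (4 * E) ^ 2) * K + 4 * E * (2 * D))
          = 32 * (1 / (R - r)) ^ 2 * ((4 * (1 / (R - r)) + (4 * E) ^ 2) * K + 4 * E * (2 * D)) :=
            hgen _
        _ ≤ 32 * (4 * E) ^ 2 * ((4 * (4 * E) + (4 * E) ^ 2) * K + 4 * E * (2 * D)) := by
            gcongr
        _ ≤ 32 * (4 * E) ^ 2 * ((32 * E ^ 2) * K + (32 * E ^ 2) * D) := by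
            have e1 : 4 * (4 * E) + (4 * E) ^ 2 ≤ 32 * E ^ 2 := by nlinarith
            have e2 : 4 * E * (2 * D) ≤ (32 * E ^ 2) * D := by nlinarith
            gcongr
        _ = 2 ^ 14 * E ^ 4 * (K + D) := by ring
    · exact stage2_arith hq hE hD hDE hge

end Pool.Agent.Helper52
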