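import Pool.Agent.Helper52.Level
import Pool.Agent.Helper68.WronskianOrder

/-!
The structure theorem: a short sum of units can be approximated by a short sum of units of
moderate growth.
-/

namespace Pool.Agent.Helper52

open PowerSeries Finset Metric

/-- maximum modulus for the shifted series -/
theorem schwarz_bound {a : PowerSeries ℂ} (ha : a ∈ Good) {n : ℕ}
    (h : (X : PowerSeries ℂ) ^ n ∣ a) {R B : ℝ} (hR : 0 < R) (hR1 : R < 1)
    (hB : ∀ z : ℂ, ‖z‖ = R → ‖ev z a‖ ≤ B) {z : ℂ} (hz : ‖z‖ ≤ R) :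
    ‖ev z (shift n a)‖ ≤ B / R ^ n := by
  have hd : DiffContOnCl ℂ (fun z => ev z (shift n a)) (ball 0 R) := by
    apply DifferentiableOn.diffContOnCl
    rw [closure_ball (0 : ℂ) hR.ne']
    exact (ev_differentiableOn (shift_mem_Good ha)).mono (closedBall_subset_ball hR1)
  apply Complex.norm_le_of_forall_mem_frontier_norm_le isBounded_ball hd
  · intro w hw
    rw [frontier_ball (0 : ℂ) hR.ne'] at hw
    have hwR : ‖w‖ = R := by simpa using hw
    have h1 := hB w hwR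
    rw [ev_eq_pow_mul_shift h ha (by rw [hwR]; exact hR1), norm_mul, norm_pow, hwR] at h1
    rw [le_div_iff₀ (by positivity), mul_comm]
    exact h1
  · rw [closure_ball (0 : ℂ) hR.ne']
    simpa using hz

theorem exists_stable {K : Type*} [Field K] {q : ℕ} (f : Fin q → PowerSeries K)
    (h : ∀ γ : Fin q → K, ∑ l, γ l • f l = 0 → γ = 0) :
    ∃ n : ℕ, ∀ γ : Fin q → K, (X : PowerSeries K) ^ n ∣ ∑ l, γ l • f l → γ = 0 := by
  let V : ℕ → Submodule K (Fin q → K) := fun n =>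
    { carrier := {γ | (X : PowerSeries K) ^ n ∣ ∑ l, γ l • f l}
      add_mem' := by
        intro a b ha hb
        simp only [Set.mem_ofPred_eq, Pi.add_apply, add_smul, Finset.sum_add_distrib] at *
        exact dvd_add ha hb
      zero_mem' := by simp
      smul_mem' := by
        intro c a ha
        simp only [Set.mem_ofPred_eq, Pi.smul_apply, smul_assoc] at *
        rw [← Finset.smul_sum, PowerSeries.smul_eq_C_mul]
        exact Dvd.dvd.mul_left ha _ }
  have hanti : Antitone V := by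
    intro a b hab γ hγ
    exact (pow_dvd_pow _ hab).trans hγ
  obtain ⟨n, hn⟩ := IsArtinian.monotone_stabilizes (R := K) (M := Fin q → K)
    ⟨fun n => OrderDual.toDual (V n), fun a b hab => hanti hab⟩
  refine ⟨n, fun γ hγ => h γ ?_⟩
  have hall : ∀ m, γ ∈ V m := by
    intro m
    rcases le_total n m with hnm | hmn
    · have := hn m hnm
      have h2 : V n = V m := this
      rw [← h2]; exact hγ
    · exact hanti hmn hγ
  ext m
  have := PowerSeries.X_pow_dvd_iff.mp (hall (m + 1)) m (Nat.lt_succ_self m)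
  simpa using this

/-- the classical Wronskian of the units -/
theorem wronskian_eq {q : ℕ} (T : Fin q → GIˣ) :
    Matrix.det (Matrix.of fun (i l : Fin q) =>
      (Helper68.theta ℂ)^[(i : ℕ)] ((T l : GI) : PowerSeries ℂ))
      = (∏ l, ((T l : GI) : PowerSeries ℂ)) * Wr T := by
  rw [Wr, ← Matrix.det_mul_row]
  congr 1
  ext1 i l
  simp only [Matrix.of_apply]
  have h1 : (Helper68.theta ℂ)^[(i : ℕ)] ((T l : GI) : PowerSeries ℂ)
    = (theta ℂ)^[(i : ℕ)] ((T l : GI) : PowerSeries ℂ) := rfl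
  rw [h1, theta_iter_unit, mul_comm]

theorem exists_relation {q : ℕ} (T : Fin q → GIˣ) {n : ℕ}
    (h : (X : PowerSeries ℂ) ^ (q * n + 1) ∣ Wr T) :
    ∃ γ : Fin q → ℂ, γ ≠ 0 ∧ (X : PowerSeries ℂ) ^ n ∣ ∑ l, γ l • ((T l : GI) : PowerSeries ℂ) := by
  by_contra hcon
  push Not at hcon
  have := Helper68.wronskian_order (fun l => ((T l : GI) : PowerSeries ℂ)) n (by
    intro γ hγ
    by_contra hne
    exact hcon γ hne hγ)
  apply this
  rw [wronskian_eq]
  exact Dvd.dvd.mul_left h _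

theorem Wr_ne_zero {q : ℕ} (T : Fin q → GIˣ)
    (h : ∀ γ : Fin q → ℂ, ∑ l, γ l • ((T l : GI) : PowerSeries ℂ) = 0 → γ = 0) : Wr T ≠ 0 := by
  obtain ⟨n, hn⟩ := exists_stable _ h
  have := Helper68.wronskian_order (fun l => ((T l : GI) : PowerSeries ℂ)) n hn
  intro h0
  apply this
  rw [wronskian_eq, h0, mul_zero]
  exact dvd_zero _

theorem exists_order {a : PowerSeries ℂ} (h : a ≠ 0) :
    ∃ ν : ℕ, (X : PowerSeries ℂ) ^ ν ∣ a ∧ ¬ (X : PowerSeries ℂ) ^ (ν + 1) ∣ a := by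
  classical
  have hex : ∃ n, coeff n a ≠ 0 := by
    by_contra hcon
    push Not at hcon
    exact h (by ext n; simpa using hcon n)
  refine ⟨Nat.find hex, ?_, ?_⟩
  · rw [PowerSeries.X_pow_dvd_iff]
    intro m hm
    by_contra hne
    exact Nat.find_min hex hm hne
  · rw [PowerSeries.X_pow_dvd_iff]
    push Not
    exact ⟨Nat.find hex, Nat.lt_succ_self _, Nat.find_spec hex⟩

/-- dropping one term by means of a relation -/
theorem Fs_drop {q : ℕ} (T : Fin (q + 1) → GIˣ) (c γ : Fin (q + 1) → ℂ) (l₀ : Fin (q + 1))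
    (h : γ l₀ ≠ 0) :
    Fs T c = (c l₀ / γ l₀) • (∑ l, γ l • ((T l : GI) : PowerSeries ℂ))
      + Fs (fun j => T (l₀.succAbove j)) (fun j => c (l₀.succAbove j)
        - c l₀ / γ l₀ * γ (l₀.succAbove j)) := by
  rw [Fs, Fs, Fin.sum_univ_succAbove _ l₀, Fin.sum_univ_succAbove (fun l => γ l • _) l₀, smul_add,
    smul_smul, div_mul_cancel₀ _ h, add_assoc, Finset.smul_sum, ← Finset.sum_add_distrib]
  congr 1
  refine Finset.sum_congr rfl fun j _ => ?_
  rw [smul_smul, ← add_smul]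
  congr 1
  ring

theorem Fs_drop' {q : ℕ} (T : Fin (q + 1) → GIˣ) (c : Fin (q + 1) → ℂ) (l₀ : Fin (q + 1)) :
    Fs T c = c l₀ • ((T l₀ : GI) : PowerSeries ℂ)
      + Fs (fun j => T (l₀.succAbove j)) (fun j => c (l₀.succAbove j)) := by
  rw [Fs, Fs, Fin.sum_univ_succAbove _ l₀]

/-- the conclusion of the structure theorem -/
def Concl (q b : ℕ) (D : ℝ) (F : PowerSeries ℂ) : Prop :=
  ∃ q' ≤ q, ∃ (T' : Fin q' → GIˣ) (c' : Fin q' → ℂ) (r : ℝ) (ν : ℕ),
    1 - 1 / D ≤ r ∧ r ≤ 1 - 1 / D ^ b ∧ ν * (1 - r) ≤ 1 ∧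
    ¬ (X : PowerSeries ℂ) ^ (ν + 1) ∣ Wr T' ∧
    (∀ z : ℂ, ‖z‖ ≤ r → ‖ev z F - ev z (Fs T' c')‖ ≤ Real.exp (-D)) ∧
    (∀ l, ∀ z : ℂ, ‖z‖ ≤ r → ‖ld (T' l) z‖ ≤ D ^ b)

/-- the tail estimate when a relation of high order exists -/
theorem drop_estimate {q : ℕ} (T : Fin q → GIˣ) (γ : Fin q → ℂ) (l₀ : Fin q)
    (hγ : γ l₀ ≠ 0) (hmax : ∀ l, ‖γ l‖ ≤ ‖γ l₀‖) {n : ℕ}
    (hn : (X : PowerSeries ℂ) ^ n ∣ ∑ l, γ l • ((T l : GI) : PowerSeries ℂ)) {c : ℂ}
    {E G : ℝ} (hE : 1 < E) (hc : c ≠ 0) (hcG : Real.log ‖c‖ ≤ G)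
    (hG : ∀ l, ∀ z : ℂ, ‖z‖ ≤ 1 - 1 / (2 * E) → ‖ld (T l) z‖ ≤ G) {B : ℝ}
    (hB : 2 * G + q + B ≤ n / (2 * E)) {z : ℂ} (hz : ‖z‖ ≤ 1 - 1 / E) :
    ‖ev z ((c / γ l₀) • (∑ l, γ l • ((T l : GI) : PowerSeries ℂ)))‖ ≤ Real.exp (-B) := by
  set δ := ∑ l, γ l • ((T l : GI) : PowerSeries ℂ) with hδ
  have hδG : δ ∈ Good := Good.sum_mem fun l _ => smul_mem_Good _ (GI.good (unit_mem (T l)))
  set R := 1 - 1 / (2 * E) with hR
  have hEp : 0 < E := by linarith
  have hE2 : 1 / (2 * E) < 1 / 2 := one_div_lt_one_div_of_lt (by norm_num) (by linarith)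
  have hE2p : 0 < 1 / (2 * E) := by positivity
  have hEE : 1 / E = 2 * (1 / (2 * E)) := by field_simp
  have hR0 : 0 < R := by linarith
  have hR1 : R < 1 := by linarith
  have hγpos : 0 < ‖γ l₀‖ := norm_pos_iff.mpr hγ
  have hcpos : 0 < ‖c‖ := norm_pos_iff.mpr hc
  have hb : ∀ w : ℂ, ‖w‖ = R → ‖ev w δ‖ ≤ q * ‖γ l₀‖ * Real.exp G := by
    intro w hw
    rw [hδ, ev_sum _ _ (fun l _ => smul_mem_Good _ (GI.good (unit_mem (T l)))) (by rw [hw]; exact hR1)]
    refine (norm_sum_le _ _).trans ?_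
    calc ∑ l, ‖ev w (γ l • ((T l : GI) : PowerSeries ℂ))‖ ≤ ∑ _l : Fin q, ‖γ l₀‖ * Real.exp G := by
          refine Finset.sum_le_sum fun l _ => ?_
          rw [ev_smul, norm_mul]
          exact mul_le_mul (hmax l) (norm_tv_le (T l) hR1 (hG l) hw.le) (norm_nonneg _)
            (norm_nonneg _)
      _ = q * ‖γ l₀‖ * Real.exp G := by simp; ring
  have hzR : ‖z‖ ≤ R := by linarith
  have hE0' : 0 ≤ 1 - 1 / E := by rw [hEE]; linarith
  have h1 := schwarz_bound hδG hn hR0 hR1 hb hzR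
  rw [ev_smul, ev_eq_pow_mul_shift hn hδG (by linarith), norm_mul, norm_mul, norm_div, norm_pow]
  have h2 : ‖z‖ ^ n * ‖ev z (shift n δ)‖ ≤ (1 - 1 / E) ^ n * (q * ‖γ l₀‖ * Real.exp G / R ^ n) := by
    gcongr
  have h3 : (1 - 1 / E) / R ≤ Real.exp (-(1 / (2 * E))) := by
    have e1 : (1 - 1 / E) / R ≤ 1 - 1 / (2 * E) := by
      rw [div_le_iff₀ hR0, hR, hEE]
      nlinarith
    have e2 := Real.add_one_le_exp (-(1 / (2 * E)))
    linarith
  have h4 : 0 ≤ (1 - 1 / E) / R := by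
    apply div_nonneg _ hR0.le
    rw [hEE]; linarith
  have h5 : ((1 - 1 / E) / R) ^ n ≤ Real.exp (-(n / (2 * E))) := by
    calc ((1 - 1 / E) / R) ^ n ≤ (Real.exp (-(1 / (2 * E)))) ^ n := by gcongr
      _ = Real.exp (-(n / (2 * E))) := by
        rw [← Real.exp_nat_mul]; congr 1; ring
  have h6 : ‖c‖ ≤ Real.exp G := by
    rw [← Real.exp_log hcpos]; exact Real.exp_le_exp.mpr hcG
  have h7 : (q : ℝ) ≤ Real.exp q := by
    have := Real.add_one_le_exp (q : ℝ)
    linarith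
  calc ‖c‖ / ‖γ l₀‖ * (‖z‖ ^ n * ‖ev z (shift n δ)‖)
      ≤ ‖c‖ / ‖γ l₀‖ * ((1 - 1 / E) ^ n * (q * ‖γ l₀‖ * Real.exp G / R ^ n)) := by gcongr
    _ = ‖c‖ * q * Real.exp G * ((1 - 1 / E) / R) ^ n := by
        rw [div_pow]; field_simp
    _ ≤ Real.exp G * Real.exp q * Real.exp G * Real.exp (-(n / (2 * E))) := by gcongr
    _ = Real.exp (G + q + G + -(n / (2 * E))) := by
        rw [Real.exp_add, Real.exp_add, Real.exp_add]
    _ ≤ Real.exp (-B) := by
        apply Real.exp_le_exp.mpr; linarith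

theorem structure_thm (q : ℕ) : ∃ (b : ℕ) (D₀ : ℝ), 1 ≤ b ∧ 2 ≤ D₀ ∧ ∀ D ≥ D₀,
    ∀ (T : Fin q → GIˣ) (c : Fin q → ℂ),
    (∀ z : ℂ, ‖z‖ ≤ 1 - 1 / D ^ b → ‖ev z (Fs T c)‖ ≤ Real.exp D) →
    Concl q b D (Fs T c) := by
  induction q with
  | zero =>
    refine ⟨1, 2, le_refl _, le_refl _, fun D hD T c _ => ⟨0, le_refl _, T, c, 1 - 1 / D, 0, le_refl _,
      by simp, by simp, ?_, ?_, fun l => l.elim0⟩⟩
    · rw [Wr, Matrix.det_isEmpty]
      intro h
      rw [PowerSeries.X_pow_dvd_iff] at h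
      have := h 0 (by norm_num)
      simp at this
    · intro z _
      rw [sub_self, norm_zero]
      exact (Real.exp_pos _).le
  | succ q ih =>
    obtain ⟨b', D₀', hb', hD₀', hIH⟩ := ih
    refine ⟨122 * b', max D₀' (E0 (q + 1)), by omega, le_max_of_le_left hD₀', fun D hD T c hF => ?_⟩
    have hDa : D₀' ≤ D := le_trans (le_max_left _ _) hD
    have hDb : E0 (q + 1) ≤ D := le_trans (le_max_right _ _) hD
    have hD2 : 2 ≤ D := hD₀'.trans hDa
    have hD1 : 1 ≤ D := by linarith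
    have hDp : 0 < D := by linarith
    set E : ℝ := (2 * D) ^ b' with hE
    have h2D : 1 ≤ 2 * D := by linarith
    have hE2D : 2 * D ≤ E := le_self_pow₀ h2D (by omega)
    have hED : D ≤ E := by linarith
    have hE1 : 1 ≤ E := by linarith
    have hEp : 0 < E := by linarith
    have hEle : E ≤ D ^ (2 * b') := by
      rw [hE, pow_mul]
      apply pow_le_pow_left₀ (by linarith)
      nlinarith
    have hElD : E ≤ D ^ (122 * b') := hEle.trans (pow_le_pow_right₀ hD1 (by omega))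
    have hE61 : E ^ 61 ≤ D ^ (122 * b') := by
      calc E ^ 61 ≤ (D ^ (2 * b')) ^ 61 := by gcongr
        _ = D ^ (122 * b') := by rw [← pow_mul]; congr 1; ring
    have hE8 : 2 * E ^ 8 ≤ D ^ (122 * b') := by
      calc 2 * E ^ 8 ≤ E * E ^ 8 := by gcongr; linarith
        _ = E ^ 9 := by ring
        _ ≤ E ^ 61 := pow_le_pow_right₀ hE1 (by norm_num)
        _ ≤ _ := hE61
    have hexp2 : 2 ≤ Real.exp D := by
      have := Real.add_one_le_exp D
      linarith
    -- the drop lemma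
    have hdrop : ∀ (T₁ : Fin q → GIˣ) (c₁ : Fin q → ℂ),
        (∀ z : ℂ, ‖z‖ ≤ 1 - 1 / E → ‖ev z (Fs T c) - ev z (Fs T₁ c₁)‖ ≤ Real.exp (-(2 * D))) →
        Concl (q + 1) (122 * b') D (Fs T c) := by
      intro T₁ c₁ h1
      have hinvE : 1 / D ^ (122 * b') ≤ 1 / E := one_div_le_one_div_of_le hEp hElD
      obtain ⟨q', hq', T', c', r, ν, hr1, hr2, hν1, hν2, herr, hgr⟩ := hIH (2 * D) (by linarith) T₁ c₁ (by
        intro z hz
        rw [← hE] at hz
        have a1 := h1 z hz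
        have a2 := hF z (by linarith)
        have a3 : Real.exp (-(2 * D)) ≤ Real.exp D := Real.exp_le_exp.mpr (by linarith)
        calc ‖ev z (Fs T₁ c₁)‖ = ‖ev z (Fs T c) - (ev z (Fs T c) - ev z (Fs T₁ c₁))‖ := by
              congr 1; ring
          _ ≤ ‖ev z (Fs T c)‖ + ‖ev z (Fs T c) - ev z (Fs T₁ c₁)‖ := norm_sub_le _ _
          _ ≤ Real.exp D + Real.exp D := by linarith
          _ = 2 * Real.exp D := by ring
          _ ≤ Real.exp D * Real.exp D := by gcongr
          _ = Real.exp (2 * D) := by rw [← Real.exp_add]; congr 1; ring)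
      rw [← hE] at hr2 hgr
      refine ⟨q', by omega, T', c', r, ν, ?_, by linarith, hν1, hν2, ?_, ?_⟩
      · have : 1 / (2 * D) ≤ 1 / D := one_div_le_one_div_of_le hDp (by linarith)
        linarith
      · intro z hz
        have a1 := h1 z (hz.trans hr2)
        have a2 := herr z hz
        calc ‖ev z (Fs T c) - ev z (Fs T' c')‖
            = ‖(ev z (Fs T c) - ev z (Fs T₁ c₁)) + (ev z (Fs T₁ c₁) - ev z (Fs T' c'))‖ := by
              congr 1; ring
          _ ≤ ‖ev z (Fs T c) - ev z (Fs T₁ c₁)‖ + ‖ev z (Fs T₁ c₁) - ev z (Fs T' c')‖ :=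
              norm_add_le _ _
          _ ≤ Real.exp (-(2 * D)) + Real.exp (-(2 * D)) := by linarith
          _ = 2 * Real.exp (-(2 * D)) := by ring
          _ ≤ Real.exp D * Real.exp (-(2 * D)) := by gcongr
          _ = Real.exp (-D) := by rw [← Real.exp_add]; congr 1; ring
      · intro l z hz
        exact (hgr l z hz).trans hElD
    by_cases hc : ∀ l, c l ≠ 0
    swap
    · push Not at hc
      obtain ⟨l₀, hl₀⟩ := hc
      refine hdrop (fun j => T (l₀.succAbove j)) (fun j => c (l₀.succAbove j)) fun z hz => ?_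
      rw [Fs_drop' T c l₀, hl₀, zero_smul, zero_add, sub_self, norm_zero]
      exact (Real.exp_pos _).le
    by_cases hli : ∀ γ : Fin (q + 1) → ℂ, ∑ l, γ l • ((T l : GI) : PowerSeries ℂ) = 0 → γ = 0
    swap
    · push Not at hli
      obtain ⟨γ, hγ0, hγne⟩ := hli
      obtain ⟨l₀, hl₀⟩ : ∃ l₀, γ l₀ ≠ 0 := by
        by_contra hcon
        push Not at hcon
        exact hγne (funext hcon)
      refine hdrop (fun j => T (l₀.succAbove j)) (fun j => c (l₀.succAbove j)
        - c l₀ / γ l₀ * γ (l₀.succAbove j)) fun z hz => ?_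
      rw [Fs_drop T c γ l₀ hl₀, hγ0, smul_zero, zero_add, sub_self, norm_zero]
      exact (Real.exp_pos _).le
    obtain ⟨ν, hν, hν'⟩ := exists_order (Wr_ne_zero T hli)
    by_cases hlow : ∀ l, ∃ w : ℂ, ‖w‖ ≤ 1 - 1 / E ∧ -(2 * D) ≤ Real.log ‖c l * tv (T l) w‖
    swap
    · push Not at hlow
      obtain ⟨l₀, hl₀⟩ := hlow
      have hE0 : 0 < 1 / E := by positivity
      refine hdrop (fun j => T (l₀.succAbove j)) (fun j => c (l₀.succAbove j)) fun z hz => ?_
      have hz1 : ‖z‖ < 1 := by linarith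
      rw [Fs_drop' T c l₀, ev_add (smul_mem_Good _ (GI.good (unit_mem _))) (Fs_mem _ _) hz1,
        add_sub_cancel_right, ev_smul]
      have h1 := (hl₀ z hz).le
      have h2 : c l₀ * tv (T l₀) z ≠ 0 := mul_ne_zero (hc l₀) (tv_ne_zero _ hz1)
      have h3 := Real.exp_le_exp.mpr h1
      rwa [Real.exp_log (norm_pos_iff.mpr h2)] at h3
    have hqpos : 0 < q + 1 := Nat.succ_pos q
    have hFE : ∀ z : ℂ, ‖z‖ ≤ 1 - 1 / (2 * E ^ 8) → ‖ev z (Fs T c)‖ ≤ Real.exp D := by
      intro z hz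
      apply hF
      have : 1 / D ^ (122 * b') ≤ 1 / (2 * E ^ 8) := one_div_le_one_div_of_le (by positivity) hE8
      linarith
    rcases level hqpos (hDb.trans hED) hD1 hED T c hc hν hν' hFE hlow with ⟨hνlt, hgr⟩ | ⟨G, hG1, hG2, hG3⟩
    · refine ⟨q + 1, le_refl _, T, c, 1 - 1 / E ^ 8, ν, ?_, ?_, ?_, hν', ?_, ?_⟩
      · have h1 : D ≤ E ^ 8 := hED.trans (le_self_pow₀ hE1 (by norm_num))
        have := one_div_le_one_div_of_le hDp h1
        linarith
      · have h1 : E ^ 8 ≤ D ^ (122 * b') := le_trans (by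
          have : 0 < E ^ 8 := by positivity
          linarith) hE8
        have := one_div_le_one_div_of_le (by positivity) h1
        linarith
      · have h1 : (ν : ℝ) ≤ E ^ 8 := hνlt.le.trans (pow_le_pow_right₀ hE1 (by norm_num))
        rw [sub_sub_cancel, mul_one_div, div_le_one (by positivity)]
        exact h1
      · intro z _
        rw [sub_self, norm_zero]
        exact (Real.exp_pos _).le
      · intro l z hz
        exact (hgr l z hz).trans hE61
    · -- a relation of high order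
      set n := (ν - 1) / (q + 1) with hn
      have hνpos : 0 < ν := by
        rcases Nat.eq_zero_or_pos ν with h | h
        · exfalso
          rw [h] at hG3
          simp only [Nat.cast_zero, zero_div, zero_sub] at hG3
          have hGG := hG2 ⟨0, hqpos⟩ 0 (by
            have : 1 / (2 * E) ≤ 1 := by
              rw [div_le_one (by positivity)]; linarith
            rw [norm_zero]
            linarith)
          have hG0 : 0 ≤ G := (norm_nonneg _).trans hGG
          have h5 : (-1 : ℝ) / (2 * E) ≤ 0 := by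
            apply div_nonpos_of_nonpos_of_nonneg <;> linarith
          have h6 : (0 : ℝ) ≤ ((q + 1 : ℕ) : ℝ) := by positivity
          linarith
        · exact h
      have hndiv : (q + 1) * n + 1 ≤ ν := by
        have := Nat.mul_div_le (ν - 1) (q + 1)
        rw [← hn] at this
        omega
      have hnge : (ν : ℝ) / ((q + 1 : ℕ) : ℝ) - 1 ≤ n := by
        have h1 : ν ≤ (q + 1) * (n + 1) := by
          have := Nat.lt_mul_div_succ (ν - 1) hqpos
          rw [← hn] at this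
          omega
        rw [sub_le_iff_le_add, div_le_iff₀ (by positivity)]
        calc (ν : ℝ) ≤ (((q + 1) * (n + 1) : ℕ) : ℝ) := by exact_mod_cast h1
          _ = _ := by push_cast; ring
      obtain ⟨γ, hγne, hγ⟩ := exists_relation T ((pow_dvd_pow _ hndiv).trans hν)
      obtain ⟨l₀, -, hl₀⟩ := Finset.exists_max_image (Finset.univ : Finset (Fin (q + 1)))
        (fun l => ‖γ l‖) ⟨⟨0, hqpos⟩, Finset.mem_univ _⟩
      have hγl₀ : γ l₀ ≠ 0 := by
        intro h
        apply hγne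
        funext l
        have := hl₀ l (Finset.mem_univ l)
        rw [h, norm_zero] at this
        simpa using this
      refine hdrop (fun j => T (l₀.succAbove j)) (fun j => c (l₀.succAbove j)
        - c l₀ / γ l₀ * γ (l₀.succAbove j)) fun z hz => ?_
      have hz1 : ‖z‖ < 1 := by
        have : 0 < 1 / E := by positivity
        linarith
      rw [Fs_drop T c γ l₀ hγl₀, ev_add (smul_mem_Good _ (Good.sum_mem fun l _ =>
        smul_mem_Good _ (GI.good (unit_mem (T l))))) (Fs_mem _ _) hz1, add_sub_cancel_right]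
      apply drop_estimate T γ l₀ hγl₀ (fun l => hl₀ l (Finset.mem_univ l)) hγ (E := E) (G := G)
        (by linarith) (hc l₀) (hG1 l₀) hG2 _ hz
      refine hG3.trans ?_
      gcongr

end Pool.Agent.Helper52
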