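import Pool.Agent.Helper52.Good
import Pool.Agent.Helper52.Anal

/-!
Units of the ring of good integer power series, their logarithmic derivatives, and Wronskian type
matrices.
-/

namespace Pool.Agent.Helper52

open PowerSeries Finset Metric

/-- the value of a unit -/
noncomputable def tv (T : GIˣ) (z : ℂ) : ℂ := ev z ((T : GI) : PowerSeries ℂ)

/-- the logarithmic Euler derivative `X T' / T` -/
noncomputable def sser (T : GIˣ) : PowerSeries ℂ :=
  theta ℂ ((T : GI) : PowerSeries ℂ) * (((T⁻¹ : GIˣ) : GI) : PowerSeries ℂ)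

/-- the series `theta^i T / T` -/
noncomputable def useq (T : GIˣ) : ℕ → PowerSeries ℂ
  | 0 => 1
  | i + 1 => theta ℂ (useq T i) + sser T * useq T i

theorem unit_mem (T : GIˣ) : ((T : GI) : PowerSeries ℂ) ∈ GI := (T : GI).2

theorem unit_mul_inv (T : GIˣ) :
    ((T : GI) : PowerSeries ℂ) * (((T⁻¹ : GIˣ) : GI) : PowerSeries ℂ) = 1 := by
  rw [← Subring.coe_mul, ← Units.val_mul, mul_inv_cancel]
  rfl

theorem sser_mem (T : GIˣ) : sser T ∈ GI :=
  GI.mul_mem (theta_mem_GI (unit_mem T)) (unit_mem T⁻¹)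

theorem useq_mem (T : GIˣ) (i : ℕ) : useq T i ∈ GI := by
  induction i with
  | zero => exact GI.one_mem
  | succ i ih => exact GI.add_mem (theta_mem_GI ih) (GI.mul_mem (sser_mem T) ih)

theorem theta_unit (T : GIˣ) :
    theta ℂ ((T : GI) : PowerSeries ℂ) = sser T * ((T : GI) : PowerSeries ℂ) := by
  rw [sser, mul_assoc, mul_comm (((T⁻¹ : GIˣ) : GI) : PowerSeries ℂ), unit_mul_inv, mul_one]

theorem theta_iter_unit (T : GIˣ) (i : ℕ) :
    (theta ℂ)^[i] ((T : GI) : PowerSeries ℂ) = useq T i * ((T : GI) : PowerSeries ℂ) := by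
  induction i with
  | zero => simp [useq]
  | succ i ih =>
    rw [Function.iterate_succ_apply', ih, Derivation.leibniz, theta_unit, useq]
    simp only [smul_eq_mul]
    ring

theorem theta_iter_mem_Good {a : PowerSeries ℂ} (ha : a ∈ Good) (i : ℕ) :
    (theta ℂ)^[i] a ∈ Good := by
  induction i with
  | zero => exact ha
  | succ i ih => rw [Function.iterate_succ_apply']; exact theta_mem_Good ih

theorem tv_ne_zero (T : GIˣ) {z : ℂ} (hz : ‖z‖ < 1) : tv T z ≠ 0 := by
  intro h
  have h1 := ev_mul (GI.good (unit_mem T)) (GI.good (unit_mem T⁻¹)) hz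
  rw [unit_mul_inv, ev_one hz] at h1
  rw [tv] at h
  rw [h, zero_mul] at h1
  exact one_ne_zero h1

theorem norm_tv_zero (T : GIˣ) : ‖tv T 0‖ = 1 := by
  have key : ∀ S : GIˣ, 1 ≤ ‖tv S 0‖ := by
    intro S
    have h0 := tv_ne_zero S (z := 0) (by simp)
    rw [tv, ev_zero] at h0 ⊢
    have := GI.one_le_norm (unit_mem S) (n := 0) (by simpa using h0)
    simpa using this
  have h1 := ev_mul (GI.good (unit_mem T)) (GI.good (unit_mem T⁻¹)) (z := 0) (by simp)
  rw [unit_mul_inv, ev_one (by simp)] at h1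
  have h2 : ‖tv T 0‖ * ‖tv T⁻¹ 0‖ = 1 := by
    rw [← norm_mul, tv, tv, ← h1, norm_one]
  have h3 := key T
  have h4 := key T⁻¹
  nlinarith

theorem tv_differentiableOn (T : GIˣ) : DifferentiableOn ℂ (tv T) (ball 0 1) :=
  ev_differentiableOn (GI.good (unit_mem T))

theorem ev_sser (T : GIˣ) {z : ℂ} (hz : ‖z‖ < 1) :
    ev z (sser T) = z * (deriv (tv T) z / tv T z) := by
  have h1 : ev z (theta ℂ ((T : GI) : PowerSeries ℂ)) = ev z (sser T) * tv T z := by
    rw [theta_unit, ev_mul (GI.good (sser_mem T)) (GI.good (unit_mem T)) hz]; rfl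
  rw [ev_theta (GI.good (unit_mem T)) hz] at h1
  have h2 := tv_ne_zero T hz
  have h3 : (fun w => ev w ((T : GI) : PowerSeries ℂ)) = tv T := rfl
  rw [h3] at h1
  rw [mul_div_assoc', h1]
  field_simp

/-- bounds for iterated Euler derivatives -/
theorem theta_iter_bound {a : PowerSeries ℂ} (ha : a ∈ Good) {q : ℕ} (hq : 0 < q) {R r' B : ℝ}
    (hR : R < r') (hr' : r' < 1) (hB : ∀ z : ℂ, ‖z‖ ≤ r' → ‖ev z a‖ ≤ B)
    {i : ℕ} (hi : i ≤ q) {z : ℂ} (hz : ‖z‖ ≤ R) :
    ‖ev z ((theta ℂ)^[i] a)‖ ≤ (q / (r' - R)) ^ i * B := by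
  have hq' : (0 : ℝ) < q := by exact_mod_cast hq
  set δ := (r' - R) / q with hδ
  have hδ0 : 0 < δ := div_pos (by linarith) hq'
  have key : ∀ i : ℕ, i ≤ q → ∀ z : ℂ, ‖z‖ ≤ r' - i * δ →
      ‖ev z ((theta ℂ)^[i] a)‖ ≤ (q / (r' - R)) ^ i * B := by
    intro i
    induction i with
    | zero => intro _ z hz; simpa using hB z (by simpa using hz)
    | succ i ih =>
      intro hi z hz
      rw [Function.iterate_succ_apply']
      push_cast at hz
      have hz1 : ‖z‖ < 1 := by
        have : 0 ≤ ((i : ℝ) + 1) * δ := by positivity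
        linarith
      have hgood := theta_iter_mem_Good ha i
      rw [ev_theta hgood hz1, norm_mul]
      have h1 := cauchy_deriv (ev_differentiableOn hgood) (r := r' - (i + 1) * δ)
        (r' := r' - i * δ) (by linarith) (by
          have : 0 ≤ (i : ℝ) * δ := by positivity
          linarith) (ih (by omega)) hz
      have h2 : (r' - i * δ) - (r' - (i + 1) * δ) = δ := by ring
      rw [h2] at h1
      calc ‖z‖ * ‖deriv (fun w => ev w ((theta ℂ)^[i] a)) z‖
          ≤ 1 * ((q / (r' - R)) ^ i * B / δ) := by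
            apply mul_le_mul hz1.le h1 (norm_nonneg _) zero_le_one
        _ = (q / (r' - R)) ^ (i + 1) * B := by
            rw [hδ, pow_succ]
            have : r' - R ≠ 0 := by linarith
            field_simp
  apply key i hi z
  refine hz.trans ?_
  have h1 : (i : ℝ) * δ ≤ q * δ := by
    apply mul_le_mul_of_nonneg_right _ hδ0.le
    exact_mod_cast hi
  have h2 : (q : ℝ) * δ = r' - R := by
    rw [hδ]; field_simp
  linarith

/-- bounds for `useq` -/
theorem useq_bound (T : GIˣ) {q : ℕ} (hq : 0 < q) {R r' g : ℝ}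
    (hR : R < r') (hr' : r' < 1) (hg : 0 ≤ g) (hs : ∀ z : ℂ, ‖z‖ ≤ r' → ‖ev z (sser T)‖ ≤ g)
    {i : ℕ} (hi : i ≤ q) {z : ℂ} (hz : ‖z‖ ≤ R) :
    ‖ev z (useq T i)‖ ≤ (q / (r' - R) + g) ^ i := by
  have hq' : (0 : ℝ) < q := by exact_mod_cast hq
  set δ := (r' - R) / q with hδ
  have hδ0 : 0 < δ := div_pos (by linarith) hq'
  have hRr : 0 < r' - R := by linarith
  have key : ∀ i : ℕ, i ≤ q → ∀ z : ℂ, ‖z‖ ≤ r' - i * δ →
      ‖ev z (useq T i)‖ ≤ (q / (r' - R) + g) ^ i := by
    intro i
    induction i with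
    | zero =>
      intro _ z hz
      have : ‖z‖ < 1 := by simp at hz; linarith
      simp [useq, ev_one this]
    | succ i ih =>
      intro hi z hz
      push_cast at hz
      have hi0 : 0 ≤ (i : ℝ) * δ := by positivity
      have hz1 : ‖z‖ < 1 := by linarith
      have hgood := GI.good (useq_mem T i)
      rw [useq, ev_add (theta_mem_Good hgood) (Good.mul_mem (GI.good (sser_mem T)) hgood) hz1,
        ev_mul (GI.good (sser_mem T)) hgood hz1, ev_theta hgood hz1]
      have h1 := cauchy_deriv (ev_differentiableOn hgood) (r := r' - (i + 1) * δ)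
        (r' := r' - i * δ) (by linarith) (by linarith) (ih (by omega)) hz
      have h2 : (r' - i * δ) - (r' - (i + 1) * δ) = δ := by ring
      rw [h2] at h1
      have h3 := ih (by omega) z (by linarith)
      have h4 := hs z (by linarith)
      calc ‖z * deriv (fun w => ev w (useq T i)) z + ev z (sser T) * ev z (useq T i)‖
          ≤ ‖z‖ * ‖deriv (fun w => ev w (useq T i)) z‖ + ‖ev z (sser T)‖ * ‖ev z (useq T i)‖ := by
            refine (norm_add_le _ _).trans ?_
            rw [norm_mul, norm_mul]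
        _ ≤ 1 * ((q / (r' - R) + g) ^ i / δ) + g * (q / (r' - R) + g) ^ i := by
            gcongr
        _ = (q / (r' - R) + g) ^ (i + 1) := by
            rw [hδ, pow_succ]
            field_simp
  apply key i hi z
  refine hz.trans ?_
  have h1 : (i : ℝ) * δ ≤ q * δ := by
    apply mul_le_mul_of_nonneg_right _ hδ0.le
    exact_mod_cast hi
  have h2 : (q : ℝ) * δ = r' - R := by
    rw [hδ]; field_simp
  linarith

/-- the Wronskian type determinant -/
noncomputable def Wr {q : ℕ} (T : Fin q → GIˣ) : PowerSeries ℂ :=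
  Matrix.det (Matrix.of fun (i l : Fin q) => useq (T l) i)

theorem det_mem_subring {R : Type*} [CommRing R] (S : Subring R) {n : Type*} [Fintype n]
    [DecidableEq n] (M : Matrix n n R) (h : ∀ i j, M i j ∈ S) : M.det ∈ S := by
  rw [Matrix.det_apply]
  refine S.sum_mem fun σ _ => ?_
  rw [Units.smul_def]
  exact S.zsmul_mem (S.prod_mem fun i _ => h _ _) _

theorem Wr_mem {q : ℕ} (T : Fin q → GIˣ) : Wr T ∈ GI :=
  det_mem_subring _ _ fun i l => useq_mem (T l) i

theorem ev_det {n : Type*} [Fintype n] [DecidableEq n] (M : Matrix n n (PowerSeries ℂ))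
    (h : ∀ i j, M i j ∈ Good) {z : ℂ} (hz : ‖z‖ < 1) :
    ev z M.det = (Matrix.of fun i j => ev z (M i j)).det := by
  set M' : Matrix n n Good := Matrix.of fun i j => ⟨M i j, h i j⟩ with hM'
  have h1 : M = (Good.subtype).mapMatrix M' := by
    ext i j; rfl
  have h2 : M.det = ((M'.det : Good) : PowerSeries ℂ) := by
    rw [h1, ← RingHom.map_det]; rfl
  rw [h2, ← evHom_apply z hz, RingHom.map_det]
  congr 1

theorem det_bound {q : ℕ} (M : Matrix (Fin q) (Fin q) ℂ) {x : ℝ} (h : ∀ i j, ‖M i j‖ ≤ x) :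
    ‖M.det‖ ≤ q.factorial * x ^ q := by
  have := Matrix.det_le (A := M) (abv := NormedField.toAbsoluteValue ℂ) (x := x) h
  rw [nsmul_eq_mul, Fintype.card_fin] at this
  exact this

end Pool.Agent.Helper52
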